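import Pool.Agent.NUP.MF.Forward

/-!
# The density and its primitive in the strip `|Im z| < l`

* `Pc_diff`, `Pc_bound` : analyticity and decay of `Pc`
* `Gc`, `hasDerivAt_Gc`, `Gc_ofReal` : analytic primitive
* `vc`, `vc_diff`, `vc_re`, `vc_ofReal` : the complex row potential
-/

set_option autoImplicit false

open MeasureTheory Set Filter Topology Complex

namespace NUMF

noncomputable section

lemma re83s (z : ℂ) : (8 / 3 * z : ℂ).re = 8 / 3 * z.re := by
  have : (8 / 3 : ℂ) = ((8 / 3 : ℝ) : ℂ) := by push_cast; rfl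
  rw [this, Complex.re_ofReal_mul]

lemma im83s (z : ℂ) : (8 / 3 * z : ℂ).im = 8 / 3 * z.im := by
  have : (8 / 3 : ℂ) = ((8 / 3 : ℝ) : ℂ) := by push_cast; rfl
  rw [this, Complex.im_ofReal_mul]

/-- `2 cos (8b/3) - 1`, positive for `0 ≤ b < l` -/
def kb (b : ℝ) : ℝ := 2 * Real.cos (8 / 3 * b) - 1

lemma kb_pos {b : ℝ} (h : |b| < l) : 0 < kb b := by
  have hpi := Real.pi_pos
  have h1 : |8 / 3 * b| < Real.pi / 3 := by
    rw [abs_mul, abs_of_pos (by norm_num : (0:ℝ) < 8 / 3)]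
    unfold l at h
    linarith
  have h2 : Real.cos (Real.pi / 3) < Real.cos |8 / 3 * b| :=
    Real.cos_lt_cos_of_nonneg_of_le_pi (abs_nonneg _) (by linarith) h1
  rw [Real.cos_pi_div_three, Real.cos_abs] at h2
  unfold kb
  linarith

lemma kb_le {z : ℂ} {b : ℝ} (hb : b < l) (hz : |z.im| ≤ b) : kb b ≤ kb z.im := by
  have hpi := Real.pi_pos
  have hb0 : 0 ≤ b := (abs_nonneg _).trans hz
  unfold kb
  have h1 : Real.cos (8 / 3 * b) ≤ Real.cos |8 / 3 * z.im| := by
    refine Real.cos_le_cos_of_nonneg_of_le_pi (abs_nonneg _) ?_ ?_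
    · unfold l at hb
      linarith
    · rw [abs_mul, abs_of_pos (by norm_num : (0:ℝ) < 8 / 3)]
      linarith
  rw [Real.cos_abs] at h1
  linarith

/-- lower bound of the two denominators of `Pc` -/
lemma den_ge {z : ℂ} (hz : |z.im| < l) {e : ℂ} (he : ‖e‖ = 1) :
    kb z.im * Real.cosh (8 / 3 * z.re) ≤ ‖2 * Complex.cosh (8 / 3 * z) + e‖ := by
  have h1 := kb_pos hz
  have h2 : Real.cosh (8 / 3 * z.re) * Real.cos (8 / 3 * z.im) ≤ ‖Complex.cosh (8 / 3 * z)‖ := by
    have e1 := Complex.abs_re_le_norm (Complex.cosh (8 / 3 * z))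
    rw [re_cosh, re83s, im83s] at e1
    exact (le_abs_self _).trans e1
  have h3 : ‖2 * Complex.cosh (8 / 3 * z)‖ - ‖e‖ ≤ ‖2 * Complex.cosh (8 / 3 * z) + e‖ :=
    norm_sub_le_norm_add _ _
  rw [he, norm_mul, Complex.norm_ofNat] at h3
  have h4 := Real.one_le_cosh (8 / 3 * z.re)
  unfold kb at h1 ⊢
  nlinarith

lemma den_ne {z : ℂ} (hz : |z.im| < l) {e : ℂ} (he : ‖e‖ = 1) :
    2 * Complex.cosh (8 / 3 * z) + e ≠ 0 := by
  have h1 := den_ge hz he
  have h2 := kb_pos hz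
  have h3 := Real.cosh_pos (8 / 3 * z.re)
  have h4 : 0 < kb z.im * Real.cosh (8 / 3 * z.re) := by positivity
  exact norm_pos_iff.1 (lt_of_lt_of_le h4 h1)

lemma Pc_diff {z : ℂ} (hz : |z.im| < l) : DifferentiableAt ℂ Pc z := by
  have n1 := den_ne hz (e := 1) norm_one
  have n2 := den_ne hz (e := -1) (by simp)
  rw [← sub_eq_add_neg] at n2
  unfold Pc
  have d0 : DifferentiableAt ℂ (fun z : ℂ => 2 * Complex.cosh (8 / 3 * z)) z := by fun_prop
  refine DifferentiableAt.const_mul (DifferentiableAt.add ?_ ?_) _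
  · exact (differentiableAt_const _).div (d0.sub_const _) n2
  · exact (differentiableAt_const _).div (d0.add_const _) n1

lemma Pc_bound' {z : ℂ} (hz : |z.im| < l) :
    ‖Pc z‖ ≤ 8 / (√3 * Real.pi * kb z.im) * (Real.cosh (8 / 3 * z.re))⁻¹ := by
  have hk := kb_pos hz
  have hc := Real.cosh_pos (8 / 3 * z.re)
  have hsp : 0 < √3 * Real.pi := mul_pos sq3_pos Real.pi_pos
  have h0 : 0 < kb z.im * Real.cosh (8 / 3 * z.re) := by positivity
  have hd : ∀ e : ℂ, ‖e‖ = 1 → ‖1 / (2 * Complex.cosh (8 / 3 * z) + e)‖ ≤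
      1 / (kb z.im * Real.cosh (8 / 3 * z.re)) := by
    intro e he
    rw [norm_div, norm_one]
    exact one_div_le_one_div_of_le h0 (den_ge hz he)
  have h1 := hd 1 norm_one
  have h2 := hd (-1) (by simp)
  rw [← sub_eq_add_neg] at h2
  unfold Pc
  rw [norm_mul, norm_div, Complex.norm_ofNat, Complex.norm_real, Real.norm_eq_abs, abs_of_pos hsp]
  calc 4 / (√3 * Real.pi) * ‖1 / (2 * Complex.cosh (8 / 3 * z) - 1) + 1 / (2 * Complex.cosh (8 / 3 * z) + 1)‖
      ≤ 4 / (√3 * Real.pi) * (1 / (kb z.im * Real.cosh (8 / 3 * z.re)) +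
        1 / (kb z.im * Real.cosh (8 / 3 * z.re))) := by
        gcongr
        exact (norm_add_le _ _).trans (by linarith)
    _ = _ := by
        have := hk.ne'
        have := hc.ne'
        have := sq3_pos.ne'
        have := Real.pi_ne_zero
        field_simp
        ring

lemma inv_cosh_le (x : ℝ) : (Real.cosh x)⁻¹ ≤ 2 * Real.exp (-|x|) := by
  have h1 : Real.exp |x| / 2 ≤ Real.cosh x := by
    rw [← Real.cosh_abs, Real.cosh_eq]
    have := Real.exp_pos (-|x|)
    linarith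
  have h3 : 0 < Real.exp |x| := Real.exp_pos _
  have h4 : 0 < Real.cosh x := Real.cosh_pos _
  rw [Real.exp_neg, inv_le_comm₀ h4 (by positivity), mul_inv, inv_inv]
  linarith

/-- uniform decay in a closed strip -/
theorem Pc_bound {z : ℂ} {b : ℝ} (hb : b < l) (hz : |z.im| ≤ b) :
    ‖Pc z‖ ≤ 16 / (√3 * Real.pi * kb b) * Real.exp (-(8 / 3) * |z.re|) := by
  have hb0 : 0 ≤ b := (abs_nonneg _).trans hz
  have hz' : |z.im| < l := lt_of_le_of_lt hz hb
  have h1 := Pc_bound' hz'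
  have h2 := kb_le hb hz
  have h3 : 0 < kb b := kb_pos (by rw [abs_of_nonneg hb0]; exact hb)
  have h4 := inv_cosh_le (8 / 3 * z.re)
  have hsp : 0 < √3 * Real.pi := mul_pos sq3_pos Real.pi_pos
  have h5 : -|8 / 3 * z.re| = -(8 / 3) * |z.re| := by
    rw [abs_mul, abs_of_pos (by norm_num : (0:ℝ) < 8 / 3)]
    ring
  rw [h5] at h4
  have hc := Real.cosh_pos (8 / 3 * z.re)
  calc ‖Pc z‖ ≤ _ := h1
    _ ≤ 8 / (√3 * Real.pi * kb b) * (2 * Real.exp (-(8 / 3) * |z.re|)) := by gcongr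
    _ = _ := by ring

/-! ### the primitive -/

/-- `(2/√3) sinh (8z/3)` -/
def wz (z : ℂ) : ℂ := 2 / (√3 : ℝ) * Complex.sinh (8 / 3 * z)

/-- analytic primitive of `Pc` -/
def Gc (z : ℂ) : ℂ := 1 / (2 * Real.pi * I) * (Complex.log (1 + I * wz z) - Complex.log (1 - I * wz z))

lemma sinh_re_im (w : ℂ) : Complex.sinh w = ((Real.sinh w.re * Real.cos w.im : ℝ) : ℂ) +
      ((Real.cosh w.re * Real.sin w.im : ℝ) : ℂ) * I := by
  conv_lhs => rw [← Complex.re_add_im w]
  rw [Complex.sinh_add, Complex.cosh_mul_I, Complex.sinh_mul_I]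
  push_cast
  ring

lemma slit_pm {z : ℂ} (hz : |z.im| < l) {σ : ℝ} (hσ : |σ| = 1) : 1 + σ * I * wz z ∈ slitPlane := by
  have hpi := Real.pi_pos
  have hs3 := sq3_pos
  have hb : |8 / 3 * z.im| < Real.pi / 3 := by
    rw [abs_mul, abs_of_pos (by norm_num : (0:ℝ) < 8 / 3)]
    unfold l at hz
    linarith
  have hcos : 0 < Real.cos (8 / 3 * z.im) := Real.cos_pos_of_mem_Ioo (by
    rw [abs_lt] at hb
    constructor <;> linarith)
  have e : 1 + σ * I * wz z =
      ((1 - σ * (2 / √3) * (Real.cosh (8 / 3 * z.re) * Real.sin (8 / 3 * z.im)) : ℝ) : ℂ) +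
      ((σ * (2 / √3) * (Real.sinh (8 / 3 * z.re) * Real.cos (8 / 3 * z.im)) : ℝ) : ℂ) * I := by
    unfold wz
    rw [sinh_re_im, re83s, im83s]
    push_cast
    linear_combination ((σ : ℂ) * (2 / (√3 : ℝ)) * (Complex.cosh (8 / 3 * z.re) * Complex.sin (8 / 3 * z.im))) *
      Complex.I_mul_I
  have hσ0 : σ ≠ 0 := by
    intro h0
    rw [h0, abs_zero] at hσ
    norm_num at hσ
  rw [Complex.mem_slitPlane_iff]
  by_cases hr : Real.sinh (8 / 3 * z.re) = 0
  · left
    have hr0 : 8 / 3 * z.re = 0 := Real.sinh_eq_zero.1 hr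
    rw [e, hr0, Real.cosh_zero, one_mul]
    simp only [add_re, ofReal_re, mul_re, ofReal_im, I_re, I_im, mul_zero, zero_mul, sub_zero, add_zero]
    have hsin : |Real.sin (8 / 3 * z.im)| < √3 / 2 := by
      have h1 : Real.sin |8 / 3 * z.im| < Real.sin (Real.pi / 3) :=
        Real.sin_lt_sin_of_lt_of_le_pi_div_two (by linarith [abs_nonneg (8 / 3 * z.im)]) (by linarith) hb
      rw [Real.sin_pi_div_three] at h1
      have h2 : |Real.sin (8 / 3 * z.im)| = Real.sin |8 / 3 * z.im| := by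
        rw [Real.abs_sin_eq_sin_abs_of_abs_le_pi (by linarith)]
      rw [h2]
      exact h1
    have h3 : |σ * (2 / √3) * Real.sin (8 / 3 * z.im)| < 1 := by
      rw [abs_mul, abs_mul, hσ, one_mul, abs_of_pos (by positivity)]
      calc 2 / √3 * |Real.sin (8 / 3 * z.im)| < 2 / √3 * (√3 / 2) := by gcongr
        _ = 1 := by field_simp
    have h4 := le_abs_self (σ * (2 / √3) * Real.sin (8 / 3 * z.im))
    linarith
  · right
    rw [e]
    simp only [add_im, ofReal_im, mul_im, ofReal_re, I_re, I_im, mul_zero, mul_one, zero_add, add_zero]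
    have : (2 / √3 : ℝ) ≠ 0 := by positivity
    exact mul_ne_zero (mul_ne_zero hσ0 this) (mul_ne_zero hr hcos.ne')

lemma csq3' : ((√3 : ℝ) : ℂ) ^ 2 = 3 := by rw [sq, csq3]

theorem hasDerivAt_Gc {z : ℂ} (hz : |z.im| < l) : HasDerivAt Gc (Pc z) z := by
  have hs1 : 1 + I * wz z ∈ slitPlane := by simpa using slit_pm hz (σ := 1) abs_one
  have hs2 : 1 - I * wz z ∈ slitPlane := by
    have := slit_pm hz (σ := -1) (by simp)
    have e : 1 + ((-1 : ℝ) : ℂ) * I * wz z = 1 - I * wz z := by push_cast; ring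
    rwa [e] at this
  have hw : HasDerivAt wz (2 / (√3 : ℝ) * (Complex.cosh (8 / 3 * z) * (8 / 3))) z := by
    have h0 : HasDerivAt (fun z : ℂ => 8 / 3 * z) (8 / 3) z := by
      simpa using (hasDerivAt_id z).const_mul (8 / 3 : ℂ)
    exact (h0.csinh).const_mul _
  have h1 := ((hw.const_mul I).const_add 1).clog hs1
  have h2 := ((hw.const_mul I).const_sub 1).clog hs2
  have h3 := (h1.sub h2).const_mul (1 / (2 * Real.pi * I))
  refine h3.congr_deriv ?_
  have n1 := slitPlane_ne_zero hs1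
  have n2 := slitPlane_ne_zero hs2
  have m1 := den_ne hz (e := 1) norm_one
  have m2 := den_ne hz (e := -1) (by simp)
  rw [← sub_eq_add_neg] at m2
  have hpi : (Real.pi : ℂ) ≠ 0 := Complex.ofReal_ne_zero.2 Real.pi_ne_zero
  have h30 : ((√3 : ℝ) : ℂ) ≠ 0 := Complex.ofReal_ne_zero.2 sq3_pos.ne'
  have key : (1 + I * wz z) * (1 - I * wz z) =
      (2 * Complex.cosh (8 / 3 * z) - 1) * (2 * Complex.cosh (8 / 3 * z) + 1) / 3 := by
    have e1 : (1 + I * wz z) * (1 - I * wz z) = 1 - (I * I) * wz z ^ 2 := by ring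
    rw [e1, Complex.I_mul_I]
    unfold wz
    rw [mul_pow, div_pow, csq3', Complex.sinh_sq]
    ring
  have hsum : I * (2 / (√3 : ℝ) * (Complex.cosh (8 / 3 * z) * (8 / 3))) / (1 + I * wz z) -
      -(I * (2 / (√3 : ℝ) * (Complex.cosh (8 / 3 * z) * (8 / 3)))) / (1 - I * wz z) =
      2 * I * (2 / (√3 : ℝ) * (Complex.cosh (8 / 3 * z) * (8 / 3))) / ((1 + I * wz z) * (1 - I * wz z)) := by
    field_simp
    ring
  have hfr : 1 / (2 * Complex.cosh (8 / 3 * z) - 1) + 1 / (2 * Complex.cosh (8 / 3 * z) + 1) =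
      4 * Complex.cosh (8 / 3 * z) / ((2 * Complex.cosh (8 / 3 * z) - 1) * (2 * Complex.cosh (8 / 3 * z) + 1)) := by
    rw [div_add_div _ _ m2 m1]
    congr 1
    ring
  have hD : (2 * Complex.cosh (8 / 3 * z) - 1) * (2 * Complex.cosh (8 / 3 * z) + 1) ≠ 0 := mul_ne_zero m2 m1
  rw [hsum, key]
  unfold Pc
  rw [hfr]
  generalize (2 * Complex.cosh (8 / 3 * z) - 1) * (2 * Complex.cosh (8 / 3 * z) + 1) = D at *
  push_cast
  have hI := Complex.I_ne_zero
  field_simp
  ring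

theorem Gc_ofReal (t : ℝ) : Gc t = (G t : ℂ) := by
  have hl := l_pos
  have h1 : ∀ t : ℝ, HasDerivAt (fun t : ℝ => Gc t - (G t : ℂ)) 0 t := by
    intro t
    have a1 : HasDerivAt (fun t : ℝ => Gc t) (Pc t) t :=
      (hasDerivAt_Gc (z := (t : ℂ)) (by simpa using hl)).comp_ofReal
    have a2 : HasDerivAt (fun t : ℝ => (G t : ℂ)) (P t : ℂ) t := (hasDerivAt_G t).ofReal_comp
    have a3 := a1.sub a2
    refine a3.congr_deriv ?_
    rw [Pc_ofReal, sub_self]
  have h2 : ∀ x y : ℝ, Gc x - (G x : ℂ) = Gc y - (G y : ℂ) :=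
    is_const_of_deriv_eq_zero (fun t => (h1 t).differentiableAt) fun t => (h1 t).deriv
  have h3 := h2 t 0
  have h4 : Gc ((0:ℝ) : ℂ) - (G 0 : ℂ) = 0 := by
    unfold Gc G wz
    simp
  rw [h4] at h3
  exact sub_eq_zero.1 h3

lemma Gc_diff {z : ℂ} (hz : |z.im| < l) : DifferentiableAt ℂ Gc z := (hasDerivAt_Gc hz).differentiableAt

/-! ### the complex row potential -/

/-- `log (cosh 2z + 1) - log (cosh 2z - r)` -/
def vc (z : ℂ) : ℂ := Complex.log (Complex.cosh (2 * z) + 1) - Complex.log (Complex.cosh (2 * z) - r)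

lemma re_two_mul (z : ℂ) : (2 * z : ℂ).re = 2 * z.re := by simp
lemma im_two_mul (z : ℂ) : (2 * z : ℂ).im = 2 * z.im := by simp

lemma cosh2_re_gt {z : ℂ} (hz : |z.im| < l) : r < (Complex.cosh (2 * z)).re := by
  have hpi := Real.pi_pos
  rw [re_cosh, re_two_mul, im_two_mul]
  have h1 : |2 * z.im| < Real.pi / 4 := by
    rw [abs_mul, abs_two]
    unfold l at hz
    linarith
  have h2 : Real.cos (Real.pi / 4) < Real.cos |2 * z.im| :=
    Real.cos_lt_cos_of_nonneg_of_le_pi (abs_nonneg _) (by linarith) h1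
  rw [← r_eq, Real.cos_abs] at h2
  have h3 := Real.one_le_cosh (2 * z.re)
  have h4 := r_pos
  nlinarith

lemma slit_v {z : ℂ} (hz : |z.im| < l) : Complex.cosh (2 * z) + 1 ∈ slitPlane ∧
    Complex.cosh (2 * z) - r ∈ slitPlane := by
  have h1 := cosh2_re_gt hz
  have h2 := r_pos
  constructor
  · left
    rw [Complex.add_re, Complex.one_re]
    linarith
  · left
    rw [Complex.sub_re, Complex.ofReal_re]
    linarith

lemma vc_diff {z : ℂ} (hz : |z.im| < l) : DifferentiableAt ℂ vc z := by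
  obtain ⟨s1, s2⟩ := slit_v hz
  have d1 : DifferentiableAt ℂ (fun z => Complex.cosh (2 * z) + 1) z := by fun_prop
  have d2 : DifferentiableAt ℂ (fun z => Complex.cosh (2 * z) - (r : ℂ)) z := by fun_prop
  unfold vc
  exact (d1.clog s1).sub (d2.clog s2)

lemma hasDerivAt_vc {z : ℂ} (hz : |z.im| < l) : HasDerivAt vc
    (2 * Complex.sinh (2 * z) / (Complex.cosh (2 * z) + 1) -
      2 * Complex.sinh (2 * z) / (Complex.cosh (2 * z) - r)) z := by
  obtain ⟨s1, s2⟩ := slit_v hz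
  have h0 : HasDerivAt (fun z : ℂ => 2 * z) 2 z := by
    simpa using (hasDerivAt_id z).const_mul (2 : ℂ)
  have h1 := h0.ccosh
  have h2 := (h1.add_const 1).clog s1
  have h3 := (h1.sub_const (r : ℂ)).clog s2
  refine (h2.sub h3).congr_deriv ?_
  ring

lemma vc_ofReal (t : ℝ) : vc t = (v t : ℂ) := by
  have a1 : 0 < Real.cosh (2 * t) + 1 := by
    have := Real.cosh_pos (2 * t)
    linarith
  have a2 := cm_r t
  unfold vc v
  rw [Real.log_div a1.ne' a2.ne', Complex.ofReal_sub, Complex.ofReal_log a1.le, Complex.ofReal_log a2.le]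
  push_cast
  rfl

lemma vc_re (z : ℂ) : (vc z).re = Real.log ‖Complex.cosh (2 * z) + 1‖ -
    Real.log ‖Complex.cosh (2 * z) - r‖ := by
  unfold vc
  rw [Complex.sub_re, Complex.log_re, Complex.log_re]

end

end NUMF
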