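import Pool.Agent.NUP.MF.LogInt

/-!
# The constants of the quanta gas

* `integral_h_sub`: `∫ (h t y - h t y') dt = 2 (y'² - y²)` for `|y|, |y'| ≤ 4 l`
* `integral_v`, `integral_V`: `∫ v = ∫ V = 9 π² / 32`
* `one_loop`: `∫_0^∞ log (U₊ U₋ / U₀²) dy = - π² / 8`
* `one_loop_Q`: `∫_0^∞ log (2 cosh u / (2 cosh u + 1)) du = - 5 π² / 72`
-/

set_option autoImplicit false

open MeasureTheory Set Filter Topology

namespace NUMF

noncomputable section

lemma log_two_cosh_add (a : ℝ) {y : ℝ} (hy : 0 < y) :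
    Real.log (2 * Real.cosh y + 2 * Real.cos a) = y + ell a y := by
  have h1 := ell_arg_pos a hy
  have e : 2 * Real.cosh y + 2 * Real.cos a =
      Real.exp y * (1 + 2 * Real.cos a * Real.exp (-y) + Real.exp (-y) ^ 2) := by
    rw [Real.cosh_eq]
    have e1 : Real.exp y * Real.exp (-y) = 1 := by rw [← Real.exp_add]; simp
    linear_combination (-(2 * Real.cos a) - Real.exp (-y)) * e1
  rw [e, Real.log_mul (Real.exp_pos _).ne' h1.ne', Real.log_exp]
  rfl

lemma h_eq_ell {t : ℝ} (ht : t ≠ 0) (y : ℝ) :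
    h t y = 2 * |t| - Real.log 2 + ell (2 * y) (2 * |t|) := by
  have ht' : 0 < 2 * |t| := by
    have := abs_pos.2 ht
    linarith
  have h1 := log_two_cosh_add (2 * y) ht'
  have e : Real.cosh (2 * |t|) = Real.cosh (2 * t) := by
    rw [← Real.cosh_abs (2 * t), abs_mul, abs_two]
  rw [e] at h1
  have h2 := arg_ge t y
  have h3 : 0 < Real.cosh (2 * t) + Real.cos (2 * y) := by
    have : 0 < 2 * t ^ 2 := by positivity
    linarith
  have h4 : 2 * Real.cosh (2 * t) + 2 * Real.cos (2 * y) = 2 * (Real.cosh (2 * t) + Real.cos (2 * y)) := by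
    ring
  rw [h4, Real.log_mul two_ne_zero h3.ne'] at h1
  unfold h
  linarith

lemma ae_ne_zero : ∀ᵐ t : ℝ, t ≠ 0 := by
  rw [ae_iff]
  simp

lemma integrable_comp_abs' {f : ℝ → ℝ} (hf0 : IntegrableOn f (Ioi 0)) : Integrable fun t => f |t| := by
  have hf : IntegrableOn (fun t => f |t|) (Ioi 0) := by
    refine hf0.congr_fun (fun t ht => ?_) measurableSet_Ioi
    have ht' : (0:ℝ) < t := ht
    rw [abs_of_pos ht']
  have int_Iic : IntegrableOn (fun x ↦ f |x|) (Iic 0) := by
    rw [← Measure.map_neg_eq_self (volume : Measure ℝ)]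
    let m : MeasurableEmbedding fun x : ℝ => -x := (Homeomorph.neg ℝ).measurableEmbedding
    rw [m.integrableOn_map_iff]
    simp_rw [Function.comp_def, abs_neg, neg_preimage, neg_Iic, neg_zero]
    exact Iff.mpr integrableOn_Ici_iff_integrableOn_Ioi hf
  have h3 := int_Iic.union hf
  rwa [Iic_union_Ioi, integrableOn_univ] at h3

lemma ell2_integrable (a : ℝ) : IntegrableOn (fun t => ell a (2 * t)) (Ioi 0) := by
  have := (integrableOn_Ioi_comp_mul_left_iff (ell a) 0 (a := 2) two_pos).2 (by
    simpa using ell_integrable a)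
  exact this

lemma integral_ell2 (a : ℝ) : ∫ t in Ioi (0:ℝ), ell a (2 * t) = L a / 2 := by
  have := integral_comp_mul_left_Ioi (fun s => ell a s) (0:ℝ) (b := 2) (by norm_num)
  rw [this]
  unfold L
  rw [mul_zero, smul_eq_mul]
  ring

lemma ell_abs_integrable (a : ℝ) : Integrable fun t : ℝ => ell a (2 * |t|) :=
  integrable_comp_abs' (ell2_integrable a)

lemma integral_ell_abs (a : ℝ) : ∫ t : ℝ, ell a (2 * |t|) = L a := by
  have h1 := integral_comp_abs (f := fun t => ell a (2 * t))
  rw [h1, integral_ell2]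
  ring

theorem integral_h_sub {y y' : ℝ} (hy : |y| ≤ 4 * l) (hy' : |y'| ≤ 4 * l) :
    Integrable (fun t => h t y - h t y') ∧ ∫ t, (h t y - h t y') = 2 * (y' ^ 2 - y ^ 2) := by
  have hae : (fun t => h t y - h t y') =ᵐ[volume] fun t => ell (2 * y) (2 * |t|) - ell (2 * y') (2 * |t|) := by
    filter_upwards [ae_ne_zero] with t ht
    rw [h_eq_ell ht, h_eq_ell ht]
    ring
  have hl : 8 * l = Real.pi := by unfold l; ring
  refine ⟨((ell_abs_integrable _).sub (ell_abs_integrable _)).congr hae.symm, ?_⟩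
  rw [integral_congr_ae hae, integral_sub (ell_abs_integrable _) (ell_abs_integrable _),
    integral_ell_abs, integral_ell_abs, L_eq, L_eq]
  · ring
  · rw [abs_mul, abs_two]; linarith
  · rw [abs_mul, abs_two]; linarith

lemma v_eq (t : ℝ) : v t = h t 0 - h t (3 * l) := by
  have a1 : 0 < Real.cosh (2 * t) + 1 := by
    have := Real.cosh_pos (2 * t)
    linarith
  rw [v, h0, h3, Real.log_div a1.ne' (cm_r t).ne']

lemma v_nonneg (t : ℝ) : 0 ≤ v t := by
  unfold v
  refine Real.log_nonneg ?_
  rw [le_div_iff₀ (cm_r t)]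
  have := r_pos
  linarith

theorem v_integrable : Integrable v := by
  have hl := l_pos
  have h1 := (integral_h_sub (y := 0) (y' := 3 * l) (by rw [abs_zero]; linarith)
    (by rw [abs_of_pos (by linarith)]; linarith)).1
  exact h1.congr (Eventually.of_forall fun t => (v_eq t).symm)

theorem integral_v : ∫ t, v t = 9 * Real.pi ^ 2 / 32 := by
  have hl := l_pos
  have h1 := (integral_h_sub (y := 0) (y' := 3 * l) (by rw [abs_zero]; linarith)
    (by rw [abs_of_pos (by linarith)]; linarith)).2
  simp_rw [v_eq]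
  rw [h1]
  unfold l
  ring

lemma V_ae : V =ᵐ[volume] fun t => (h t (3 * l) - h t (4 * l)) + ((h t l - h t (2 * l)) + (h t l - h t 0)) := by
  filter_upwards [ae_ne_zero] with t ht
  rw [V_eq ht, log_w ht, log_g, zero_add, zero_sub, h_neg_right, show 3 * l + l = 4 * l by ring,
    show 3 * l - l = 2 * l by ring]
  ring

theorem V_integral : Integrable V ∧ ∫ t, V t = 9 * Real.pi ^ 2 / 32 := by
  have hl := l_pos
  obtain ⟨i1, e1⟩ := integral_h_sub (y := 3 * l) (y' := 4 * l) (by rw [abs_of_pos (by linarith)]; linarith)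
    (by rw [abs_of_pos (by linarith)])
  obtain ⟨i2, e2⟩ := integral_h_sub (y := l) (y' := 2 * l) (by rw [abs_of_pos (by linarith)]; linarith)
    (by rw [abs_of_pos (by linarith)]; linarith)
  obtain ⟨i3, e3⟩ := integral_h_sub (y := l) (y' := 0) (by rw [abs_of_pos (by linarith)]; linarith)
    (by rw [abs_zero]; linarith)
  refine ⟨(i1.add (i2.add i3)).congr V_ae.symm, ?_⟩
  have b1 := integral_add i1 (i2.add i3)
  have b2 := integral_add i2 i3
  simp only [Pi.add_apply] at b1 b2
  rw [integral_congr_ae V_ae, b1, b2, e1, e2, e3]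
  unfold l
  ring

/-- `U₊ U₋ / U₀²` as a function of `y = π k / 8` -/
def loopf (y : ℝ) : ℝ := (2 * Real.cosh y - 1) ^ 4 * (2 * Real.cosh y + 1) ^ 2 /
  ((2 * Real.cosh y) ^ 2 * (2 * Real.cosh (2 * y)) ^ 2)

lemma log_loopf {y : ℝ} (hy : 0 < y) : Real.log (loopf y) =
    4 * ell (2 * Real.pi / 3) y + 2 * ell (Real.pi / 3) y - 2 * ell (Real.pi / 2) y -
      2 * ell (Real.pi / 2) (2 * y) := by
  have c1 := Real.one_le_cosh y
  have c2 := Real.one_le_cosh (2 * y)
  have e1 := log_two_cosh_add (2 * Real.pi / 3) hy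
  have e2 := log_two_cosh_add (Real.pi / 3) hy
  have e3 := log_two_cosh_add (Real.pi / 2) hy
  have e4 := log_two_cosh_add (Real.pi / 2) (y := 2 * y) (by linarith)
  have k1 : Real.cos (2 * Real.pi / 3) = -(1 / 2) := by
    rw [show 2 * Real.pi / 3 = Real.pi - Real.pi / 3 by ring, Real.cos_pi_sub, Real.cos_pi_div_three]
  rw [k1, show 2 * Real.cosh y + 2 * -(1 / 2) = 2 * Real.cosh y - 1 by ring] at e1
  rw [Real.cos_pi_div_three, show 2 * Real.cosh y + 2 * (1 / 2) = 2 * Real.cosh y + 1 by ring] at e2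
  rw [Real.cos_pi_div_two, mul_zero, add_zero] at e3 e4
  have p1 : 0 < 2 * Real.cosh y - 1 := by linarith
  have p2 : 0 < 2 * Real.cosh y + 1 := by linarith
  have p3 : 0 < 2 * Real.cosh y := by linarith
  have p4 : 0 < 2 * Real.cosh (2 * y) := by linarith
  unfold loopf
  rw [Real.log_div (by positivity) (by positivity), Real.log_mul (by positivity) (by positivity),
    Real.log_mul (by positivity) (by positivity), Real.log_pow, Real.log_pow, Real.log_pow,
    Real.log_pow, e1, e2, e3, e4]
  push_cast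
  ring

/-- **the one loop integral** -/
theorem one_loop : IntegrableOn (fun y => Real.log (loopf y)) (Ioi 0) ∧
    ∫ y in Ioi (0:ℝ), Real.log (loopf y) = -(Real.pi ^ 2 / 8) := by
  have hpi := Real.pi_pos
  have i1 := (ell_integrable (2 * Real.pi / 3)).const_mul 4
  have i2 := (ell_integrable (Real.pi / 3)).const_mul 2
  have i3 := (ell_integrable (Real.pi / 2)).const_mul 2
  have i4 := (ell2_integrable (Real.pi / 2)).const_mul 2
  have hE : EqOn (fun y => 4 * ell (2 * Real.pi / 3) y + 2 * ell (Real.pi / 3) y -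
      2 * ell (Real.pi / 2) y - 2 * ell (Real.pi / 2) (2 * y)) (fun y => Real.log (loopf y)) (Ioi 0) :=
    fun y hy => (log_loopf hy).symm
  refine ⟨IntegrableOn.congr_fun (((i1.add i2).sub i3).sub i4) hE measurableSet_Ioi, ?_⟩
  have b1 := integral_add i1 i2
  have b2 := integral_sub (i1.add i2) i3
  have b3 := integral_sub ((i1.add i2).sub i3) i4
  simp only [Pi.add_apply, Pi.sub_apply] at b1 b2 b3
  have l1 := L_eq (a := 2 * Real.pi / 3) (by rw [abs_of_pos (by positivity)]; linarith)
  have l2 := L_eq (a := Real.pi / 3) (by rw [abs_of_pos (by positivity)]; linarith)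
  have l3 := L_eq (a := Real.pi / 2) (by rw [abs_of_pos (by positivity)]; linarith)
  unfold L at l1 l2 l3
  have l4 := integral_ell2 (Real.pi / 2)
  unfold L at l4
  rw [← setIntegral_congr_fun measurableSet_Ioi hE, b3, b2, b1, integral_const_mul, integral_const_mul,
    integral_const_mul, integral_const_mul, l4, l1, l2, l3]
  ring

/-- the constant of the denominator: `(2/π²) * (- 5π²/72) = - 5/36` -/
theorem one_loop_Q : IntegrableOn (fun u => Real.log (2 * Real.cosh u / (2 * Real.cosh u + 1))) (Ioi 0) ∧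
    ∫ u in Ioi (0:ℝ), Real.log (2 * Real.cosh u / (2 * Real.cosh u + 1)) = -(5 * Real.pi ^ 2 / 72) := by
  have hpi := Real.pi_pos
  have i1 := ell_integrable (Real.pi / 2)
  have i2 := ell_integrable (Real.pi / 3)
  have hE : EqOn (fun y => ell (Real.pi / 2) y - ell (Real.pi / 3) y)
      (fun u => Real.log (2 * Real.cosh u / (2 * Real.cosh u + 1))) (Ioi 0) := by
    intro y hy
    have c1 := Real.one_le_cosh y
    have e2 := log_two_cosh_add (Real.pi / 3) hy
    have e3 := log_two_cosh_add (Real.pi / 2) hy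
    rw [Real.cos_pi_div_three, show 2 * Real.cosh y + 2 * (1 / 2) = 2 * Real.cosh y + 1 by ring] at e2
    rw [Real.cos_pi_div_two, mul_zero, add_zero] at e3
    simp only
    rw [Real.log_div (by linarith) (by linarith), e2, e3]
    ring
  refine ⟨IntegrableOn.congr_fun (i1.sub i2) hE measurableSet_Ioi, ?_⟩
  have b1 := integral_sub i1 i2
  have l2 := L_eq (a := Real.pi / 3) (by rw [abs_of_pos (by positivity)]; linarith)
  have l3 := L_eq (a := Real.pi / 2) (by rw [abs_of_pos (by positivity)]; linarith)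
  unfold L at l2 l3
  rw [← setIntegral_congr_fun measurableSet_Ioi hE, b1, l2, l3]
  ring

end

end NUMF
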