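import Pool.Agent.NUP.MF.Fourier
import Pool.Agent.NUP.MF.Const

/-!
# Forward cosine transforms of the kernels

* `h_forward`: `∫ (h t a - h t b) cos (kt) dt = 2π (cosh bk - cosh ak) / (k sinh (πk/2))`, `|a|, |b| ≤ π/2`
* `V_forward`: `∫ V cos (kt) dt = (2π/k) (c-1) (2c-1) (2c+1)² / sinh (πk/2)`, `c = cosh (πk/8)`
* `v_forward`, `P_forward`: `∫ P cos (kt) dt = 1 / (2c - 1)`
* `log_g_fourier`
-/

set_option autoImplicit false

open MeasureTheory Set Filter Topology FourierTransform

namespace NUMF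

noncomputable section

/-- inversion of a cosine transform -/
theorem cos_inversion {m F : ℝ → ℝ} (hm : IntegrableOn m (Ioi 0)) (hF : Integrable F)
    (hFm : ∀ t, F t = ∫ k in Ioi (0:ℝ), 2 * Real.cos (t * k) * m k) {k : ℝ} (hk : 0 < k)
    (hc : ContinuousAt m k) : ∫ t, F t * Real.cos (k * t) = 2 * Real.pi * m k := by
  have hpi := Real.pi_pos
  set f : ℝ → ℂ := fun x => (m |x| : ℂ) with hf
  have hmi : Integrable fun x => m |x| := integrable_comp_abs' hm
  have hfi : Integrable f := hmi.ofReal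
  have hFe : ∀ t, F (-t) = F t := by
    intro t
    rw [hFm, hFm]
    refine setIntegral_congr_fun measurableSet_Ioi fun k _ => ?_
    rw [neg_mul, Real.cos_neg]
  -- the transform of `f`
  have hft : ∀ ξ : ℝ, 𝓕 f ξ = (F (2 * Real.pi * ξ) : ℂ) := by
    intro ξ
    rw [Real.fourier_real_eq_integral_exp_smul]
    set g : ℝ → ℂ := fun v => Complex.exp (↑(-2 * Real.pi * v * ξ) * Complex.I) • f v with hg
    have hgi : Integrable g := by
      refine hfi.bdd_mul (c := 1) ?_ ?_
      · exact (Continuous.aestronglyMeasurable (by fun_prop))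
      · refine Eventually.of_forall fun v => ?_
        rw [Complex.norm_exp_ofReal_mul_I]
    have h1 : ∫ v, g v = ∫ v, g (-v) := (integral_neg_eq_self g volume).symm
    have h2 : ∀ v, g v + g (-v) = ((2 * (Real.cos (2 * Real.pi * ξ * |v|) * m |v|) : ℝ) : ℂ) := by
      intro v
      have e0 : Real.cos (2 * Real.pi * ξ * |v|) = Real.cos (2 * Real.pi * v * ξ) := by
        rcases abs_cases v with ⟨h3, _⟩ | ⟨h3, _⟩
        · rw [h3]; congr 1; ring
        · rw [h3, show 2 * Real.pi * ξ * -v = -(2 * Real.pi * v * ξ) by ring, Real.cos_neg]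
      rw [e0, hg, hf]
      simp only [smul_eq_mul, abs_neg]
      have e1 : ((-2 * Real.pi * -v * ξ : ℝ) : ℂ) * Complex.I = ((2 * Real.pi * v * ξ : ℝ) : ℂ) * Complex.I := by
        congr 2; ring
      have e2 : ((-2 * Real.pi * v * ξ : ℝ) : ℂ) * Complex.I = -(((2 * Real.pi * v * ξ : ℝ) : ℂ) * Complex.I) := by
        push_cast; ring
      rw [e1, e2]
      have e3 : Complex.exp (((2 * Real.pi * v * ξ : ℝ) : ℂ) * Complex.I) +
          Complex.exp (-(((2 * Real.pi * v * ξ : ℝ) : ℂ) * Complex.I)) =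
          2 * ((Real.cos (2 * Real.pi * v * ξ) : ℝ) : ℂ) := by
        rw [Complex.ofReal_cos, Complex.cos]
        rw [neg_mul]
        ring
      push_cast at e3 ⊢
      linear_combination ((m |v| : ℝ) : ℂ) * e3
    have h3 : 2 * ∫ v, g v = 2 * ((∫ v, Real.cos (2 * Real.pi * ξ * |v|) * m |v| : ℝ) : ℂ) := by
      have h4 : (∫ v, g v) + ∫ v, g (-v) = ∫ v, (g v + g (-v)) := (integral_add hgi hgi.comp_neg).symm
      have h5 : 2 * ∫ v, g v = (∫ v, g v) + ∫ v, g (-v) := by rw [← h1]; ring
      rw [h5, h4]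
      simp_rw [h2]
      rw [integral_complex_ofReal, integral_const_mul]
      push_cast
      ring
    have h4 : ∫ v, g v = ((∫ v, Real.cos (2 * Real.pi * ξ * |v|) * m |v| : ℝ) : ℂ) := by
      exact mul_left_cancel₀ two_ne_zero h3
    rw [h4, integral_comp_abs (f := fun v => Real.cos (2 * Real.pi * ξ * v) * m v), hFm,
      ← integral_const_mul]
    congr 1
    refine setIntegral_congr_fun measurableSet_Ioi fun k _ => ?_
    ring
  have hFi : Integrable (𝓕 f) := by
    have h1 : 𝓕 f = fun ξ => (F (2 * Real.pi * ξ) : ℂ) := funext hft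
    rw [h1]
    exact (hF.comp_mul_left' (by positivity)).ofReal
  have hcont : ContinuousAt f k := by
    have h1 : ContinuousAt (fun x : ℝ => m |x|) k := by
      have h2 : ContinuousAt (fun x : ℝ => |x|) k := continuous_abs.continuousAt
      have h3 : ContinuousAt m |k| := by rwa [abs_of_pos hk]
      exact ContinuousAt.comp (f := fun x : ℝ => |x|) h3 h2
    exact Complex.continuous_ofReal.continuousAt.comp h1
  have hinv := hfi.fourierInv_fourier_eq hFi hcont
  rw [Real.fourierInv_eq'] at hinv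
  simp_rw [hft] at hinv
  have hG : Integrable fun v : ℝ => Complex.exp (((2 * Real.pi * inner ℝ v k : ℝ) : ℂ) * Complex.I) •
      (F (2 * Real.pi * v) : ℂ) := by
    refine ((hF.comp_mul_left' (R := 2 * Real.pi) (by positivity)).ofReal (𝕜 := ℂ)).bdd_mul (c := 1) ?_ ?_
    · refine (Continuous.aestronglyMeasurable ?_)
      simp only [RCLike.inner_apply, conj_trivial]
      fun_prop
    · refine Eventually.of_forall fun v => ?_
      rw [Complex.norm_exp_ofReal_mul_I]
  have hre := congrArg Complex.re hinv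
  have hre2 := integral_re hG
  simp only [RCLike.re_to_complex] at hre2
  rw [← hre2] at hre
  have h6 : ∀ v : ℝ, (Complex.exp (((2 * Real.pi * inner ℝ v k : ℝ) : ℂ) * Complex.I) •
      (F (2 * Real.pi * v) : ℂ)).re = (fun t => F t * Real.cos (k * t)) (2 * Real.pi * v) := by
    intro v
    simp only [RCLike.inner_apply, conj_trivial, smul_eq_mul]
    rw [Complex.re_mul_ofReal, Complex.exp_ofReal_mul_I_re]
    rw [mul_comm]
    congr 2
    ring
  simp_rw [h6] at hre
  rw [Measure.integral_comp_mul_left (fun t => F t * Real.cos (k * t)) (2 * Real.pi)] at hre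
  rw [hf] at hre
  simp only [Complex.ofReal_re, abs_of_pos hk, smul_eq_mul] at hre
  rw [abs_of_pos (by positivity), inv_mul_eq_iff_eq_mul₀ (by positivity)] at hre
  exact hre

/-- transform of `ell (2a) (2|t|)` -/
def E (k a : ℝ) : ℝ := ∫ t, ell (2 * a) (2 * |t|) * Real.cos (k * t)

lemma Ecos_integrable (k a : ℝ) : Integrable fun t => ell (2 * a) (2 * |t|) * Real.cos (k * t) := by
  have h1 := ell_abs_integrable (2 * a)
  refine h1.mul_bdd (c := 1) (Continuous.aestronglyMeasurable (by fun_prop)) ?_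
  refine Eventually.of_forall fun t => ?_
  rw [Real.norm_eq_abs]
  exact Real.abs_cos_le_one _

lemma E_cont (k : ℝ) : Continuous (E k) := by
  unfold E
  have hmell : Integrable fun t : ℝ => mell (2 * |t|) := by
    refine integrable_comp_abs' (f := fun t => mell (2 * t)) ?_
    exact (integrableOn_Ioi_comp_mul_left_iff mell 0 (a := 2) two_pos).2 (by
      simpa using mell_integrable)
  refine continuous_of_dominated (bound := fun t => mell (2 * |t|)) ?_ ?_ hmell ?_
  · intro a
    exact (Ecos_integrable k a).aestronglyMeasurable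
  · intro a
    filter_upwards [ae_ne_zero] with t ht
    have h1 : 0 < 2 * |t| := by
      have := abs_pos.2 ht
      linarith
    rw [norm_mul, Real.norm_eq_abs, Real.norm_eq_abs]
    have h2 := abs_ell_le (2 * a) h1
    have h3 := Real.abs_cos_le_one (k * t)
    calc _ ≤ |ell (2 * a) (2 * |t|)| * 1 := by gcongr
      _ ≤ _ := by rw [mul_one]; exact h2
  · filter_upwards [ae_ne_zero] with t ht
    have h1 : 0 < 2 * |t| := by
      have := abs_pos.2 ht
      linarith
    refine Continuous.mul ?_ continuous_const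
    unfold ell
    exact Continuous.log (by fun_prop) fun a => (ell_arg_pos (2 * a) h1).ne'

lemma hsub_ell {t : ℝ} (ht : t ≠ 0) (a b : ℝ) :
    h t a - h t b = ell (2 * a) (2 * |t|) - ell (2 * b) (2 * |t|) := by
  rw [h_eq_ell ht, h_eq_ell ht]
  ring

lemma hsub_cos (k a b : ℝ) : Integrable (fun t => (h t a - h t b) * Real.cos (k * t)) ∧
    ∫ t, (h t a - h t b) * Real.cos (k * t) = E k a - E k b := by
  have hae : (fun t => (h t a - h t b) * Real.cos (k * t)) =ᵐ[volume] fun t =>
      ell (2 * a) (2 * |t|) * Real.cos (k * t) - ell (2 * b) (2 * |t|) * Real.cos (k * t) := by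
    filter_upwards [ae_ne_zero] with t ht
    rw [hsub_ell ht]
    ring
  refine ⟨((Ecos_integrable k a).sub (Ecos_integrable k b)).congr hae.symm, ?_⟩
  rw [integral_congr_ae hae, integral_sub (Ecos_integrable k a) (Ecos_integrable k b)]
  rfl

lemma E_sub_lt {a b k : ℝ} (ha : |a| < Real.pi / 2) (hb : |b| < Real.pi / 2) (hk : 0 < k) :
    E k a - E k b = 2 * Real.pi * ((Real.cosh (b * k) - Real.cosh (a * k)) / (k * sk k)) := by
  have hpi4 : 4 * l = Real.pi / 2 := by unfold l; ring
  rw [← (hsub_cos k a b).2]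
  have hs := sk_pos hk
  refine cos_inversion (m := fun k => (Real.cosh (b * k) - Real.cosh (a * k)) / (k * sk k))
    (F := fun t => h t a - h t b) ?_ ?_ ?_ hk ?_
  · have h1 := ((h_sub_fourier ha hb 0).1).const_mul (1 / 2)
    refine IntegrableOn.congr_fun h1 (fun k _ => ?_) measurableSet_Ioi
    simp only [zero_mul, Real.cos_zero]
    ring
  · exact (integral_h_sub (by rw [hpi4]; exact ha.le) (by rw [hpi4]; exact hb.le)).1
  · intro t
    rw [(h_sub_fourier ha hb t).2]
    refine setIntegral_congr_fun measurableSet_Ioi fun k _ => ?_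
    ring
  · refine ContinuousAt.div (by fun_prop) ?_ (mul_pos hk hs).ne'
    unfold sk
    fun_prop

theorem h_forward {a b k : ℝ} (ha : |a| ≤ Real.pi / 2) (hb : |b| ≤ Real.pi / 2) (hk : 0 < k) :
    Integrable (fun t => (h t a - h t b) * Real.cos (k * t)) ∧
    ∫ t, (h t a - h t b) * Real.cos (k * t) =
      2 * Real.pi * ((Real.cosh (b * k) - Real.cosh (a * k)) / (k * sk k)) := by
  have hpi := Real.pi_pos
  obtain ⟨i1, e1⟩ := hsub_cos k a b
  refine ⟨i1, ?_⟩
  rw [e1]
  set D : ℝ → ℝ := fun a => 2 * Real.pi * (Real.cosh (a * k) / (k * sk k)) with hD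
  have h1 : EqOn (fun a => E k a + D a) (fun _ => E k 0 + D 0) (Ioo (-(Real.pi / 2)) (Real.pi / 2)) := by
    intro x hx
    have h2 := E_sub_lt (abs_lt.2 hx) (b := 0) (by rw [abs_zero]; positivity) hk
    simp only [hD]
    rw [sub_div] at h2
    linarith
  have hcl : Icc (-(Real.pi / 2)) (Real.pi / 2) ⊆ closure (Ioo (-(Real.pi / 2)) (Real.pi / 2)) := by
    rw [closure_Ioo (by linarith : -(Real.pi / 2) ≠ Real.pi / 2)]
  have hDc : Continuous D := by
    rw [hD]
    fun_prop
  have h2 := h1.of_subset_closure ((E_cont k).add hDc).continuousOn continuousOn_const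
    Ioo_subset_Icc_self hcl
  have h3 := h2 (abs_le.1 ha)
  have h4 := h2 (abs_le.1 hb)
  simp only [hD] at h3 h4
  rw [sub_div]
  linarith

/-! ### the kernels of the gas -/

/-- `cosh (π k / 8)` -/
def ck1 (k : ℝ) : ℝ := Real.cosh (l * k)

lemma cosh2 (k : ℝ) : Real.cosh (2 * l * k) = 2 * ck1 k ^ 2 - 1 := by
  unfold ck1
  rw [show 2 * l * k = 2 * (l * k) by ring, Real.cosh_two_mul, Real.sinh_sq]
  ring

lemma cosh3 (k : ℝ) : Real.cosh (3 * l * k) = 4 * ck1 k ^ 3 - 3 * ck1 k := by
  unfold ck1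
  rw [show 3 * l * k = 3 * (l * k) by ring, Real.cosh_three_mul]

lemma cosh4 (k : ℝ) : Real.cosh (4 * l * k) = 8 * ck1 k ^ 4 - 8 * ck1 k ^ 2 + 1 := by
  have h1 : Real.cosh (4 * l * k) = 2 * Real.cosh (2 * l * k) ^ 2 - 1 := by
    rw [show 4 * l * k = 2 * (2 * l * k) by ring, Real.cosh_two_mul, Real.sinh_sq]
    ring
  rw [h1, cosh2]
  ring

/-- `U₊^` -/
theorem V_forward {k : ℝ} (hk : 0 < k) : Integrable (fun t => V t * Real.cos (k * t)) ∧
    ∫ t, V t * Real.cos (k * t) =
      2 * Real.pi * ((ck1 k - 1) * (2 * ck1 k - 1) * (2 * ck1 k + 1) ^ 2 / (k * sk k)) := by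
  have hl := l_pos
  have hpi4 : 4 * l = Real.pi / 2 := by unfold l; ring
  obtain ⟨i1, e1⟩ := h_forward (a := 3 * l) (b := 4 * l) (k := k) (by rw [abs_of_pos (by linarith)]; linarith)
    (by rw [abs_of_pos (by linarith)]; linarith) hk
  obtain ⟨i2, e2⟩ := h_forward (a := l) (b := 2 * l) (k := k) (by rw [abs_of_pos (by linarith)]; linarith)
    (by rw [abs_of_pos (by linarith)]; linarith) hk
  obtain ⟨i3, e3⟩ := h_forward (a := l) (b := 0) (k := k) (by rw [abs_of_pos (by linarith)]; linarith)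
    (by rw [abs_zero]; linarith) hk
  have hae : (fun t => V t * Real.cos (k * t)) =ᵐ[volume] fun t =>
      (h t (3 * l) - h t (4 * l)) * Real.cos (k * t) + ((h t l - h t (2 * l)) * Real.cos (k * t) +
        (h t l - h t 0) * Real.cos (k * t)) := by
    filter_upwards [V_ae] with t ht
    rw [ht]
    ring
  refine ⟨(i1.add (i2.add i3)).congr hae.symm, ?_⟩
  have b1 := integral_add i1 (i2.add i3)
  have b2 := integral_add i2 i3
  simp only [Pi.add_apply] at b1 b2
  rw [integral_congr_ae hae, b1, b2, e1, e2, e3, cosh2, cosh3, cosh4, zero_mul, Real.cosh_zero]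
  have e : Real.cosh (l * k) = ck1 k := rfl
  rw [e, ← mul_add, ← mul_add, ← add_div, ← add_div]
  congr 2
  ring

theorem v_forward {k : ℝ} (hk : 0 < k) : Integrable (fun t => v t * Real.cos (k * t)) ∧
    ∫ t, v t * Real.cos (k * t) = 2 * Real.pi * ((ck1 k - 1) * (2 * ck1 k + 1) ^ 2 / (k * sk k)) := by
  have hl := l_pos
  have hpi4 : 4 * l = Real.pi / 2 := by unfold l; ring
  obtain ⟨i1, e1⟩ := h_forward (a := 0) (b := 3 * l) (k := k) (by rw [abs_zero]; linarith)
    (by rw [abs_of_pos (by linarith)]; linarith) hk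
  simp_rw [v_eq]
  refine ⟨i1, ?_⟩
  rw [e1, cosh3, zero_mul, Real.cosh_zero]
  congr 2
  ring

lemma norm_exp_ik (k : ℝ) (z : ℂ) : ‖Complex.exp (Complex.I * k * z)‖ = Real.exp (-(k * z.im)) := by
  rw [Complex.norm_exp]
  congr 1
  have : Complex.I * k * z = (Complex.I * z) * k := by ring
  rw [this, Complex.re_mul_ofReal]
  simp
  ring

/-- `P^` -/
theorem P_forward (k : ℝ) : Integrable (fun t => P t * Real.cos (k * t)) ∧
    ∫ t, P t * Real.cos (k * t) = 1 / (2 * ck1 k - 1) := by
  have hl := l_pos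
  have h1 : Integrable fun t => P t * Real.cos (k * t) := by
    refine P_integrable.mul_bdd (c := 1) (Continuous.aestronglyMeasurable (by fun_prop)) ?_
    refine Eventually.of_forall fun t => ?_
    rw [Real.norm_eq_abs]
    exact Real.abs_cos_le_one _
  refine ⟨h1, ?_⟩
  have hb : ∀ z : ℂ, |z.im| ≤ l → ‖Complex.exp (Complex.I * k * z)‖ ≤
      Real.exp (|k| * l) * Real.exp (0 * |z.re|) := by
    intro z hz
    rw [norm_exp_ik, zero_mul, Real.exp_zero, mul_one]
    refine Real.exp_le_exp.2 ?_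
    calc -(k * z.im) ≤ |k * z.im| := neg_le_abs _
      _ = |k| * |z.im| := abs_mul _ _
      _ ≤ _ := by gcongr
  obtain ⟨i1, i2, i3, e⟩ := sum_rule (f := fun z => Complex.exp (Complex.I * k * z))
    (A := Real.exp (|k| * l)) (c := 0) le_rfl (by norm_num) (Continuous.continuousOn (by fun_prop))
    (fun z _ => by fun_prop) hb
  have e1 : ∀ s : ℝ, (P s : ℂ) * (Complex.exp (Complex.I * k * (s + l * Complex.I)) +
      Complex.exp (Complex.I * k * (s - l * Complex.I)) - Complex.exp (Complex.I * k * s)) =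
      ((2 * ck1 k - 1 : ℝ) : ℂ) * ((P s : ℂ) * Complex.exp (Complex.I * k * s)) := by
    intro s
    have a1 : Complex.I * k * (s + l * Complex.I) = Complex.I * k * s + (-(l * k : ℝ) : ℂ) := by
      push_cast
      linear_combination (k * l : ℂ) * Complex.I_mul_I
    have a2 : Complex.I * k * (s - l * Complex.I) = Complex.I * k * s + ((l * k : ℝ) : ℂ) := by
      push_cast
      linear_combination (-(k * l) : ℂ) * Complex.I_mul_I
    rw [a1, a2, Complex.exp_add, Complex.exp_add]
    unfold ck1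
    push_cast
    rw [Complex.cosh]
    ring
  simp_rw [e1] at e
  rw [integral_const_mul] at e
  have e2 : (2 * ck1 k - 1) * ∫ t, P t * Real.cos (k * t) = 1 := by
    have hre := congrArg Complex.re e
    rw [Complex.re_ofReal_mul] at hre
    have h3 := integral_re i3
    simp only [RCLike.re_to_complex] at h3
    rw [← h3] at hre
    have h4 : ∀ s : ℝ, ((P s : ℂ) * Complex.exp (Complex.I * k * s)).re = P s * Real.cos (k * s) := by
      intro s
      rw [Complex.re_ofReal_mul, show Complex.I * k * s = ((k * s : ℝ) : ℂ) * Complex.I by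
        push_cast; ring, Complex.exp_ofReal_mul_I_re]
    simp_rw [h4] at hre
    simpa using hre
  have h5 : 0 < 2 * ck1 k - 1 := by
    have : 1 ≤ ck1 k := Real.one_le_cosh _
    linarith
  rw [eq_div_iff h5.ne']
  linarith

/-- increments of `log g`: `L^(k) = (2π/k) (2 c - 1) / sinh (πk/2)` -/
theorem log_g_fourier (t : ℝ) :
    IntegrableOn (fun k => 2 * (1 - Real.cos (k * t)) * (2 * ck1 k - 1) / (k * sk k)) (Ioi 0) ∧
    Real.log (g t) = Real.log (g 0) -
      ∫ k in Ioi (0:ℝ), 2 * (1 - Real.cos (k * t)) * (2 * ck1 k - 1) / (k * sk k) := by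
  have hpi := Real.pi_pos
  have hl := l_pos
  have hpi4 : 4 * l = Real.pi / 2 := by unfold l; ring
  obtain ⟨i1, e1⟩ := h_incr_fourier (a := l) (by rw [abs_of_pos hl]; linarith) t
  obtain ⟨i0, e0⟩ := h_incr_fourier (a := 0) (by rw [abs_zero]; linarith) t
  have hf : ∀ k : ℝ, 2 * (1 - Real.cos (k * t)) * (2 * ck1 k - 1) / (k * sk k) =
      2 * (2 * (1 - Real.cos (k * t)) * Real.cosh (l * k) / (k * sk k)) -
      2 * (1 - Real.cos (k * t)) * Real.cosh (0 * k) / (k * sk k) := by
    intro k
    rw [zero_mul, Real.cosh_zero]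
    unfold ck1
    ring
  have j1 := i1.const_mul 2
  refine ⟨(j1.sub i0).congr (Eventually.of_forall fun k => (hf k).symm), ?_⟩
  have b1 := integral_sub j1 i0
  simp_rw [hf]
  rw [b1, integral_const_mul, ← e1, ← e0]
  have c1 : Real.cos (2 * l) = r := by
    rw [r_eq]; congr 1; unfold l; ring
  have g0 : Real.log (g t) = Real.log 2 - 2 * h t l + h t 0 := by
    rw [log_g, zero_add, zero_sub, h_neg_right]; ring
  have g1 : Real.log (g 0) = Real.log 2 - 2 * h 0 l + h 0 0 := by
    rw [log_g, zero_add, zero_sub, h_neg_right]; ring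
  have p1 : 0 < Real.cosh (2 * t) + r := cp_r t
  have p2 : 0 < 1 + r := by have := r_pos; linarith
  have p3 : 0 < Real.cosh (2 * t) + Real.cos (2 * 0) := by
    have := Real.cosh_pos (2 * t)
    simp
    linarith
  have p4 : 0 < 1 + Real.cos (2 * 0) := by simp
  rw [c1, Real.log_div p1.ne' p2.ne', Real.log_div p3.ne' p4.ne', g0, g1]
  unfold h
  rw [c1, mul_zero (2:ℝ), Real.cosh_zero]
  ring

end

end NUMF
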