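import Pool.Agent.NUP.MF.Forward

/-!
# The band limited profile (nu34/50d, [4.5] (d))

`Lh k = (2π/k) (2c - 1) / sinh (πk/2)`, `Uh k = (2π/k) (c-1)(2c-1)(2c+1)² / sinh (πk/2)`,
`1 + 2 Lh/Uh = coth² (3πk/16)`, and for every `ε > 0` a smooth even compactly supported profile
`c ≥ 0`, zero near `0`, `c² ≤ Lh`, with `∫_0^∞ log (1 + 2 c²/Uh) dk ≥ (4π/3)(1 - ε)`.
-/

set_option autoImplicit false

open MeasureTheory Set Filter Topology

namespace NUMF

noncomputable section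

/-- `L^` -/
def Lh (k : ℝ) : ℝ := 2 * Real.pi * ((2 * ck1 k - 1) / (k * sk k))

/-- `U₊^` -/
def Uh (k : ℝ) : ℝ := 2 * Real.pi * ((ck1 k - 1) * (2 * ck1 k - 1) * (2 * ck1 k + 1) ^ 2 / (k * sk k))

lemma one_le_ck1 (k : ℝ) : 1 ≤ ck1 k := Real.one_le_cosh _

lemma one_lt_ck1 {k : ℝ} (hk : k ≠ 0) : 1 < ck1 k := by
  unfold ck1
  exact Real.one_lt_cosh.2 (mul_ne_zero l_pos.ne' hk)

lemma ksk_pos {k : ℝ} (hk : k ≠ 0) : 0 < k * sk k := by
  have hpi := Real.pi_pos
  unfold sk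
  rcases lt_or_gt_of_ne hk with h1 | h1
  · have h2 : Real.sinh (Real.pi / 2 * k) < 0 := by
      rw [Real.sinh_neg_iff]
      exact mul_neg_of_pos_of_neg (by positivity) h1
    exact mul_pos_of_neg_of_neg h1 h2
  · exact mul_pos h1 (Real.sinh_pos_iff.2 (by positivity))

lemma Lh_pos {k : ℝ} (hk : k ≠ 0) : 0 < Lh k := by
  have hpi := Real.pi_pos
  have h1 := one_le_ck1 k
  have h2 := ksk_pos hk
  have h3 : 0 < 2 * ck1 k - 1 := by linarith
  unfold Lh
  positivity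

lemma Uh_pos {k : ℝ} (hk : k ≠ 0) : 0 < Uh k := by
  have hpi := Real.pi_pos
  have h1 := one_lt_ck1 hk
  have h2 := ksk_pos hk
  have h3 : 0 < 2 * ck1 k - 1 := by linarith
  have h4 : 0 < ck1 k - 1 := by linarith
  have h5 : 0 < 2 * ck1 k + 1 := by linarith
  unfold Uh
  positivity

/-- `κ = Lh / Uh` -/
def kap (k : ℝ) : ℝ := Lh k / Uh k

lemma kap_eq {k : ℝ} (hk : k ≠ 0) : kap k = 1 / ((ck1 k - 1) * (2 * ck1 k + 1) ^ 2) := by
  have hpi := Real.pi_pos
  have h1 := one_lt_ck1 hk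
  have h2 := ksk_pos hk
  have h3 : 0 < 2 * ck1 k - 1 := by linarith
  have h4 : 0 < ck1 k - 1 := by linarith
  have h5 : 0 < 2 * ck1 k + 1 := by linarith
  unfold kap Lh Uh
  have h6 : k ≠ 0 := hk
  have h7 : sk k ≠ 0 := right_ne_zero_of_mul h2.ne'
  field_simp

lemma kap_pos {k : ℝ} (hk : k ≠ 0) : 0 < kap k := div_pos (Lh_pos hk) (Uh_pos hk)

/-- `1 + 2κ = coth² (3 l k / 2)` -/
lemma one_add_kap {k : ℝ} (hk : 0 < k) :
    Real.log (1 + 2 * kap k) = ell 0 (3 * l * k) - ell Real.pi (3 * l * k) := by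
  have hl := l_pos
  have hy : 0 < 3 * l * k := by positivity
  have e0 := log_two_cosh_add 0 hy
  have e1 := log_two_cosh_add Real.pi hy
  rw [Real.cos_zero, mul_one] at e0
  rw [Real.cos_pi, mul_neg, mul_one, ← sub_eq_add_neg] at e1
  have c3 := cosh3 k
  have h1 := one_lt_ck1 hk.ne'
  have h4 : 0 < ck1 k - 1 := by linarith
  have h5 : 0 < 2 * ck1 k + 1 := by linarith
  have f1 : 2 * Real.cosh (3 * l * k) - 2 = 2 * ((ck1 k - 1) * (2 * ck1 k + 1) ^ 2) := by
    rw [c3]; ring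
  have f2 : 2 * Real.cosh (3 * l * k) + 2 = 2 * ((ck1 k - 1) * (2 * ck1 k + 1) ^ 2) * (1 + 2 * kap k) := by
    rw [kap_eq hk.ne', c3]
    field_simp
    ring
  have p1 : 0 < 2 * ((ck1 k - 1) * (2 * ck1 k + 1) ^ 2) := by positivity
  have p2 : 0 < 1 + 2 * kap k := by have := kap_pos hk.ne'; linarith
  rw [f2, Real.log_mul p1.ne' p2.ne'] at e0
  rw [f1] at e1
  linarith

theorem log_kap : IntegrableOn (fun k => Real.log (1 + 2 * kap k)) (Ioi 0) ∧
    ∫ k in Ioi (0:ℝ), Real.log (1 + 2 * kap k) = 4 * Real.pi / 3 := by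
  have hl := l_pos
  have hpi := Real.pi_pos
  have h3l : (0:ℝ) < 3 * l := by positivity
  have hi : ∀ a : ℝ, IntegrableOn (fun k => ell a (3 * l * k)) (Ioi 0) := by
    intro a
    exact (integrableOn_Ioi_comp_mul_left_iff (ell a) 0 (a := 3 * l) h3l).2 (by
      simpa using ell_integrable a)
  have hv : ∀ a : ℝ, ∫ k in Ioi (0:ℝ), ell a (3 * l * k) = (3 * l)⁻¹ * L a := by
    intro a
    have := integral_comp_mul_left_Ioi (fun s => ell a s) (0:ℝ) (b := 3 * l) h3l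
    rw [this, mul_zero, smul_eq_mul]
    rfl
  have hE : EqOn (fun k => ell 0 (3 * l * k) - ell Real.pi (3 * l * k))
      (fun k => Real.log (1 + 2 * kap k)) (Ioi 0) := fun k hk => (one_add_kap hk).symm
  refine ⟨IntegrableOn.congr_fun ((hi 0).sub (hi Real.pi)) hE measurableSet_Ioi, ?_⟩
  have b1 := integral_sub (hi 0) (hi Real.pi)
  rw [← setIntegral_congr_fun measurableSet_Ioi hE, b1, hv, hv, L_eq (by rw [abs_zero]; positivity),
    L_eq (by rw [abs_of_pos hpi])]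
  unfold l
  field_simp
  ring

/-! ### the smooth cutoff -/

/-- smooth, even, `0` for `|k| ≤ 1/(n+1)` and for `k² ≥ n + 2`, tends to `1` -/
def cut (n : ℕ) (k : ℝ) : ℝ := Real.smoothTransition ((n + 1) ^ 2 * k ^ 2 - 1) *
  Real.smoothTransition (n + 2 - k ^ 2)

lemma cut_nonneg (n : ℕ) (k : ℝ) : 0 ≤ cut n k :=
  mul_nonneg (Real.smoothTransition.nonneg _) (Real.smoothTransition.nonneg _)

lemma cut_le_one (n : ℕ) (k : ℝ) : cut n k ≤ 1 :=
  mul_le_one₀ (Real.smoothTransition.le_one _) (Real.smoothTransition.nonneg _)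
    (Real.smoothTransition.le_one _)

lemma cut_neg (n : ℕ) (k : ℝ) : cut n (-k) = cut n k := by
  unfold cut
  rw [neg_sq]

lemma cut_smooth (n : ℕ) : ContDiff ℝ ((⊤ : ℕ∞) : WithTop ℕ∞) (cut n) := by
  unfold cut
  refine ContDiff.mul ?_ ?_
  · exact Real.smoothTransition.contDiff.comp (by fun_prop)
  · exact Real.smoothTransition.contDiff.comp (by fun_prop)

lemma cut_zero_small {n : ℕ} {k : ℝ} (h : |k| ≤ 1 / (n + 1)) : cut n k = 0 := by
  unfold cut
  rw [Real.smoothTransition.zero_of_nonpos, zero_mul]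
  have hn : (0:ℝ) < n + 1 := by positivity
  have h1 : ((n:ℝ) + 1) ^ 2 * k ^ 2 ≤ 1 := by
    rw [← mul_pow, ← sq_abs, abs_mul, abs_of_pos hn]
    have h2 : ((n:ℝ) + 1) * |k| ≤ 1 := by
      calc ((n:ℝ) + 1) * |k| ≤ (n + 1) * (1 / (n + 1)) := by gcongr
        _ = 1 := by field_simp
    have h3 : 0 ≤ ((n:ℝ) + 1) * |k| := by positivity
    nlinarith
  linarith

lemma cut_zero_large {n : ℕ} {k : ℝ} (h : (n:ℝ) + 2 ≤ |k|) : cut n k = 0 := by
  unfold cut
  rw [Real.smoothTransition.zero_of_nonpos (x := (n:ℝ) + 2 - k ^ 2), mul_zero]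
  have hn : (0:ℝ) ≤ n := Nat.cast_nonneg n
  have h1 : ((n:ℝ) + 2) ^ 2 ≤ k ^ 2 := by
    rw [← sq_abs k]
    gcongr
  nlinarith

lemma cut_tendsto {k : ℝ} (hk : k ≠ 0) : Tendsto (fun n => cut n k) atTop (𝓝 1) := by
  have h1 : ∀ᶠ n : ℕ in atTop, cut n k = 1 := by
    have h2 : ∀ᶠ n : ℕ in atTop, 2 / k ^ 2 ≤ (n:ℝ) := tendsto_natCast_atTop_atTop.eventually_ge_atTop _
    have h3 : ∀ᶠ n : ℕ in atTop, k ^ 2 ≤ (n:ℝ) := tendsto_natCast_atTop_atTop.eventually_ge_atTop _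
    filter_upwards [h2, h3] with n h4 h5
    unfold cut
    have hk2 : 0 < k ^ 2 := by positivity
    rw [div_le_iff₀ hk2] at h4
    have hn : (0:ℝ) ≤ n := Nat.cast_nonneg n
    rw [Real.smoothTransition.one_of_one_le, Real.smoothTransition.one_of_one_le, mul_one]
    · linarith
    · nlinarith
  exact tendsto_const_nhds.congr' (h1.mono fun n h => h.symm)

/-- the profile -/
def prof (n : ℕ) (k : ℝ) : ℝ := cut n k * √(Lh k)

lemma ck1_neg (k : ℝ) : ck1 (-k) = ck1 k := by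
  unfold ck1
  rw [mul_neg, Real.cosh_neg]

lemma ksk_neg (k : ℝ) : -k * sk (-k) = k * sk k := by
  unfold sk
  rw [mul_neg, Real.sinh_neg]
  ring

lemma Lh_neg (k : ℝ) : Lh (-k) = Lh k := by
  unfold Lh
  rw [ck1_neg, ksk_neg]

lemma Uh_neg (k : ℝ) : Uh (-k) = Uh k := by
  unfold Uh
  rw [ck1_neg, ksk_neg]

lemma prof_nonneg (n : ℕ) (k : ℝ) : 0 ≤ prof n k := mul_nonneg (cut_nonneg n k) (Real.sqrt_nonneg _)

lemma prof_neg (n : ℕ) (k : ℝ) : prof n (-k) = prof n k := by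
  unfold prof
  rw [cut_neg, Lh_neg]

lemma prof_zero_small {n : ℕ} {k : ℝ} (h : |k| ≤ 1 / (n + 1)) : prof n k = 0 := by
  unfold prof
  rw [cut_zero_small h, zero_mul]

lemma prof_zero_large {n : ℕ} {k : ℝ} (h : (n:ℝ) + 2 ≤ |k|) : prof n k = 0 := by
  unfold prof
  rw [cut_zero_large h, zero_mul]

lemma prof_sq (n : ℕ) {k : ℝ} (hk : k ≠ 0) : prof n k ^ 2 = cut n k ^ 2 * Lh k := by
  unfold prof
  rw [mul_pow, Real.sq_sqrt (Lh_pos hk).le]

lemma prof_sq_le (n : ℕ) {k : ℝ} (hk : k ≠ 0) : prof n k ^ 2 ≤ Lh k := by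
  rw [prof_sq n hk]
  have h1 := cut_nonneg n k
  have h2 := cut_le_one n k
  have h3 := Lh_pos hk
  have h4 : cut n k ^ 2 ≤ 1 := by nlinarith
  nlinarith

lemma prof_smooth (n : ℕ) : ContDiff ℝ ((⊤ : ℕ∞) : WithTop ℕ∞) (prof n) := by
  rw [contDiff_iff_contDiffAt]
  intro k
  by_cases hk : k = 0
  · have h1 : prof n =ᶠ[𝓝 k] fun _ => 0 := by
      rw [hk]
      have h2 : ∀ᶠ x : ℝ in 𝓝 0, |x| < 1 / ((n:ℝ) + 1) := by
        have h3 : Tendsto (fun x : ℝ => |x|) (𝓝 0) (𝓝 0) := by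
          simpa using (continuous_abs.tendsto (0:ℝ))
        exact h3.eventually (gt_mem_nhds (by positivity))
      filter_upwards [h2] with x hx
      exact prof_zero_small hx.le
    exact contDiffAt_const.congr_of_eventuallyEq h1
  · unfold prof
    refine ContDiffAt.mul (cut_smooth n).contDiffAt ?_
    refine ContDiffAt.sqrt ?_ (Lh_pos hk).ne'
    unfold Lh ck1 sk
    refine ContDiffAt.mul contDiffAt_const ?_
    refine ContDiffAt.div ?_ ?_ (ksk_pos hk).ne'
    · have : ContDiff ℝ ((⊤ : ℕ∞) : WithTop ℕ∞) fun k : ℝ => 2 * Real.cosh (l * k) - 1 := by fun_prop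
      exact this.contDiffAt
    · have : ContDiff ℝ ((⊤ : ℕ∞) : WithTop ℕ∞) fun k : ℝ => k * Real.sinh (Real.pi / 2 * k) := by fun_prop
      exact this.contDiffAt

lemma prof_limit : Tendsto (fun n => ∫ k in Ioi (0:ℝ), Real.log (1 + 2 * (prof n k ^ 2 / Uh k))) atTop
    (𝓝 (4 * Real.pi / 3)) := by
  rw [← log_kap.2]
  have hval : ∀ (n : ℕ) {k : ℝ}, 0 < k → prof n k ^ 2 / Uh k = cut n k ^ 2 * kap k := by
    intro n k hk
    rw [prof_sq n hk.ne']
    unfold kap
    ring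
  refine tendsto_integral_of_dominated_convergence (fun k => Real.log (1 + 2 * kap k)) ?_ log_kap.1 ?_ ?_
  · intro n
    have h1 : Measurable fun k => Real.log (1 + 2 * (prof n k ^ 2 / Uh k)) := by
      have h2 : Measurable (prof n) := (prof_smooth n).continuous.measurable
      have h3 : Measurable Uh := by
        unfold Uh ck1
        have := sk_meas
        fun_prop
      fun_prop
    exact h1.aestronglyMeasurable
  · intro n
    filter_upwards [ae_restrict_mem measurableSet_Ioi] with k hk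
    have hk0 : (0:ℝ) < k := hk
    rw [hval n hk0]
    have h1 := kap_pos hk0.ne'
    have h2 := cut_nonneg n k
    have h3 := cut_le_one n k
    have h4 : cut n k ^ 2 * kap k ≤ kap k := by
      have : cut n k ^ 2 ≤ 1 := by nlinarith
      nlinarith
    have h5 : 0 ≤ cut n k ^ 2 * kap k := by positivity
    rw [Real.norm_eq_abs, abs_of_nonneg (Real.log_nonneg (by linarith))]
    exact Real.log_le_log (by linarith) (by linarith)
  · filter_upwards [ae_restrict_mem measurableSet_Ioi] with k hk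
    have hk0 : (0:ℝ) < k := hk
    have h1 := kap_pos hk0.ne'
    have h2 : Tendsto (fun n => 1 + 2 * (cut n k ^ 2 * kap k)) atTop (𝓝 (1 + 2 * (1 ^ 2 * kap k))) :=
      ((((cut_tendsto hk0.ne').pow 2).mul_const _).const_mul 2).const_add 1
    have h3 := h2.log (by positivity)
    rw [one_pow, one_mul] at h3
    refine h3.congr fun n => ?_
    rw [hval n hk0]

/-- **[4.5] (d)** -/
theorem exists_profile {ε : ℝ} (hε : 0 < ε) : ∃ (δ K : ℝ) (c : ℝ → ℝ), 0 < δ ∧ δ < K ∧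
    ContDiff ℝ ((⊤ : ℕ∞) : WithTop ℕ∞) c ∧ (∀ k, 0 ≤ c k) ∧ (∀ k, c (-k) = c k) ∧ (∀ k, |k| ≤ δ → c k = 0) ∧
    (∀ k, K ≤ |k| → c k = 0) ∧ (∀ k, k ≠ 0 → c k ^ 2 ≤ Lh k) ∧
    IntegrableOn (fun k => Real.log (1 + 2 * (c k ^ 2 / Uh k))) (Ioi 0) ∧
    4 * Real.pi / 3 * (1 - ε) ≤ ∫ k in Ioi (0:ℝ), Real.log (1 + 2 * (c k ^ 2 / Uh k)) := by
  have hpi := Real.pi_pos
  have h1 : 4 * Real.pi / 3 * (1 - ε) < 4 * Real.pi / 3 := by
    have : 0 < 4 * Real.pi / 3 := by positivity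
    nlinarith
  obtain ⟨n, hn⟩ := (prof_limit.eventually (lt_mem_nhds h1)).exists
  have hn0 : (0:ℝ) ≤ n := Nat.cast_nonneg n
  refine ⟨1 / (n + 1), n + 2, prof n, by positivity, ?_, prof_smooth n, prof_nonneg n, prof_neg n,
    fun k hk => prof_zero_small hk, fun k hk => prof_zero_large hk, fun k hk => prof_sq_le n hk, ?_, hn.le⟩
  · rw [div_lt_iff₀ (by positivity)]
    nlinarith
  · refine Integrable.mono' log_kap.1 ?_ ?_
    · have h1 : Measurable fun k => Real.log (1 + 2 * (prof n k ^ 2 / Uh k)) := by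
        have h2 : Measurable (prof n) := (prof_smooth n).continuous.measurable
        have h3 : Measurable Uh := by
          unfold Uh ck1
          have := sk_meas
          fun_prop
        fun_prop
      exact h1.aestronglyMeasurable
    · filter_upwards [ae_restrict_mem measurableSet_Ioi] with k hk
      have hk0 : (0:ℝ) < k := hk
      have e : prof n k ^ 2 / Uh k = cut n k ^ 2 * kap k := by
        rw [prof_sq n hk0.ne']
        unfold kap
        ring
      rw [e]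
      have h1 := kap_pos hk0.ne'
      have h2 := cut_nonneg n k
      have h3 := cut_le_one n k
      have h4 : cut n k ^ 2 * kap k ≤ kap k := by
        have : cut n k ^ 2 ≤ 1 := by nlinarith
        nlinarith
      have h5 : 0 ≤ cut n k ^ 2 * kap k := by positivity
      rw [Real.norm_eq_abs, abs_of_nonneg (Real.log_nonneg (by linarith))]
      exact Real.log_le_log (by linarith) (by linarith)

end

end NUMF
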