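import Mathlib

/-!
# Mean field density of the quanta gas (nu = 3/4)

`P t = (16 / (√3 π)) cosh (8t/3) / (4 cosh² (8t/3) - 1)` is the cloud of quanta of one row on the
line `A`; `G` is its distribution function.
-/

set_option autoImplicit false

open MeasureTheory Set Filter Topology

namespace NUMF

noncomputable section

/-- `l = π / 8` -/
def l : ℝ := Real.pi / 8

/-- `cosh (8 t / 3)` -/
def ch (t : ℝ) : ℝ := Real.cosh (8 / 3 * t)

/-- the density of the quanta of one row -/
def P (t : ℝ) : ℝ := 16 / (√3 * Real.pi) * (ch t / (4 * ch t ^ 2 - 1))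

/-- the distribution function of `P` -/
def G (t : ℝ) : ℝ := 1 / Real.pi * Real.arctan (2 / √3 * Real.sinh (8 / 3 * t))

lemma l_pos : 0 < l := by unfold l; positivity

lemma one_le_ch (t : ℝ) : 1 ≤ ch t := Real.one_le_cosh _

lemma ch_pos (t : ℝ) : 0 < ch t := lt_of_lt_of_le one_pos (one_le_ch t)

lemma den_pos (t : ℝ) : 0 < 4 * ch t ^ 2 - 1 := by
  have := one_le_ch t
  nlinarith

lemma P_pos (t : ℝ) : 0 < P t := by
  have h1 := ch_pos t
  have h2 := den_pos t
  have h3 := Real.pi_pos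
  unfold P
  positivity

lemma ch_neg (t : ℝ) : ch (-t) = ch t := by
  unfold ch
  rw [mul_neg, Real.cosh_neg]

lemma P_neg (t : ℝ) : P (-t) = P t := by
  unfold P
  rw [ch_neg]

lemma ch_cont : Continuous ch := Real.continuous_cosh.comp (continuous_const.mul continuous_id)

lemma P_cont : Continuous P := by
  unfold P
  refine continuous_const.mul (ch_cont.div ?_ fun t => (den_pos t).ne')
  exact (continuous_const.mul (ch_cont.pow 2)).sub continuous_const

lemma sq3 : √3 * √3 = 3 := Real.mul_self_sqrt (by norm_num)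

lemma sq3_pos : 0 < √3 := Real.sqrt_pos.2 (by norm_num)

/-- two partial fractions -/
lemma P_eq (t : ℝ) : P t = 4 / (√3 * Real.pi) * (1 / (2 * ch t - 1) + 1 / (2 * ch t + 1)) := by
  have h1 := one_le_ch t
  have h2 : 2 * ch t - 1 ≠ 0 := by linarith
  have h3 : 2 * ch t + 1 ≠ 0 := by linarith
  have h4 := (den_pos t).ne'
  have h5 := Real.pi_ne_zero
  have h6 := sq3_pos.ne'
  unfold P
  have h7 : 4 * ch t ^ 2 - 1 = (2 * ch t - 1) * (2 * ch t + 1) := by ring
  have h8 : 1 / (2 * ch t - 1) + 1 / (2 * ch t + 1) = 4 * ch t / (4 * ch t ^ 2 - 1) := by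
    rw [h7, div_add_div _ _ h2 h3]
    congr 1
    ring
  rw [h8]
  ring

lemma hasDerivAt_G (t : ℝ) : HasDerivAt G (P t) t := by
  have h0 : HasDerivAt (fun t : ℝ => 8 / 3 * t) (8 / 3) t := by
    simpa using (hasDerivAt_id t).const_mul (8 / 3)
  have h1 : HasDerivAt (fun t : ℝ => 2 / √3 * Real.sinh (8 / 3 * t))
      (2 / √3 * (Real.cosh (8 / 3 * t) * (8 / 3))) t := (h0.sinh).const_mul _
  have h2 := (h1.arctan).const_mul (1 / Real.pi)
  refine h2.congr_deriv ?_
  unfold P
  have e : Real.sinh (8 / 3 * t) ^ 2 = ch t ^ 2 - 1 := by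
    have := Real.cosh_sq (8 / 3 * t)
    unfold ch
    linarith
  have e2 : 1 + (2 / √3 * Real.sinh (8 / 3 * t)) ^ 2 = (4 * ch t ^ 2 - 1) / 3 := by
    rw [mul_pow, div_pow, Real.sq_sqrt (by norm_num), e]
    ring
  rw [e2]
  have h4 := (den_pos t).ne'
  have h5 := Real.pi_ne_zero
  have h6 := sq3_pos.ne'
  have e3 : Real.cosh (8 / 3 * t) = ch t := rfl
  rw [e3]
  field_simp
  ring

lemma sinh_top : Tendsto Real.sinh atTop atTop := by
  refine tendsto_atTop_mono' atTop ?_ tendsto_id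
  filter_upwards [eventually_ge_atTop (0:ℝ)] with y hy
  exact Real.self_le_sinh_iff.2 hy

lemma G_neg (t : ℝ) : G (-t) = - G t := by
  unfold G
  rw [mul_neg, Real.sinh_neg, mul_neg, Real.arctan_neg, mul_neg]

lemma G_top : Tendsto G atTop (𝓝 (1 / 2)) := by
  have h1 : Tendsto (fun t : ℝ => 2 / √3 * Real.sinh (8 / 3 * t)) atTop atTop := by
    refine (sinh_top.comp ?_).const_mul_atTop (div_pos two_pos sq3_pos)
    exact tendsto_id.const_mul_atTop (by norm_num)
  have h2 : Tendsto (fun t : ℝ => Real.arctan (2 / √3 * Real.sinh (8 / 3 * t))) atTop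
      (𝓝 (Real.pi / 2)) :=
    (tendsto_nhds_of_tendsto_nhdsWithin Real.tendsto_arctan_atTop).comp h1
  have h3 := h2.const_mul (1 / Real.pi)
  have h4 : 1 / Real.pi * (Real.pi / 2) = 1 / 2 := by
    have := Real.pi_ne_zero
    field_simp
  rw [h4] at h3
  exact h3

lemma G_bot : Tendsto G atBot (𝓝 (-(1 / 2))) := by
  have h1 : Tendsto (fun t => - G (-t)) atBot (𝓝 (-(1 / 2))) :=
    (G_top.comp tendsto_neg_atBot_atTop).neg
  refine h1.congr fun t => ?_
  rw [G_neg, neg_neg]

lemma G_strictMono : StrictMono G :=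
  strictMono_of_deriv_pos fun t => by rw [(hasDerivAt_G t).deriv]; exact P_pos t

/-- two sided exponential bounds -/
lemma P_le (t : ℝ) : P t ≤ 32 / (3 * √3 * Real.pi) * Real.exp (-(8 / 3) * |t|) := by
  have h1 := one_le_ch t
  have h2 := den_pos t
  have h4 : ch t / (4 * ch t ^ 2 - 1) ≤ 1 / (3 * ch t) := by
    rw [div_le_div_iff₀ h2 (by linarith)]
    nlinarith
  have h5 : Real.exp (8 / 3 * |t|) / 2 ≤ ch t := by
    have e : ch t = Real.cosh (8 / 3 * |t|) := by
      unfold ch
      rw [← Real.cosh_abs (8 / 3 * t), abs_mul, abs_of_pos (by norm_num : (0:ℝ) < 8 / 3)]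
    rw [e, Real.cosh_eq]
    have := Real.exp_pos (-(8 / 3 * |t|))
    linarith
  have h6 : 1 / (3 * ch t) ≤ 2 / 3 * Real.exp (-(8 / 3) * |t|) := by
    rw [show -(8 / 3) * |t| = -(8 / 3 * |t|) by ring, Real.exp_neg, div_le_iff₀ (by linarith)]
    have h7 := Real.exp_pos (8 / 3 * |t|)
    have h8 : 1 ≤ (Real.exp (8 / 3 * |t|))⁻¹ * (2 * ch t) := by
      rw [inv_mul_eq_div, le_div_iff₀ h7]
      linarith
    linarith
  have h7 : 0 < √3 * Real.pi := mul_pos sq3_pos Real.pi_pos
  unfold P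
  calc 16 / (√3 * Real.pi) * (ch t / (4 * ch t ^ 2 - 1))
      ≤ 16 / (√3 * Real.pi) * (2 / 3 * Real.exp (-(8 / 3) * |t|)) := by
        gcongr
        exact h4.trans h6
    _ = _ := by
        have := Real.pi_ne_zero
        have := sq3_pos.ne'
        field_simp
        ring

lemma le_P (t : ℝ) : 4 / (√3 * Real.pi) * Real.exp (-(8 / 3) * |t|) ≤ P t := by
  have h1 := one_le_ch t
  have h2 := den_pos t
  have h4 : 1 / (4 * ch t) ≤ ch t / (4 * ch t ^ 2 - 1) := by
    rw [div_le_div_iff₀ (by linarith) h2]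
    nlinarith
  have h5 : ch t ≤ Real.exp (8 / 3 * |t|) := by
    have e : ch t = Real.cosh (8 / 3 * |t|) := by
      unfold ch
      rw [← Real.cosh_abs (8 / 3 * t), abs_mul, abs_of_pos (by norm_num : (0:ℝ) < 8 / 3)]
    rw [e, Real.cosh_eq]
    have h9 : Real.exp (-(8 / 3 * |t|)) ≤ Real.exp (8 / 3 * |t|) :=
      Real.exp_le_exp.2 (by have := abs_nonneg t; linarith)
    linarith
  have h6 : 1 / 4 * Real.exp (-(8 / 3) * |t|) ≤ 1 / (4 * ch t) := by
    rw [show -(8 / 3) * |t| = -(8 / 3 * |t|) by ring, Real.exp_neg, le_div_iff₀ (by linarith)]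
    have h7 := Real.exp_pos (8 / 3 * |t|)
    have h8 : (Real.exp (8 / 3 * |t|))⁻¹ * ch t ≤ 1 := by
      rw [inv_mul_eq_div, div_le_one h7]
      exact h5
    linarith
  have h7 : 0 < √3 * Real.pi := mul_pos sq3_pos Real.pi_pos
  unfold P
  calc 4 / (√3 * Real.pi) * Real.exp (-(8 / 3) * |t|)
      = 16 / (√3 * Real.pi) * (1 / 4 * Real.exp (-(8 / 3) * |t|)) := by ring
    _ ≤ _ := by
        gcongr
        exact h6.trans h4

lemma int_exp_abs {b : ℝ} (hb : 0 < b) : Integrable fun y : ℝ => Real.exp (-b * |y|) := by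
  have h1 : IntegrableOn (fun y : ℝ => Real.exp (-b * |y|)) (Ioi 0) := by
    refine (integrableOn_exp_mul_Ioi (a := -b) (by linarith) 0).congr_fun ?_ measurableSet_Ioi
    intro y hy
    simp only
    rw [abs_of_pos hy]
  have h2 : IntegrableOn (fun y : ℝ => Real.exp (-b * |y|)) (Iic 0) := by
    refine (integrableOn_exp_mul_Iic (a := b) hb 0).congr_fun ?_ measurableSet_Iic
    intro y hy
    simp only
    rw [abs_of_nonpos hy]
    congr 1; ring
  have h3 := h2.union h1
  rwa [Iic_union_Ioi, integrableOn_univ] at h3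

/-- integrability against functions with growth `exp (c |t|)`, `c < 8/3` -/
lemma P_integrable_mul {f : ℝ → ℝ} {A c : ℝ} (hc : c < 8 / 3) (hf : AEStronglyMeasurable f)
    (hb : ∀ t, |f t| ≤ A * Real.exp (c * |t|)) : Integrable fun t => P t * f t := by
  have h7 : 0 < 3 * √3 * Real.pi := mul_pos (mul_pos three_pos sq3_pos) Real.pi_pos
  refine ((int_exp_abs (b := 8 / 3 - c) (by linarith)).const_mul
    (32 / (3 * √3 * Real.pi) * A)).mono' (P_cont.aestronglyMeasurable.mul hf)
    (Eventually.of_forall fun t => ?_)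
  rw [Real.norm_eq_abs, abs_mul, abs_of_pos (P_pos t)]
  calc P t * |f t| ≤ (32 / (3 * √3 * Real.pi) * Real.exp (-(8 / 3) * |t|)) *
        (A * Real.exp (c * |t|)) := by
        gcongr
        · exact P_le t
        · exact hb t
    _ = 32 / (3 * √3 * Real.pi) * A * (Real.exp (-(8 / 3) * |t|) * Real.exp (c * |t|)) := by ring
    _ = _ := by rw [← Real.exp_add]; congr 2; ring

lemma P_integrable : Integrable P := by
  have h := P_integrable_mul (f := fun _ => 1) (A := 1) (c := 0) (by norm_num)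
    aestronglyMeasurable_const (by intro t; simp)
  simpa using h

theorem integral_P : ∫ t, P t = 1 := by
  rw [integral_of_hasDerivAt_of_tendsto hasDerivAt_G P_integrable G_bot G_top]
  norm_num

end

end NUMF
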