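import Pool.Agent.NUP.MF.Rule

/-!
# The potentials `h x y = log (cosh 2x + cos 2y)` and their averages against `P`

`H x y = ∫ P(s) h(x - s, y) ds`.  Main theorem `conv_h`:
`H x (y + l) + H x (y - l) - H x y = h x y` for `|y| ≤ 3 l`.
-/

set_option autoImplicit false

open MeasureTheory Set Filter Topology Complex

namespace NUMF

noncomputable section

/-- `log (cosh 2x + cos 2y) = log (2 |cosh (x + i y)|²)` -/
def h (x y : ℝ) : ℝ := Real.log (Real.cosh (2 * x) + Real.cos (2 * y))

/-- the average of `h` against the density `P` -/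
def H (x y : ℝ) : ℝ := ∫ s, P s * h (x - s) y

lemma h_neg_left (x y : ℝ) : h (-x) y = h x y := by
  unfold h
  rw [mul_neg, Real.cosh_neg]

lemma h_neg_right (x y : ℝ) : h x (-y) = h x y := by
  unfold h
  rw [mul_neg, Real.cos_neg]

lemma h_per (x y : ℝ) : h x (y + 8 * l) = h x y := by
  unfold h l
  rw [show 2 * (y + 8 * (Real.pi / 8)) = 2 * y + 2 * Real.pi by ring, Real.cos_add_two_pi]

lemma H_neg_right (x y : ℝ) : H x (-y) = H x y := by
  unfold H
  simp_rw [h_neg_right]

lemma H_per (x y : ℝ) : H x (y + 8 * l) = H x y := by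
  unfold H
  simp_rw [h_per]

lemma cosh_two (x : ℝ) : Real.cosh (2 * x) = 1 + 2 * Real.sinh x ^ 2 := by
  rw [Real.cosh_two_mul, Real.cosh_sq]
  ring

lemma sq_le_sinh_sq (x : ℝ) : x ^ 2 ≤ Real.sinh x ^ 2 := by
  have h1 : |x| ≤ |Real.sinh x| := by
    rw [Real.abs_sinh]
    exact Real.self_le_sinh_iff.2 (abs_nonneg x)
  exact sq_le_sq.2 h1

lemma arg_ge (x y : ℝ) : 2 * x ^ 2 ≤ Real.cosh (2 * x) + Real.cos (2 * y) := by
  have h1 := sq_le_sinh_sq x
  have h2 := Real.neg_one_le_cos (2 * y)
  rw [cosh_two]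
  linarith

lemma arg_le (x y : ℝ) : Real.cosh (2 * x) + Real.cos (2 * y) ≤ 2 * Real.exp (2 * |x|) := by
  have h1 : Real.cosh (2 * x) ≤ Real.exp (2 * |x|) := by
    rw [← Real.cosh_abs (2 * x), abs_mul, abs_two, Real.cosh_eq]
    have : Real.exp (-(2 * |x|)) ≤ Real.exp (2 * |x|) :=
      Real.exp_le_exp.2 (by have := abs_nonneg x; linarith)
    linarith
  have h2 := Real.cos_le_one (2 * y)
  have h3 : 1 ≤ Real.exp (2 * |x|) := Real.one_le_exp (by positivity)
  linarith

/-- `|h x y| ≤ 2 |x| + 2 |log |x|| + 1` -/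
lemma abs_h_le {x : ℝ} (hx : x ≠ 0) (y : ℝ) : |h x y| ≤ 2 * |x| + 2 * |Real.log x| + 1 := by
  have hx2 : 0 < 2 * x ^ 2 := by positivity
  have h1 := arg_ge x y
  have h2 := arg_le x y
  have l2 : 0 < Real.log 2 := Real.log_pos (by norm_num)
  have l2' : Real.log 2 ≤ 1 := by
    have := Real.log_two_lt_d9
    linarith
  have hu : h x y ≤ Real.log 2 + 2 * |x| := by
    unfold h
    have := Real.log_le_log (lt_of_lt_of_le hx2 h1) h2
    rwa [Real.log_mul two_ne_zero (Real.exp_pos _).ne', Real.log_exp] at this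
  have hlo : Real.log 2 + 2 * Real.log x ≤ h x y := by
    unfold h
    have := Real.log_le_log hx2 h1
    rw [Real.log_mul two_ne_zero (by positivity), Real.log_pow] at this
    push_cast at this
    linarith
  rw [abs_le]
  have h3 := neg_abs_le (Real.log x)
  have h4 := abs_nonneg (Real.log x)
  have h5 := abs_nonneg x
  constructor <;> linarith

lemma int_exp_log {b : ℝ} (hb : 0 < b) : Integrable fun u : ℝ => Real.exp (-b * |u|) * |Real.log u| := by
  have hm : Measurable fun u : ℝ => Real.exp (-b * |u|) * |Real.log u| := by fun_prop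
  have h1 : IntegrableOn (fun u : ℝ => Real.exp (-b * |u|) * |Real.log u|) (Icc (-1) 1) := by
    have h2 : IntervalIntegrable Real.log volume (-1) 1 := intervalIntegral.intervalIntegrable_log'
    have h3 : IntegrableOn Real.log (Icc (-1) 1) := by
      rw [integrableOn_Icc_iff_integrableOn_Ioc]
      exact (intervalIntegrable_iff_integrableOn_Ioc_of_le (by norm_num)).1 h2
    refine Integrable.mono' h3.norm hm.aestronglyMeasurable.restrict (Eventually.of_forall fun u => ?_)
    rw [Real.norm_eq_abs, Real.norm_eq_abs, abs_mul, Real.abs_exp, abs_abs]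
    refine mul_le_of_le_one_left (abs_nonneg _) ?_
    rw [Real.exp_le_one_iff]
    have := abs_nonneg u
    nlinarith
  have h2 : IntegrableOn (fun u : ℝ => Real.exp (-b * |u|) * |Real.log u|) (Icc (-1) 1)ᶜ := by
    have h3 : Integrable fun u : ℝ => 2 / b * Real.exp (-(b / 2) * |u|) :=
      (int_exp_abs (half_pos hb)).const_mul _
    refine Integrable.mono' h3.integrableOn hm.aestronglyMeasurable.restrict ?_
    filter_upwards [ae_restrict_mem measurableSet_Icc.compl] with u hu
    have hu1 : 1 ≤ |u| := by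
      by_contra hc
      exact hu (abs_le.1 (not_le.1 hc).le)
    have hu0 : 0 < |u| := by linarith
    rw [Real.norm_eq_abs, abs_mul, Real.abs_exp, abs_abs]
    have e1 : |Real.log u| ≤ |u| := by
      rw [← Real.log_abs, abs_of_nonneg (Real.log_nonneg hu1)]
      have := Real.log_le_sub_one_of_pos hu0
      linarith
    have e2 : |u| ≤ 2 / b * Real.exp (b / 2 * |u|) := by
      have h4 := Real.add_one_le_exp (b / 2 * |u|)
      have h5 : b / 2 * |u| ≤ Real.exp (b / 2 * |u|) := by linarith
      calc |u| = 2 / b * (b / 2 * |u|) := by field_simp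
        _ ≤ _ := by gcongr
    calc Real.exp (-b * |u|) * |Real.log u| ≤ Real.exp (-b * |u|) * (2 / b * Real.exp (b / 2 * |u|)) := by
          gcongr
          exact e1.trans e2
      _ = 2 / b * (Real.exp (-b * |u|) * Real.exp (b / 2 * |u|)) := by ring
      _ = _ := by rw [← Real.exp_add]; congr 2; ring
  have h3 := h1.union h2
  rwa [union_compl_self, integrableOn_univ] at h3

/-- an integrable majorant of `s ↦ P s * h (x - s) y`, the same for all `y` -/
def maj (x s : ℝ) : ℝ := P s * (2 * |x - s| + 2 * |Real.log (x - s)| + 1)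

lemma maj_integrable (x : ℝ) : Integrable (maj x) := by
  have h1 : Integrable fun s : ℝ => P s * (2 * |x - s| + 1) := by
    refine P_integrable_mul (A := 2 * |x| + 3) (c := 1) (by norm_num)
      (Continuous.aestronglyMeasurable (by fun_prop)) fun s => ?_
    have h2 : |x - s| ≤ |x| + |s| := abs_sub _ _
    have h3 : |s| + 1 ≤ Real.exp (1 * |s|) := by
      rw [one_mul]
      exact Real.add_one_le_exp _
    have h4 := abs_nonneg x
    have h5 := abs_nonneg s
    rw [abs_of_nonneg (by positivity)]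
    have h6 : 1 ≤ Real.exp (1 * |s|) := by linarith
    nlinarith
  have h2 : Integrable fun s : ℝ => P s * (2 * |Real.log (x - s)|) := by
    have h3 := ((int_exp_log (b := 8 / 3) (by norm_num)).comp_sub_left x).const_mul
      (32 / (3 * √3 * Real.pi) * Real.exp (8 / 3 * |x|) * 2)
    refine h3.mono' ?_ (Eventually.of_forall fun s => ?_)
    · exact P_cont.aestronglyMeasurable.mul (Measurable.aestronglyMeasurable (by fun_prop))
    · rw [Real.norm_eq_abs, abs_mul, abs_of_pos (P_pos s), abs_mul, abs_two, abs_abs]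
      have h4 := P_le s
      have h5 : Real.exp (-(8 / 3) * |s|) ≤ Real.exp (8 / 3 * |x|) * Real.exp (-(8 / 3) * |x - s|) := by
        rw [← Real.exp_add]
        refine Real.exp_le_exp.2 ?_
        have h2 : |x - s| ≤ |x| + |s| := abs_sub _ _
        linarith
      have h7 : 0 < 3 * √3 * Real.pi := mul_pos (mul_pos three_pos sq3_pos) Real.pi_pos
      calc P s * (2 * |Real.log (x - s)|) ≤ (32 / (3 * √3 * Real.pi) *
            (Real.exp (8 / 3 * |x|) * Real.exp (-(8 / 3) * |x - s|))) * (2 * |Real.log (x - s)|) := by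
            gcongr
            exact h4.trans (by gcongr)
        _ = _ := by ring
  refine (h1.add h2).congr (Eventually.of_forall fun s => ?_)
  simp only [Pi.add_apply, maj]
  ring

lemma ae_ne (x : ℝ) : ∀ᵐ s : ℝ, x - s ≠ 0 := by
  have h1 : {s : ℝ | ¬ (x - s ≠ 0)} = {x} := by
    ext s
    simp [sub_eq_zero, eq_comm]
  rw [ae_iff, h1]
  simp

lemma h_meas (y : ℝ) : Measurable fun x => h x y := by
  unfold h
  fun_prop

lemma Ph_le {x s : ℝ} (hs : x - s ≠ 0) (y : ℝ) : ‖P s * h (x - s) y‖ ≤ maj x s := by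
  rw [Real.norm_eq_abs, abs_mul, abs_of_pos (P_pos s)]
  exact mul_le_mul_of_nonneg_left (abs_h_le hs y) (P_pos s).le

lemma Ph_meas (x y : ℝ) : AEStronglyMeasurable (fun s : ℝ => P s * h (x - s) y) :=
  P_cont.aestronglyMeasurable.mul
    (((h_meas y).comp (measurable_const.sub measurable_id)).aestronglyMeasurable)

lemma Ph_integrable (x y : ℝ) : Integrable fun s : ℝ => P s * h (x - s) y := by
  refine (maj_integrable x).mono' (Ph_meas x y) ?_
  filter_upwards [ae_ne x] with s hs
  exact Ph_le hs y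

lemma H_cont (x : ℝ) : Continuous fun y => H x y := by
  unfold H
  refine continuous_of_dominated (bound := maj x) (fun y => Ph_meas x y) ?_ (maj_integrable x) ?_
  · intro y
    filter_upwards [ae_ne x] with s hs
    exact Ph_le hs y
  · filter_upwards [ae_ne x] with s hs
    refine continuous_const.mul ?_
    unfold h
    refine Continuous.log (by fun_prop) fun y => ?_
    have h1 := arg_ge (x - s) y
    have h2 : 0 < 2 * (x - s) ^ 2 := by positivity
    exact (lt_of_lt_of_le h2 h1).ne'

/-! ### the analytic function -/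

/-- `2 log cosh z + log 2` -/
def F (z : ℂ) : ℂ := 2 * Complex.log (Complex.cosh z) + Real.log 2

lemma re_cosh (w : ℂ) : (Complex.cosh w).re = Real.cosh w.re * Real.cos w.im := by
  conv_lhs => rw [← Complex.re_add_im w]
  rw [Complex.cosh_add, Complex.cosh_mul_I, Complex.sinh_mul_I]
  simp [← Complex.ofReal_cosh, ← Complex.ofReal_sinh, ← Complex.ofReal_cos, ← Complex.ofReal_sin]

lemma two_norm_cosh_sq (w : ℂ) : 2 * ‖Complex.cosh w‖ ^ 2 = Real.cosh (2 * w.re) + Real.cos (2 * w.im) := by
  have h1 : Complex.cosh w = ((Real.cosh w.re * Real.cos w.im : ℝ) : ℂ) +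
      ((Real.sinh w.re * Real.sin w.im : ℝ) : ℂ) * I := by
    conv_lhs => rw [← Complex.re_add_im w]
    rw [Complex.cosh_add, Complex.cosh_mul_I, Complex.sinh_mul_I]
    push_cast
    ring
  have h2 : ‖Complex.cosh w‖ ^ 2 = (Real.cosh w.re * Real.cos w.im) ^ 2 +
      (Real.sinh w.re * Real.sin w.im) ^ 2 := by
    rw [h1, ← Complex.normSq_eq_norm_sq, Complex.normSq_add_mul_I]
  rw [h2, Real.cosh_two_mul, Real.cos_two_mul]
  have e1 := Real.cosh_sq w.re
  have e2 := Real.sin_sq_add_cos_sq w.im
  linear_combination (2 * Real.cos w.im ^ 2 - 1) * e1 + 2 * Real.sinh w.re ^ 2 * e2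

lemma cosh_slit {w : ℂ} (hw : |w.im| < Real.pi / 2) : Complex.cosh w ∈ slitPlane := by
  left
  rw [re_cosh]
  have h2 : 0 < Real.cos w.im := Real.cos_pos_of_mem_Ioo (by
    rw [abs_lt] at hw
    exact ⟨hw.1, hw.2⟩)
  have h3 := Real.cosh_pos w.re
  positivity

lemma F_diff {w : ℂ} (hw : |w.im| < Real.pi / 2) : DifferentiableAt ℂ F w := by
  unfold F
  refine DifferentiableAt.add_const _ (DifferentiableAt.const_mul ?_ _)
  exact (Complex.differentiable_cosh w).clog (cosh_slit hw)

lemma F_re {w : ℂ} (hw : |w.im| < Real.pi / 2) : (F w).re = h w.re w.im := by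
  have hn : Complex.cosh w ≠ 0 := cosh_ne hw
  have hn' : 0 < ‖Complex.cosh w‖ := norm_pos_iff.2 hn
  unfold F h
  rw [← two_norm_cosh_sq, Real.log_mul two_ne_zero (by positivity), Real.log_pow]
  rw [Complex.add_re, Complex.ofReal_re]
  have : (2 * Complex.log (Complex.cosh w)).re = 2 * (Complex.log (Complex.cosh w)).re := by simp
  rw [this, Complex.log_re]
  push_cast
  ring

lemma F_bound {w : ℂ} {b : ℝ} (hb : b < Real.pi / 2) (hw : |w.im| ≤ b) :
    ‖F w‖ ≤ 2 * |w.re| + (2 * |Real.log (Real.cos b)| + 2 * Real.pi + 1) := by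
  have hb0 : 0 ≤ b := (abs_nonneg _).trans hw
  have hcb : 0 < Real.cos b := Real.cos_pos_of_mem_Ioo ⟨by linarith, hb⟩
  have hc : Real.cos b ≤ Real.cos w.im := by
    rw [← Real.cos_abs w.im]
    exact Real.cos_le_cos_of_nonneg_of_le_pi (abs_nonneg _) (by linarith [Real.pi_pos]) hw
  have h1 : Real.cos b ≤ ‖Complex.cosh w‖ := by
    have e := Complex.abs_re_le_norm (Complex.cosh w)
    rw [re_cosh, abs_of_pos (mul_pos (Real.cosh_pos _) (by linarith))] at e
    have h2 := Real.one_le_cosh w.re
    nlinarith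
  have h2 : ‖Complex.cosh w‖ ≤ Real.exp |w.re| := by
    have e := two_norm_cosh_sq w
    have e2 := arg_le w.re w.im
    have e3 : ‖Complex.cosh w‖ ^ 2 ≤ Real.exp |w.re| ^ 2 := by
      rw [← Real.exp_nat_mul]
      push_cast
      linarith
    exact (pow_le_pow_iff_left₀ (norm_nonneg _) (Real.exp_pos _).le two_ne_zero).1 e3
  have h3 : |Real.log ‖Complex.cosh w‖| ≤ |w.re| + |Real.log (Real.cos b)| := by
    have hpos : 0 < ‖Complex.cosh w‖ := lt_of_lt_of_le hcb h1
    have a1 := Real.log_le_log hcb h1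
    have a2 := Real.log_le_log hpos h2
    rw [Real.log_exp] at a2
    rw [abs_le]
    have a3 := neg_abs_le (Real.log (Real.cos b))
    have a4 := abs_nonneg (Real.log (Real.cos b))
    have a5 := abs_nonneg w.re
    constructor <;> linarith
  have h4 : ‖Complex.log (Complex.cosh w)‖ ≤ |w.re| + |Real.log (Real.cos b)| + Real.pi := by
    have e := Complex.norm_le_abs_re_add_abs_im (Complex.log (Complex.cosh w))
    rw [Complex.log_re, Complex.log_im] at e
    have := Complex.abs_arg_le_pi (Complex.cosh w)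
    linarith
  have l2 : 0 < Real.log 2 := Real.log_pos (by norm_num)
  have l2' : Real.log 2 ≤ 1 := by
    have := Real.log_two_lt_d9
    linarith
  unfold F
  calc _ ≤ ‖2 * Complex.log (Complex.cosh w)‖ + ‖(Real.log 2 : ℂ)‖ := norm_add_le _ _
    _ ≤ _ := by
        rw [norm_mul, Complex.norm_ofNat, Complex.norm_real, Real.norm_eq_abs, abs_of_pos l2]
        linarith

theorem conv_lt (x : ℝ) {y : ℝ} (hy : |y| < 3 * l) :
    H x (y + l) + H x (y - l) - H x y = h x y := by
  have hl := l_pos
  have hl8 : 8 * l = Real.pi := by unfold l; ring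
  set f : ℂ → ℂ := fun z => F ((x + y * I) - z) with hf
  have him : ∀ z : ℂ, ((x + y * I : ℂ) - z).im = y - z.im := by intro z; simp
  have hre : ∀ z : ℂ, ((x + y * I : ℂ) - z).re = x - z.re := by intro z; simp
  have hin : ∀ z : ℂ, |z.im| ≤ l → |((x + y * I : ℂ) - z).im| ≤ |y| + l := by
    intro z hz
    rw [him]
    exact (abs_sub _ _).trans (by linarith)
  have hb1 : |y| + l < Real.pi / 2 := by linarith
  have hdf : ∀ z : ℂ, |z.im| ≤ l → DifferentiableAt ℂ f z := by
    intro z hz
    have h1 : DifferentiableAt ℂ F ((x + y * I) - z) := F_diff (lt_of_le_of_lt (hin z hz) hb1)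
    exact h1.comp z ((differentiableAt_const _).sub differentiableAt_id)
  set B : ℝ := 2 * |Real.log (Real.cos (|y| + l))| + 2 * Real.pi + 1 with hB
  have hB0 : 0 ≤ B := by have := Real.pi_pos; positivity
  have hbf : ∀ z : ℂ, |z.im| ≤ l → ‖f z‖ ≤ (2 * |x| + B + 2) * Real.exp (1 * |z.re|) := by
    intro z hz
    have h1 := F_bound hb1 (hin z hz)
    rw [hre, ← hB] at h1
    have h2 : |x - z.re| ≤ |x| + |z.re| := abs_sub _ _
    have h3 : |z.re| + 1 ≤ Real.exp (1 * |z.re|) := by
      rw [one_mul]; exact Real.add_one_le_exp _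
    have h4 := abs_nonneg x
    have h5 := abs_nonneg z.re
    have h6 : 1 ≤ Real.exp (1 * |z.re|) := by linarith
    calc ‖f z‖ ≤ 2 * (|x| + |z.re|) + B := by
          rw [hf]
          linarith
      _ ≤ _ := by nlinarith
  obtain ⟨i1, i2, i3, e⟩ := sum_rule (f := f) (A := 2 * |x| + B + 2) (c := 1) zero_le_one
    (by norm_num) (fun z hz => (hdf z hz).continuousAt.continuousWithinAt)
    (fun z hz => hdf z hz.le) hbf
  -- real parts
  have r0 : (f 0).re = h x y := by
    rw [hf]
    simp only
    rw [F_re (by rw [sub_zero]; simp; linarith)]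
    simp
  have rr : ∀ (s t : ℝ), |t| ≤ l → (f (s + t * I)).re = h (x - s) (y - t) := by
    intro s t ht
    rw [hf]
    simp only
    rw [F_re (lt_of_le_of_lt (hin _ (by simpa using ht)) hb1), him, hre]
    simp
  have i4 : Integrable fun s : ℝ => (P s : ℂ) * (f (s + l * I) + f (s - l * I) - f s) := by
    refine ((i1.add i2).sub i3).congr (Eventually.of_forall fun s => ?_)
    simp only [Pi.add_apply, Pi.sub_apply]
    ring
  have hRe := integral_re i4
  have e2 : ∫ s : ℝ, P s * (h (x - s) (y - l) + h (x - s) (y + l) - h (x - s) y) = h x y := by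
    rw [← r0, ← e]
    have hRe2 : (∫ s : ℝ, (P s : ℂ) * (f (s + l * I) + f (s - l * I) - f s)).re =
        ∫ s : ℝ, ((P s : ℂ) * (f (s + l * I) + f (s - l * I) - f s)).re := hRe.symm
    rw [hRe2]
    refine integral_congr_ae (Eventually.of_forall fun s => ?_)
    simp only
    rw [Complex.re_ofReal_mul, Complex.sub_re, Complex.add_re]
    have a1 := rr s l (by rw [abs_of_pos hl])
    have a2 := rr s (-l) (by rw [abs_neg, abs_of_pos hl])
    have a3 := rr s 0 (by simpa using hl.le)
    rw [show (s : ℂ) + ((-l : ℝ) : ℂ) * I = s - l * I by push_cast; ring] at a2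
    rw [show (s : ℂ) + ((0 : ℝ) : ℂ) * I = s by push_cast; ring, sub_zero] at a3
    rw [a1, a2, a3, sub_neg_eq_add]
  have j1 := Ph_integrable x (y + l)
  have j2 := Ph_integrable x (y - l)
  have j3 := Ph_integrable x y
  have b1 := integral_add j1 j2
  have b2 := integral_sub (j1.add j2) j3
  simp only [Pi.add_apply] at b1 b2
  unfold H
  rw [← b1, ← b2, ← e2]
  refine integral_congr_ae (Eventually.of_forall fun s => ?_)
  simp only
  ring

theorem conv_h (x : ℝ) {y : ℝ} (hy : |y| ≤ 3 * l) :
    H x (y + l) + H x (y - l) - H x y = h x y := by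
  have hl := l_pos
  have hl8 : 8 * l = Real.pi := by unfold l; ring
  have hcl : Icc (-(3 * l)) (3 * l) ⊆ closure (Ioo (-(3 * l)) (3 * l)) := by
    rw [closure_Ioo (by linarith : -(3 * l) ≠ 3 * l)]
  have h1 : EqOn (fun y => H x (y + l) + H x (y - l) - H x y) (fun y => h x y)
      (Ioo (-(3 * l)) (3 * l)) := fun y hy => conv_lt x (abs_lt.2 hy)
  have hc1 : Continuous fun y => H x (y + l) + H x (y - l) - H x y :=
    (((H_cont x).comp (continuous_id.add continuous_const)).add
      ((H_cont x).comp (continuous_id.sub continuous_const))).sub (H_cont x)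
  have hc2 : ContinuousOn (fun y => h x y) (Icc (-(3 * l)) (3 * l)) := by
    unfold h
    refine ContinuousOn.log (by fun_prop) fun y hy => ?_
    have h2 := Real.one_le_cosh (2 * x)
    have h3 : -1 < Real.cos (2 * y) := by
      rw [← Real.cos_abs]
      have h4 : |2 * y| < Real.pi := by
        rw [abs_mul, abs_two]
        have := abs_le.2 hy
        linarith
      have h5 := Real.cos_lt_cos_of_nonneg_of_le_pi (abs_nonneg (2 * y)) le_rfl h4
      rwa [Real.cos_pi] at h5
    have : 0 < Real.cosh (2 * x) + Real.cos (2 * y) := by linarith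
    exact this.ne'
  exact h1.of_subset_closure hc1.continuousOn hc2 Ioo_subset_Icc_self hcl (abs_le.1 hy)

end

end NUMF
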