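import Pool.Agent.NUP.MF.Str
import Pool.Agent.NUP1.Cutoff

/-!
# The mean field weight of a string is the exact cutoff character

* `psi_norm`: `‖psi (4/3) (-(2 - a) l + i t)‖ = exp (- Ag a t)`, `|a| < 1`;
* `string_neutral`: `mf j t + mf (j + 1) t + log ‖psi (4/3) (-j l + i t)‖ = 0` for `1 < j ≤ 2`;
* `Ag_nonneg`, `Ag_ge`.
-/

set_option autoImplicit false

open MeasureTheory Set Filter Topology Complex

namespace NUMF

noncomputable section

lemma zi_im (a t : ℝ) : ((t : ℂ) + (a * l : ℝ) * I).im = a * l := by simp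

lemma zi_lt {a : ℝ} (ha : |a| < 1) (t : ℝ) : |((t : ℂ) + (a * l : ℝ) * I).im| < l := by
  rw [zi_im, abs_mul, abs_of_pos l_pos]
  have := l_pos
  nlinarith

theorem Ag_eq (a t : ℝ) : Ag a t =
    Real.log ‖1 - I * wz (t + (a * l : ℝ) * I)‖ - Real.log ‖1 + I * wz (t + (a * l : ℝ) * I)‖ := by
  have hpi := Real.pi_pos
  unfold Ag Gc
  set A := Complex.log (1 + I * wz (t + (a * l : ℝ) * I)) with hA
  set B := Complex.log (1 - I * wz (t + (a * l : ℝ) * I)) with hB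
  have e1 : (1 / (2 * Real.pi * I) * (A - B) : ℂ) = ((1 / (2 * Real.pi) : ℝ) : ℂ) * (-(I * (A - B))) := by
    have hI : (1 / I : ℂ) = -I := by rw [one_div, Complex.inv_I]
    have hpi' : (Real.pi : ℂ) ≠ 0 := Complex.ofReal_ne_zero.2 hpi.ne'
    push_cast
    field_simp
    linear_combination (A - B) * Complex.I_sq
  rw [e1, Complex.im_ofReal_mul, Complex.neg_im, Complex.I_mul_im, Complex.sub_re, hA, hB,
    Complex.log_re, Complex.log_re]
  field_simp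
  ring

lemma one_pm_ne {a : ℝ} (ha : |a| < 1) (t : ℝ) :
    1 + I * wz (t + (a * l : ℝ) * I) ≠ 0 ∧ 1 - I * wz (t + (a * l : ℝ) * I) ≠ 0 := by
  have h1 := slitPlane_ne_zero (slit_pm (zi_lt ha t) (σ := 1) (by simp))
  have h2 := slitPlane_ne_zero (slit_pm (zi_lt ha t) (σ := -1) (by simp))
  constructor
  · intro e
    apply h1
    rw [← e]
    push_cast
    ring
  · intro e
    apply h2
    rw [← e]
    push_cast
    ring

lemma exp_neg_Ag {a : ℝ} (ha : |a| < 1) (t : ℝ) : Real.exp (-Ag a t) =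
    ‖1 + I * wz (t + (a * l : ℝ) * I)‖ / ‖1 - I * wz (t + (a * l : ℝ) * I)‖ := by
  obtain ⟨n1, n2⟩ := one_pm_ne ha t
  have m1 := norm_pos_iff.2 n1
  have m2 := norm_pos_iff.2 n2
  rw [Ag_eq, neg_sub, Real.exp_sub, Real.exp_log m1, Real.exp_log m2]

open scoped ComplexConjugate in
/-- **the exact mean field character** -/
theorem psi_norm {a : ℝ} (ha : |a| < 1) (t : ℝ) :
    ‖NUP1.psi (4 / 3) (-(((2 - a) * l : ℝ) : ℂ) + t * I)‖ = Real.exp (-Ag a t) := by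
  rw [exp_neg_Ag ha]
  set z : ℂ := (t : ℂ) + (a * l : ℝ) * I with hz
  set c : ℂ := ((√3 / 2 : ℝ) : ℂ) with hc
  have hc0 : c ≠ 0 := by
    rw [hc, Complex.ofReal_ne_zero]
    have := sq3_pos
    positivity
  have hl1 : (NUP1.l : ℝ) = l := rfl
  have e1 : Complex.cos (((4 / 3 : ℝ) : ℂ) * (NUP1.l : ℂ)) = c := by
    rw [hl1, ← Complex.ofReal_mul, ← Complex.ofReal_cos, hc]
    congr 1
    unfold l
    rw [show 4 / 3 * (Real.pi / 8) = Real.pi / 6 by ring, Real.cos_pi_div_six]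
  have hcz : conj z = (t : ℂ) - (a * l : ℝ) * I := by
    rw [hz]
    simp [sub_eq_add_neg]
  have e2 : Complex.cos (2 * ((4 / 3 : ℝ) : ℂ) * (-(((2 - a) * l : ℝ) : ℂ) + t * I) +
      ((4 / 3 : ℝ) : ℂ) * (NUP1.l : ℂ)) = c * conj (wz z) * I := by
    have e3 : 2 * ((4 / 3 : ℝ) : ℂ) * (-(((2 - a) * l : ℝ) : ℂ) + t * I) + ((4 / 3 : ℝ) : ℂ) * (NUP1.l : ℂ) =
        (8 / 3 * conj z) * I - Real.pi / 2 := by
      rw [hl1, hcz]
      unfold l
      push_cast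
      linear_combination (a * (Real.pi / 8) * (8 / 3) : ℂ) * Complex.I_sq
    rw [e3, Complex.cos_sub_pi_div_two, Complex.sin_mul_I]
    have e4 : conj (wz z) = 2 / (√3 : ℝ) * Complex.sinh (8 / 3 * conj z) := by
      unfold wz
      rw [map_mul, map_div₀, Complex.conj_ofReal, Complex.conj_ofNat, ← Complex.sinh_conj, map_mul, map_div₀,
        Complex.conj_ofNat, Complex.conj_ofNat]
    rw [e4, hc]
    have h3 : ((√3 : ℝ) : ℂ) ≠ 0 := Complex.ofReal_ne_zero.2 sq3_pos.ne'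
    push_cast
    field_simp
  unfold NUP1.psi
  rw [e1, e2, norm_div]
  have e5 : c * conj (wz z) * I - c = -(c * conj (1 + I * wz z)) := by
    rw [map_add, map_mul, Complex.conj_I, map_one]
    ring
  have e6 : c * conj (wz z) * I + c = c * conj (1 - I * wz z) := by
    rw [map_sub, map_mul, Complex.conj_I, map_one]
    ring
  rw [e5, e6, norm_neg, norm_mul, norm_mul, RCLike.norm_conj, RCLike.norm_conj, mul_div_mul_left]
  exact (norm_pos_iff.2 hc0).ne'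

/-- **a string at offset `1 < j ≤ 2` is exactly neutralised by `psi` of exponent one** -/
theorem string_neutral {j : ℝ} (h1 : 1 < j) (h2 : j ≤ 2) (t : ℝ) :
    mf j t + mf (j + 1) t + Real.log ‖NUP1.psi (4 / 3) (-((j * l : ℝ) : ℂ) + t * I)‖ = 0 := by
  have h3 := psi_norm (a := 2 - j) (by rw [abs_of_nonneg (by linarith)]; linarith) t
  rw [show 2 - (2 - j) = j by ring] at h3
  rw [mf_string h1 h2, h3, Real.log_exp, add_neg_cancel]

/-- the square norms -/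
lemma norm_one_pm (a t : ℝ) {σ : ℝ} (hσ : σ ^ 2 = 1) : ‖1 + σ * I * wz (t + (a * l : ℝ) * I)‖ ^ 2 =
    1 + 4 / 3 * (Real.cosh (8 / 3 * t) ^ 2 - Real.cos (8 / 3 * (a * l)) ^ 2) -
      σ * (4 / √3 * Real.cosh (8 / 3 * t) * Real.sin (8 / 3 * (a * l))) := by
  have h1 : (wz (t + (a * l : ℝ) * I)) = ((2 / √3 * (Real.sinh (8 / 3 * t) * Real.cos (8 / 3 * (a * l))) : ℝ) : ℂ) +
      ((2 / √3 * (Real.cosh (8 / 3 * t) * Real.sin (8 / 3 * (a * l))) : ℝ) : ℂ) * I := by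
    unfold wz
    rw [sinh_re_im, re83s, im83s]
    simp only [Complex.add_re, Complex.ofReal_re, Complex.mul_re, Complex.I_re, mul_zero, Complex.ofReal_im,
      Complex.I_im, mul_one, sub_self, add_zero, Complex.add_im, Complex.mul_im, zero_add]
    push_cast
    ring
  have h2 : 1 + σ * I * wz (t + (a * l : ℝ) * I) =
      ((1 - σ * (2 / √3 * (Real.cosh (8 / 3 * t) * Real.sin (8 / 3 * (a * l)))) : ℝ) : ℂ) +
      ((σ * (2 / √3 * (Real.sinh (8 / 3 * t) * Real.cos (8 / 3 * (a * l)))) : ℝ) : ℂ) * I := by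
    rw [h1]
    push_cast
    linear_combination ((σ : ℂ) * (2 / (√3 : ℝ) * (Complex.cosh (8 / 3 * t) * Complex.sin (8 / 3 * (a * l))))) *
      Complex.I_sq
  rw [h2, ← Complex.normSq_eq_norm_sq, Complex.normSq_add_mul_I]
  set C := Real.cosh (8 / 3 * t)
  set S := Real.sinh (8 / 3 * t)
  set c := Real.cos (8 / 3 * (a * l))
  set s := Real.sin (8 / 3 * (a * l))
  have e1 : C ^ 2 = S ^ 2 + 1 := Real.cosh_sq _
  have e2 : s ^ 2 + c ^ 2 = 1 := Real.sin_sq_add_cos_sq _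
  have e3 : (2 / √3) ^ 2 = 4 / 3 := by
    rw [div_pow, Real.sq_sqrt (by norm_num)]
    norm_num
  have e4 : 4 / √3 = 2 * (2 / √3) := by ring
  rw [e4]
  set q := 2 / √3
  linear_combination (q ^ 2 * (C ^ 2 * s ^ 2 + S ^ 2 * c ^ 2)) * hσ + (C ^ 2 * s ^ 2 + S ^ 2 * c ^ 2) * e3 -
    (4 / 3 * c ^ 2) * e1 + (4 / 3 * C ^ 2) * e2

/-- `D` -/
def Dg (a t : ℝ) : ℝ := 1 + 4 / 3 * (Real.cosh (8 / 3 * t) ^ 2 - Real.cos (8 / 3 * (a * l)) ^ 2)

/-- `E` -/
def Eg (a t : ℝ) : ℝ := 4 / √3 * Real.cosh (8 / 3 * t) * Real.sin (8 / 3 * (a * l))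

lemma Dg_pm {a : ℝ} (ha : |a| < 1) (t : ℝ) : 0 < Dg a t - Eg a t ∧ 0 < Dg a t + Eg a t := by
  obtain ⟨n1, n2⟩ := one_pm_ne ha t
  have m1 := norm_pos_iff.2 n1
  have m2 := norm_pos_iff.2 n2
  have e1 := norm_one_pm a t (σ := 1) (by norm_num)
  have e2 := norm_one_pm a t (σ := -1) (by norm_num)
  have f1 : (1 : ℂ) + ((1 : ℝ) : ℂ) * I * wz (t + (a * l : ℝ) * I) = 1 + I * wz (t + (a * l : ℝ) * I) := by
    push_cast; ring
  have f2 : (1 : ℂ) + ((-1 : ℝ) : ℂ) * I * wz (t + (a * l : ℝ) * I) = 1 - I * wz (t + (a * l : ℝ) * I) := by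
    push_cast; ring
  rw [f1] at e1
  rw [f2] at e2
  unfold Dg Eg
  constructor
  · have := pow_pos m1 2
    rw [e1] at this
    linarith
  · have := pow_pos m2 2
    rw [e2] at this
    linarith

/-- closed form -/
theorem Ag_closed {a : ℝ} (ha : |a| < 1) (t : ℝ) :
    Ag a t = (Real.log (Dg a t + Eg a t) - Real.log (Dg a t - Eg a t)) / 2 := by
  obtain ⟨n1, n2⟩ := one_pm_ne ha t
  have m1 := norm_pos_iff.2 n1
  have m2 := norm_pos_iff.2 n2
  have e1 := norm_one_pm a t (σ := 1) (by norm_num)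
  have e2 := norm_one_pm a t (σ := -1) (by norm_num)
  have f1 : (1 : ℂ) + ((1 : ℝ) : ℂ) * I * wz (t + (a * l : ℝ) * I) = 1 + I * wz (t + (a * l : ℝ) * I) := by
    push_cast; ring
  have f2 : (1 : ℂ) + ((-1 : ℝ) : ℂ) * I * wz (t + (a * l : ℝ) * I) = 1 - I * wz (t + (a * l : ℝ) * I) := by
    push_cast; ring
  rw [f1] at e1
  rw [f2] at e2
  have g1 : Dg a t - Eg a t = ‖1 + I * wz (t + (a * l : ℝ) * I)‖ ^ 2 := by
    rw [e1]; unfold Dg Eg; ring
  have g2 : Dg a t + Eg a t = ‖1 - I * wz (t + (a * l : ℝ) * I)‖ ^ 2 := by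
    rw [e2]; unfold Dg Eg; ring
  rw [g1, g2, Real.log_pow, Real.log_pow, Ag_eq]
  push_cast
  ring

lemma sin_ag_nonneg {a : ℝ} (h0 : 0 ≤ a) (h1 : a ≤ 1) : 0 ≤ Real.sin (8 / 3 * (a * l)) := by
  have hpi := Real.pi_pos
  refine Real.sin_nonneg_of_nonneg_of_le_pi (by have := l_pos; positivity) ?_
  unfold l
  nlinarith

lemma Eg_nonneg {a : ℝ} (h0 : 0 ≤ a) (h1 : a ≤ 1) (t : ℝ) : 0 ≤ Eg a t := by
  unfold Eg
  have h2 := sin_ag_nonneg h0 h1
  have h3 := Real.cosh_pos (8 / 3 * t)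
  have h4 := sq3_pos
  positivity

lemma Dg_ge (a t : ℝ) : 1 ≤ Dg a t := by
  unfold Dg
  have h1 := Real.one_le_cosh (8 / 3 * t)
  have h2 := Real.cos_sq_le_one (8 / 3 * (a * l))
  nlinarith

lemma Dg_le (a t : ℝ) : Dg a t ≤ 7 / 3 * Real.cosh (8 / 3 * t) ^ 2 := by
  unfold Dg
  have h1 := Real.one_le_cosh (8 / 3 * t)
  have h2 := sq_nonneg (Real.cos (8 / 3 * (a * l)))
  nlinarith

/-- `Ag a t ≥ E / (2 D)` -/
theorem Ag_ge_div {a : ℝ} (h0 : 0 ≤ a) (h1 : a < 1) (t : ℝ) : Eg a t / Dg a t ≤ 2 * Ag a t := by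
  have ha : |a| < 1 := by rw [abs_of_nonneg h0]; exact h1
  obtain ⟨d1, d2⟩ := Dg_pm ha t
  have hE := Eg_nonneg h0 h1.le t
  have hD := Dg_ge a t
  have hDp : 0 < Dg a t := by linarith
  rw [Ag_closed ha]
  have h2 : Real.log (Dg a t) ≤ Real.log (Dg a t + Eg a t) := Real.log_le_log hDp (by linarith)
  have h3 : Real.log ((Dg a t - Eg a t) / Dg a t) ≤ (Dg a t - Eg a t) / Dg a t - 1 :=
    Real.log_le_sub_one_of_pos (div_pos d1 hDp)
  rw [Real.log_div d1.ne' hDp.ne'] at h3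
  have h4 : (Dg a t - Eg a t) / Dg a t - 1 = -(Eg a t / Dg a t) := by
    field_simp
    ring
  rw [h4] at h3
  linarith

theorem Ag_nonneg {a : ℝ} (h0 : 0 ≤ a) (h1 : a < 1) (t : ℝ) : 0 ≤ Ag a t := by
  have h2 := Ag_ge_div h0 h1 t
  have h3 : 0 ≤ Eg a t / Dg a t := div_nonneg (Eg_nonneg h0 h1.le t) (by have := Dg_ge a t; linarith)
  linarith

/-- lower bound: `Ag a t ≥ (6 / (7 √3)) sin (π a / 3) e^{-(8/3) |t|}` -/
theorem Ag_ge {a : ℝ} (h0 : 0 ≤ a) (h1 : a < 1) (t : ℝ) :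
    6 / (7 * √3) * Real.sin (8 / 3 * (a * l)) * Real.exp (-(8 / 3) * |t|) ≤ Ag a t := by
  have h2 := Ag_ge_div h0 h1 t
  have hs := sin_ag_nonneg h0 h1.le
  have hD := Dg_ge a t
  have hD2 := Dg_le a t
  have hc := Real.one_le_cosh (8 / 3 * t)
  have h3 := sq3_pos
  have h4 : 12 / (7 * √3) * Real.sin (8 / 3 * (a * l)) * (Real.cosh (8 / 3 * t))⁻¹ ≤ Eg a t / Dg a t := by
    rw [le_div_iff₀ (by linarith)]
    have hc0 : Real.cosh (8 / 3 * t) ≠ 0 := by positivity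
    calc 12 / (7 * √3) * Real.sin (8 / 3 * (a * l)) * (Real.cosh (8 / 3 * t))⁻¹ * Dg a t
        ≤ 12 / (7 * √3) * Real.sin (8 / 3 * (a * l)) * (Real.cosh (8 / 3 * t))⁻¹ *
          (7 / 3 * Real.cosh (8 / 3 * t) ^ 2) := by gcongr
      _ = Eg a t := by
          unfold Eg
          field_simp
          ring
  have h5 : Real.exp (-(8 / 3) * |t|) ≤ (Real.cosh (8 / 3 * t))⁻¹ := by
    have h6 : Real.cosh (8 / 3 * t) ≤ Real.exp (8 / 3 * |t|) := by
      refine cosh_le_exp ?_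
      rw [abs_mul, abs_of_pos (by norm_num : (0:ℝ) < 8 / 3)]
    have h7 : Real.exp (-(8 / 3) * |t|) = (Real.exp (8 / 3 * |t|))⁻¹ := by
      rw [← Real.exp_neg]
      congr 1
      ring
    rw [h7]
    exact inv_anti₀ (Real.cosh_pos _) h6
  have h8 : 12 / (7 * √3) * Real.sin (8 / 3 * (a * l)) * Real.exp (-(8 / 3) * |t|) ≤
      12 / (7 * √3) * Real.sin (8 / 3 * (a * l)) * (Real.cosh (8 / 3 * t))⁻¹ := by gcongr
  have h9 : 12 / (7 * √3) * Real.sin (8 / 3 * (a * l)) * Real.exp (-(8 / 3) * |t|) =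
      2 * (6 / (7 * √3) * Real.sin (8 / 3 * (a * l)) * Real.exp (-(8 / 3) * |t|)) := by ring
  linarith

end

end NUMF
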