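import Pool.Agent.NUP.MF.Bulk

/-!
# The mean field value of the gas on the line equals the bulk factor

All-minus reference `σ ^ (2 m) (4 + 2 √2) ^ (m (m - 1))`, activity `√2 / (σ π)` per quantum,
constant `(π ^ 2 (1 - r)) ^ m` of the map to the circle, mean field `exp (m ^ 2 ∫ P v)`.
-/

open MeasureTheory

noncomputable section

namespace NUMF

lemma bulk_lin : 2 * (1 - r) / (4 + 2 * √2) = ((2 / 3) / (2 / 3 * (2 + √2))) ^ 2 := by
  have hs : √2 ^ 2 = 2 := Real.sq_sqrt (by norm_num)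
  have h0 : 0 < √2 := Real.sqrt_pos.2 (by norm_num)
  unfold r
  rw [div_pow, div_eq_div_iff (by positivity) (by positivity)]
  nlinarith [hs, h0]

/-- **mean field = bulk factor**, `m ≥ 1` quanta on both sides -/
theorem bulk_match (m : ℕ) :
    (4 + 2 * √2) ^ (m * (m - 1)) * (2 / Real.pi ^ 2) ^ m * (Real.pi ^ 2 * (1 - r)) ^ m *
      Real.exp ((m : ℝ) ^ 2 * ∫ s, P s * v s) =
    (2 / 3 * (2 + √2)) ^ (2 * m * (2 * m - 1)) * (2 / 3) ^ (2 * m) := by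
  have hK : (0 : ℝ) < 2 / 3 * (2 + √2) := by positivity
  have hD : (0 : ℝ) < 4 + 2 * √2 := by positivity
  have hpi := Real.pi_pos
  have e1 : (2 / Real.pi ^ 2) ^ m * (Real.pi ^ 2 * (1 - r)) ^ m = (2 * (1 - r)) ^ m := by
    rw [← mul_pow]; congr 1; field_simp
  have e2 : Real.exp ((m : ℝ) ^ 2 * ∫ s, P s * v s) * (4 + 2 * √2) ^ (m * m) =
      (2 / 3 * (2 + √2)) ^ (2 * m * (2 * m)) := by
    have h1 : Real.exp ((m : ℝ) ^ 2 * ∫ s, P s * v s) = Real.exp (∫ s, P s * v s) ^ (m * m) := by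
      rw [← Real.exp_nat_mul]; congr 1; push_cast; ring
    rw [h1, ← mul_pow, mul_comm (Real.exp _), exp_int_vP, ← pow_mul]
    congr 1; ring
  rcases m with _ | m
  · simp
  · have a1 : (4 + 2 * √2) ^ ((m + 1) * (m + 1)) =
        (4 + 2 * √2) ^ ((m + 1) * (m + 1 - 1)) * (4 + 2 * √2) ^ (m + 1) := by
      rw [← pow_add]; congr 1
    have a2 : (2 / 3 * (2 + √2)) ^ (2 * (m + 1) * (2 * (m + 1))) =
        (2 / 3 * (2 + √2)) ^ (2 * (m + 1) * (2 * (m + 1) - 1)) *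
          (2 / 3 * (2 + √2)) ^ (2 * (m + 1)) := by
      rw [← pow_add]
      congr 1
    have a3 := bulk_lin
    have a4 : (2 * (1 - r)) ^ (m + 1) * (2 / 3 * (2 + √2)) ^ (2 * (m + 1)) =
        (4 + 2 * √2) ^ (m + 1) * (2 / 3) ^ (2 * (m + 1)) := by
      rw [div_pow, div_eq_div_iff hD.ne' (pow_pos hK 2).ne'] at a3
      rw [pow_mul, pow_mul, ← mul_pow, a3, mul_pow, mul_comm]
    rw [a1, a2] at e2
    have hp1 : (0 : ℝ) < (4 + 2 * √2) ^ (m + 1) := pow_pos hD _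
    have hp2 : (0 : ℝ) < (2 / 3 * (2 + √2)) ^ (2 * (m + 1)) := pow_pos hK _
    rw [mul_assoc ((4 + 2 * √2) ^ _), e1]
    apply mul_right_cancel₀ (mul_pos hp1 hp2).ne'
    set E := Real.exp ((((m + 1 : ℕ) : ℝ)) ^ 2 * ∫ s, P s * v s)
    set D1 := (4 + 2 * √2) ^ ((m + 1) * (m + 1 - 1))
    set D2 := (4 + 2 * √2) ^ (m + 1)
    set K1 := (2 / 3 * (2 + √2)) ^ (2 * (m + 1) * (2 * (m + 1) - 1))
    set K2 := (2 / 3 * (2 + √2)) ^ (2 * (m + 1))
    set R := (2 * (1 - r)) ^ (m + 1)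
    set S := ((2 : ℝ) / 3) ^ (2 * (m + 1))
    calc D1 * R * E * (D2 * K2) = (E * (D1 * D2)) * (R * K2) := by ring
      _ = (K1 * K2) * (D2 * S) := by rw [e2, a4]
      _ = _ := by ring

end NUMF

end
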