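import Pool.Agent.NUP.MF.Pot

/-!
# Mean field identities of the quanta gas

`w` same species, `g` cross species, on the line `A`; `q`, `qg` the complex pair functions.
* `conv_w`: `∫ P(s) log w(t - s) ds = log ((cosh 2t - r) / 2)`
* `conv_g`: `∫ P(s) log g(t - s) ds = log (2 / (cosh 2t + 1))`
* `conv_V`: `∫ P(s) V(t - s) ds = v t`
* `conv_q`, `conv_qg`: objects on the line at offset `j` (`Re u = - j l` relative to `A`).
-/

set_option autoImplicit false

open MeasureTheory Set Filter Topology Complex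

namespace NUMF

noncomputable section

/-- `r = cos (π / 4)` -/
def r : ℝ := √2 / 2

lemma r_eq : r = Real.cos (Real.pi / 4) := Real.cos_pi_div_four.symm

lemma r_pos : 0 < r := by
  unfold r
  have : 0 < √2 := Real.sqrt_pos.2 (by norm_num)
  positivity

lemma r_lt_one : r < 1 := by
  unfold r
  have : √2 < 2 := by
    rw [Real.sqrt_lt' (by norm_num)]
    norm_num
  linarith

/-- same species, on `A` -/
def w (t : ℝ) : ℝ := Real.sinh t ^ 2 * Real.cosh (2 * t) / (Real.cosh (2 * t) - r)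

/-- cross species, on `A` -/
def g (t : ℝ) : ℝ := 4 * Real.cosh t ^ 2 / (Real.cosh (2 * t) + r) ^ 2

/-- potential of a pair of rows (one of each species) -/
def v (t : ℝ) : ℝ := Real.log ((Real.cosh (2 * t) + 1) / (Real.cosh (2 * t) - r))

/-- potential of a pair of quanta -/
def V (t : ℝ) : ℝ := - Real.log (w t * g t)

lemma h0 (t : ℝ) : h t 0 = Real.log (Real.cosh (2 * t) + 1) := by
  unfold h
  simp

lemma h1 (t : ℝ) : h t l = Real.log (Real.cosh (2 * t) + r) := by
  unfold h l
  rw [show 2 * (Real.pi / 8) = Real.pi / 4 by ring, ← r_eq]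

lemma h2 (t : ℝ) : h t (2 * l) = Real.log (Real.cosh (2 * t)) := by
  unfold h l
  rw [show 2 * (2 * (Real.pi / 8)) = Real.pi / 2 by ring, Real.cos_pi_div_two, add_zero]

lemma h3 (t : ℝ) : h t (3 * l) = Real.log (Real.cosh (2 * t) - r) := by
  unfold h l
  rw [show 2 * (3 * (Real.pi / 8)) = Real.pi - Real.pi / 4 by ring, Real.cos_pi_sub, ← r_eq,
    ← sub_eq_add_neg]

lemma h4 (t : ℝ) : h t (4 * l) = Real.log (Real.cosh (2 * t) - 1) := by
  unfold h l
  rw [show 2 * (4 * (Real.pi / 8)) = Real.pi by ring, Real.cos_pi, ← sub_eq_add_neg]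

lemma cm_r (t : ℝ) : 0 < Real.cosh (2 * t) - r := by
  have := Real.one_le_cosh (2 * t)
  have := r_lt_one
  linarith

lemma cp_r (t : ℝ) : 0 < Real.cosh (2 * t) + r := by
  have := Real.one_le_cosh (2 * t)
  have := r_pos
  linarith

lemma sinh_sq_eq (t : ℝ) : Real.sinh t ^ 2 = (Real.cosh (2 * t) - 1) / 2 := by
  rw [cosh_two]; ring

lemma cosh_sq_eq (t : ℝ) : Real.cosh t ^ 2 = (Real.cosh (2 * t) + 1) / 2 := by
  rw [cosh_two, Real.cosh_sq]; ring

lemma w_pos {t : ℝ} (ht : t ≠ 0) : 0 < w t := by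
  unfold w
  have h1 : 0 < Real.sinh t ^ 2 := by
    have : Real.sinh t ≠ 0 := fun e => ht (Real.sinh_eq_zero.1 e)
    positivity
  have h2 := Real.cosh_pos (2 * t)
  have h3 := cm_r t
  positivity

lemma g_pos (t : ℝ) : 0 < g t := by
  unfold g
  have h1 := Real.cosh_pos t
  have h2 := cp_r t
  positivity

lemma log_w {t : ℝ} (ht : t ≠ 0) :
    Real.log (w t) = h t (3 * l + l) + h t (3 * l - l) - h t (3 * l) - Real.log 2 := by
  rw [show 3 * l + l = 4 * l by ring, show 3 * l - l = 2 * l by ring, h4, h2, h3]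
  unfold w
  have a1 : 0 < Real.cosh (2 * t) - 1 := by
    have h1 : 0 < Real.sinh t ^ 2 := by
      have : Real.sinh t ≠ 0 := fun e => ht (Real.sinh_eq_zero.1 e)
      positivity
    rw [sinh_sq_eq] at h1
    linarith
  have a2 := Real.cosh_pos (2 * t)
  have a3 := cm_r t
  rw [sinh_sq_eq, Real.log_div (by positivity) a3.ne', Real.log_mul (by positivity) a2.ne',
    Real.log_div a1.ne' two_ne_zero]
  ring

lemma log_g (t : ℝ) :
    Real.log (g t) = Real.log 2 - (h t (0 + l) + h t (0 - l) - h t 0) := by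
  rw [zero_add, zero_sub, h_neg_right, h0, h1]
  unfold g
  have a1 : 0 < Real.cosh (2 * t) + 1 := by
    have := Real.cosh_pos (2 * t)
    linarith
  have a2 := cp_r t
  have e4 : (4:ℝ) * ((Real.cosh (2 * t) + 1) / 2) = 2 * (Real.cosh (2 * t) + 1) := by ring
  rw [cosh_sq_eq, e4, Real.log_div (by positivity) (by positivity),
    Real.log_mul two_ne_zero a1.ne', Real.log_pow]
  push_cast
  ring

lemma V_eq {t : ℝ} (ht : t ≠ 0) : V t = - Real.log (w t) - Real.log (g t) := by
  unfold V
  rw [Real.log_mul (w_pos ht).ne' (g_pos t).ne']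
  ring

lemma integral_P_mul (a : ℝ) : ∫ s, P s * a = a := by
  rw [integral_mul_const, integral_P, one_mul]

/-- `P * log w` -/
theorem conv_w (t : ℝ) : Integrable (fun s => P s * Real.log (w (t - s))) ∧
    ∫ s, P s * Real.log (w (t - s)) = Real.log ((Real.cosh (2 * t) - r) / 2) := by
  have hl := l_pos
  have j1 := Ph_integrable t (3 * l + l)
  have j2 := Ph_integrable t (3 * l - l)
  have j3 := Ph_integrable t (3 * l)
  have j4 : Integrable fun s => P s * Real.log 2 := P_integrable.mul_const _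
  have hae : (fun s => P s * Real.log (w (t - s))) =ᵐ[volume] fun s =>
      P s * h (t - s) (3 * l + l) + P s * h (t - s) (3 * l - l) - P s * h (t - s) (3 * l) -
        P s * Real.log 2 := by
    filter_upwards [ae_ne t] with s hs
    rw [log_w hs]
    ring
  refine ⟨(((j1.add j2).sub j3).sub j4).congr hae.symm, ?_⟩
  have b1 := integral_add j1 j2
  have b2 := integral_sub (j1.add j2) j3
  have b3 := integral_sub ((j1.add j2).sub j3) j4
  simp only [Pi.add_apply, Pi.sub_apply] at b1 b2 b3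
  have hc := conv_h t (y := 3 * l) (by rw [abs_of_pos (by linarith)])
  unfold H at hc
  rw [integral_congr_ae hae, b3, b2, b1, hc, integral_P_mul, h3,
    Real.log_div (cm_r t).ne' two_ne_zero]

/-- `P * log g` -/
theorem conv_g (t : ℝ) : Integrable (fun s => P s * Real.log (g (t - s))) ∧
    ∫ s, P s * Real.log (g (t - s)) = Real.log (2 / (Real.cosh (2 * t) + 1)) := by
  have hl := l_pos
  have j1 := Ph_integrable t (0 + l)
  have j2 := Ph_integrable t (0 - l)
  have j3 := Ph_integrable t 0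
  have j4 : Integrable fun s => P s * Real.log 2 := P_integrable.mul_const _
  have hae : (fun s => P s * Real.log (g (t - s))) =ᵐ[volume] fun s =>
      P s * Real.log 2 - (P s * h (t - s) (0 + l) + P s * h (t - s) (0 - l) - P s * h (t - s) 0) := by
    refine Eventually.of_forall fun s => ?_
    simp only
    rw [log_g]
    ring
  refine ⟨(j4.sub ((j1.add j2).sub j3)).congr hae.symm, ?_⟩
  have b1 := integral_add j1 j2
  have b2 := integral_sub (j1.add j2) j3
  have b3 := integral_sub j4 ((j1.add j2).sub j3)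
  simp only [Pi.add_apply, Pi.sub_apply] at b1 b2 b3
  have hc := conv_h t (y := 0) (by rw [abs_zero]; linarith)
  unfold H at hc
  have a1 : 0 < Real.cosh (2 * t) + 1 := by
    have := Real.cosh_pos (2 * t)
    linarith
  rw [integral_congr_ae hae, b3, b2, b1, hc, integral_P_mul, h0, Real.log_div two_ne_zero a1.ne']

/-- **the cloud `P` neutralises a row**: `P * V = v` at every real point -/
theorem conv_V (t : ℝ) : Integrable (fun s => P s * V (t - s)) ∧ ∫ s, P s * V (t - s) = v t := by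
  obtain ⟨i1, e1⟩ := conv_w t
  obtain ⟨i2, e2⟩ := conv_g t
  have hae : (fun s => P s * V (t - s)) =ᵐ[volume] fun s =>
      - (P s * Real.log (w (t - s))) - P s * Real.log (g (t - s)) := by
    filter_upwards [ae_ne t] with s hs
    rw [V_eq hs]
    ring
  refine ⟨(i1.neg.sub i2).congr hae.symm, ?_⟩
  have b1 := integral_sub i1.neg i2
  have b2 := integral_neg (μ := volume) (fun s => P s * Real.log (w (t - s)))
  simp only [Pi.neg_apply] at b1
  have a1 : 0 < Real.cosh (2 * t) + 1 := by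
    have := Real.cosh_pos (2 * t)
    linarith
  rw [integral_congr_ae hae, b1, b2, e1, e2, v, Real.log_div (cm_r t).ne' two_ne_zero,
    Real.log_div two_ne_zero a1.ne', Real.log_div a1.ne' (cm_r t).ne']
  ring

/-! ### complex pair functions and offsets -/

/-- same species -/
def q (z : ℂ) : ℂ := -(Complex.sin z ^ 2 * Complex.cos (2 * z) / (Complex.cos (2 * z) - r))

/-- cross species -/
def qg (z : ℂ) : ℂ := 4 * Complex.cos z ^ 2 / (Complex.cos (2 * z) + r) ^ 2

/-- own row: `1 / (cos 2z - r)` up to a constant; `ro j t = log |cos 2z - r|`, `z = j l + i t` -/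
def ro (j t : ℝ) : ℝ := (h t ((3 - j) * l) + h t ((5 - j) * l)) / 2

/-- `log |q (j l + i t)|` -/
def lq (j t : ℝ) : ℝ := h t ((4 - j) * l) + (h t ((2 - j) * l) + h t ((2 + j) * l)) / 2 - ro j t -
  Real.log 2

/-- `log |q_g (j l + i t)|` -/
def lqg (j t : ℝ) : ℝ := Real.log 2 + h t (j * l) - (h t (j * l + l) + h t (j * l - l))

lemma norm_sin_sq (x y : ℝ) : ‖Complex.sin (x + y * I)‖ ^ 2 =
    (Real.cosh (2 * y) - Real.cos (2 * x)) / 2 := by
  have h1 : Complex.sin (x + y * I) = ((Real.sin x * Real.cosh y : ℝ) : ℂ) +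
      ((Real.cos x * Real.sinh y : ℝ) : ℂ) * I := by
    rw [Complex.sin_add, Complex.cos_mul_I, Complex.sin_mul_I]
    push_cast
    ring
  rw [h1, ← Complex.normSq_eq_norm_sq, Complex.normSq_add_mul_I, Real.cosh_two_mul,
    Real.cos_two_mul]
  have e1 := Real.cosh_sq y
  have e2 := Real.sin_sq_add_cos_sq x
  linear_combination (Real.sin x ^ 2 - 1 / 2) * e1 + Real.sinh y ^ 2 * e2 + e2

lemma norm_cos_sq (x y : ℝ) : ‖Complex.cos (x + y * I)‖ ^ 2 =
    (Real.cosh (2 * y) + Real.cos (2 * x)) / 2 := by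
  have h1 := norm_sin_sq (x + Real.pi / 2) y
  have e1 : ((x + Real.pi / 2 : ℝ) : ℂ) + y * I = (x + y * I) + Real.pi / 2 := by
    push_cast; ring
  rw [e1, Complex.sin_add_pi_div_two] at h1
  rw [h1, show 2 * (x + Real.pi / 2) = 2 * x + Real.pi by ring, Real.cos_add_pi]
  ring

lemma log_norm_sin {x y : ℝ} (hn : Complex.sin (x + y * I) ≠ 0) :
    2 * Real.log ‖Complex.sin (x + y * I)‖ = h y (4 * l - x) - Real.log 2 := by
  have h1 := norm_sin_sq x y
  have h2 : 0 < ‖Complex.sin (x + y * I)‖ := norm_pos_iff.2 hn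
  have h3 : 0 < Real.cosh (2 * y) - Real.cos (2 * x) := by
    have : 0 < ‖Complex.sin (x + y * I)‖ ^ 2 := by positivity
    linarith
  have h4 : 2 * Real.log ‖Complex.sin (x + y * I)‖ = Real.log (‖Complex.sin (x + y * I)‖ ^ 2) := by
    rw [Real.log_pow]
    push_cast
    ring
  rw [h4, h1, Real.log_div h3.ne' two_ne_zero]
  unfold h l
  rw [show 2 * (4 * (Real.pi / 8) - x) = Real.pi - 2 * x by ring, Real.cos_pi_sub, ← sub_eq_add_neg]

lemma log_norm_cos {x y : ℝ} (hn : Complex.cos (x + y * I) ≠ 0) :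
    2 * Real.log ‖Complex.cos (x + y * I)‖ = h y x - Real.log 2 := by
  have h1 := norm_cos_sq x y
  have h2 : 0 < ‖Complex.cos (x + y * I)‖ := norm_pos_iff.2 hn
  have h3 : 0 < Real.cosh (2 * y) + Real.cos (2 * x) := by
    have : 0 < ‖Complex.cos (x + y * I)‖ ^ 2 := by positivity
    linarith
  have h4 : 2 * Real.log ‖Complex.cos (x + y * I)‖ = Real.log (‖Complex.cos (x + y * I)‖ ^ 2) := by
    rw [Real.log_pow]
    push_cast
    ring
  rw [h4, h1, Real.log_div h3.ne' two_ne_zero]
  rfl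

lemma cos2_fac (z : ℂ) : Complex.cos (2 * z) =
    2 * (Complex.cos (z + 2 * l) * Complex.cos (z - 2 * l)) := by
  rw [il, Complex.cos_add, Complex.cos_sub, Complex.cos_two_mul]
  have e : (2 * (Real.pi / 8) : ℂ) = ((Real.pi / 4 : ℝ) : ℂ) := by push_cast; ring
  rw [e, ← Complex.ofReal_cos, ← Complex.ofReal_sin, Real.cos_pi_div_four, Real.sin_pi_div_four]
  have h2 : ((√2 / 2 : ℝ) : ℂ) * ((√2 / 2 : ℝ) : ℂ) = 1 / 2 := by
    rw [← Complex.ofReal_mul]
    have : √2 / 2 * (√2 / 2) = (1 / 2 : ℝ) := by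
      have := Real.mul_self_sqrt (show (0:ℝ) ≤ 2 by norm_num)
      linarith
    rw [this]
    push_cast
    ring
  have h3 := Complex.sin_sq_add_cos_sq z
  linear_combination (-2) * (Complex.cos z ^ 2 - Complex.sin z ^ 2) * h2 + h3

lemma cosr : ((r : ℝ) : ℂ) = 2 * Complex.cos l ^ 2 - 1 := by
  have h1 := Complex.cos_two_mul (l : ℂ)
  rw [← h1, il]
  have e : (2 * (Real.pi / 8) : ℂ) = ((Real.pi / 4 : ℝ) : ℂ) := by push_cast; ring
  rw [e, ← Complex.ofReal_cos, ← r_eq]

lemma cosm_fac (z : ℂ) : Complex.cos (2 * z) - r =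
    -2 * (Complex.sin (z + l) * Complex.sin (z - l)) := by
  rw [cosr, Complex.sin_add, Complex.sin_sub, Complex.cos_two_mul]
  have h1 := Complex.sin_sq_add_cos_sq z
  have h2 := Complex.sin_sq_add_cos_sq (l : ℂ)
  linear_combination (2 * Complex.cos l ^ 2) * h1 - (2 * Complex.cos z ^ 2) * h2

lemma cosp_fac (z : ℂ) : Complex.cos (2 * z) + r =
    2 * (Complex.cos (z + l) * Complex.cos (z - l)) := by
  rw [cosr, Complex.cos_add, Complex.cos_sub, Complex.cos_two_mul]
  have h1 := Complex.sin_sq_add_cos_sq z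
  have h2 := Complex.sin_sq_add_cos_sq (l : ℂ)
  linear_combination (2 * Complex.sin l ^ 2) * h1 + (2 * (1 - Complex.cos z ^ 2)) * h2

lemma sin_ne {x y : ℝ} (hy : y ≠ 0) : Complex.sin (x + y * I) ≠ 0 := by
  intro e
  have h1 := norm_sin_sq x y
  rw [e, norm_zero] at h1
  have h2 := Real.cos_le_one (2 * x)
  have h3 : 1 < Real.cosh (2 * y) := Real.one_lt_cosh.2 (by simpa using hy)
  norm_num at h1
  linarith

lemma cos_ne {x y : ℝ} (hy : y ≠ 0) : Complex.cos (x + y * I) ≠ 0 := by
  intro e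
  have h1 := norm_cos_sq x y
  rw [e, norm_zero] at h1
  have h2 := Real.neg_one_le_cos (2 * x)
  have h3 : 1 < Real.cosh (2 * y) := Real.one_lt_cosh.2 (by simpa using hy)
  norm_num at h1
  linarith

/-- the point at offset `j` and height `t` -/
def zj (j t : ℝ) : ℂ := ((j * l : ℝ) : ℂ) + t * I

lemma zj_add (j t a : ℝ) : zj j t + (a * l : ℝ) = zj (j + a) t := by
  unfold zj
  push_cast
  ring

/-- `2 log |sin|` at offset `j` -/
lemma ls {j t : ℝ} (ht : t ≠ 0) : 2 * Real.log ‖Complex.sin (zj j t)‖ =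
    h t ((4 - j) * l) - Real.log 2 := by
  unfold zj
  rw [log_norm_sin (sin_ne ht), show 4 * l - j * l = (4 - j) * l by ring]

lemma lc {j t : ℝ} (ht : t ≠ 0) : 2 * Real.log ‖Complex.cos (zj j t)‖ =
    h t (j * l) - Real.log 2 := by
  unfold zj
  rw [log_norm_cos (cos_ne ht)]

lemma zsin_ne {j t : ℝ} (ht : t ≠ 0) : Complex.sin (zj j t) ≠ 0 := sin_ne ht

lemma zcos_ne {j t : ℝ} (ht : t ≠ 0) : Complex.cos (zj j t) ≠ 0 := cos_ne ht

lemma log_cos2 {j t : ℝ} (ht : t ≠ 0) : Complex.cos (2 * zj j t) ≠ 0 ∧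
    Real.log ‖Complex.cos (2 * zj j t)‖ = (h t ((2 - j) * l) + h t ((2 + j) * l)) / 2 := by
  have e1 : zj j t + 2 * l = zj (j + 2) t := by rw [← zj_add]; push_cast; ring
  have e2 : zj j t - 2 * l = zj (j - 2) t := by rw [sub_eq_add_neg j, ← zj_add]; push_cast; ring
  have n1 := zcos_ne (j := j + 2) ht
  have n2 := zcos_ne (j := j - 2) ht
  have m1 := norm_pos_iff.2 n1
  have m2 := norm_pos_iff.2 n2
  have l1 := lc (j := j + 2) ht
  have l2 := lc (j := j - 2) ht
  rw [cos2_fac, e1, e2]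
  refine ⟨mul_ne_zero two_ne_zero (mul_ne_zero n1 n2), ?_⟩
  rw [norm_mul, norm_mul, Complex.norm_ofNat, Real.log_mul two_ne_zero (by positivity),
    Real.log_mul m1.ne' m2.ne']
  rw [show (j - 2) * l = -((2 - j) * l) by ring, h_neg_right] at l2
  rw [show (j + 2) * l = (2 + j) * l by ring] at l1
  linarith

lemma log_cosm {j t : ℝ} (ht : t ≠ 0) : Complex.cos (2 * zj j t) - r ≠ 0 ∧
    Real.log ‖Complex.cos (2 * zj j t) - r‖ = ro j t := by
  have e1 : zj j t + l = zj (j + 1) t := by rw [← zj_add]; push_cast; ring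
  have e2 : zj j t - l = zj (j - 1) t := by rw [sub_eq_add_neg j, ← zj_add]; push_cast; ring
  have n1 := zsin_ne (j := j + 1) ht
  have n2 := zsin_ne (j := j - 1) ht
  have m1 := norm_pos_iff.2 n1
  have m2 := norm_pos_iff.2 n2
  have l1 := ls (j := j + 1) ht
  have l2 := ls (j := j - 1) ht
  rw [cosm_fac, e1, e2]
  refine ⟨mul_ne_zero (by norm_num) (mul_ne_zero n1 n2), ?_⟩
  rw [norm_mul, norm_mul, norm_neg, Complex.norm_ofNat, Real.log_mul two_ne_zero (by positivity),
    Real.log_mul m1.ne' m2.ne']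
  rw [show (4 - (j - 1)) * l = (5 - j) * l by ring] at l2
  rw [show (4 - (j + 1)) * l = (3 - j) * l by ring] at l1
  unfold ro
  linarith

lemma log_cosp {j t : ℝ} (ht : t ≠ 0) : Complex.cos (2 * zj j t) + r ≠ 0 ∧
    2 * Real.log ‖Complex.cos (2 * zj j t) + r‖ = h t (j * l + l) + h t (j * l - l) := by
  have e1 : zj j t + l = zj (j + 1) t := by rw [← zj_add]; push_cast; ring
  have e2 : zj j t - l = zj (j - 1) t := by rw [sub_eq_add_neg j, ← zj_add]; push_cast; ring
  have n1 := zcos_ne (j := j + 1) ht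
  have n2 := zcos_ne (j := j - 1) ht
  have m1 := norm_pos_iff.2 n1
  have m2 := norm_pos_iff.2 n2
  have l1 := lc (j := j + 1) ht
  have l2 := lc (j := j - 1) ht
  rw [cosp_fac, e1, e2]
  refine ⟨mul_ne_zero two_ne_zero (mul_ne_zero n1 n2), ?_⟩
  rw [norm_mul, norm_mul, Complex.norm_ofNat, Real.log_mul two_ne_zero (by positivity),
    Real.log_mul m1.ne' m2.ne']
  rw [show (j - 1) * l = j * l - l by ring] at l2
  rw [show (j + 1) * l = j * l + l by ring] at l1
  linarith

theorem log_q {j t : ℝ} (ht : t ≠ 0) : q (zj j t) ≠ 0 ∧ Real.log ‖q (zj j t)‖ = lq j t := by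
  obtain ⟨n1, l1⟩ := log_cos2 (j := j) ht
  obtain ⟨n2, l2⟩ := log_cosm (j := j) ht
  have n3 := zsin_ne (j := j) ht
  have l3 := ls (j := j) ht
  have m1 := norm_pos_iff.2 n1
  have m2 := norm_pos_iff.2 n2
  have m3 := norm_pos_iff.2 n3
  unfold q
  refine ⟨neg_ne_zero.2 (div_ne_zero (mul_ne_zero (pow_ne_zero 2 n3) n1) n2), ?_⟩
  rw [norm_neg, norm_div, norm_mul, norm_pow, Real.log_div (by positivity) m2.ne',
    Real.log_mul (by positivity) m1.ne', Real.log_pow, l1, l2]
  unfold lq
  push_cast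
  linarith

theorem log_qg {j t : ℝ} (ht : t ≠ 0) : qg (zj j t) ≠ 0 ∧ Real.log ‖qg (zj j t)‖ = lqg j t := by
  obtain ⟨n2, l2⟩ := log_cosp (j := j) ht
  have n3 := zcos_ne (j := j) ht
  have l3 := lc (j := j) ht
  have m2 := norm_pos_iff.2 n2
  have m3 := norm_pos_iff.2 n3
  unfold qg
  refine ⟨div_ne_zero (mul_ne_zero (by norm_num) (pow_ne_zero 2 n3)) (pow_ne_zero 2 n2), ?_⟩
  have e4 : Real.log 4 = 2 * Real.log 2 := by
    rw [show (4:ℝ) = 2 ^ 2 by norm_num, Real.log_pow]
    push_cast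
    ring
  rw [norm_div, norm_mul, norm_pow, norm_pow, Complex.norm_ofNat,
    Real.log_div (by positivity) (by positivity), Real.log_mul (by norm_num) (by positivity),
    Real.log_pow, Real.log_pow, e4]
  unfold lqg
  push_cast
  linarith

/-- the cloud of one row of the same species, seen from an object at offset `2 ≤ j ≤ 3` -/
theorem conv_q {j : ℝ} (h2 : 2 ≤ j) (h3 : j ≤ 3) (t : ℝ) :
    Integrable (fun s => P s * lq j (t - s)) ∧ ∫ s, P s * lq j (t - s) = ro j t - Real.log 2 := by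
  have hl := l_pos
  have j1 := Ph_integrable t ((4 - j) * l)
  have j2 := Ph_integrable t ((2 - j) * l)
  have j3 := Ph_integrable t ((2 + j) * l)
  have j4 := Ph_integrable t ((3 - j) * l)
  have j5 := Ph_integrable t ((5 - j) * l)
  have j6 : Integrable fun s => P s * Real.log 2 := P_integrable.mul_const _
  have hae : ∀ s, P s * lq j (t - s) = P s * h (t - s) ((4 - j) * l) +
      (1 / 2) * (P s * h (t - s) ((2 - j) * l)) + (1 / 2) * (P s * h (t - s) ((2 + j) * l)) -
      (1 / 2) * (P s * h (t - s) ((3 - j) * l)) - (1 / 2) * (P s * h (t - s) ((5 - j) * l)) -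
        P s * Real.log 2 := by
    intro s
    unfold lq ro
    ring
  have k1 := j1.add (j2.const_mul (1 / 2))
  have k2 := k1.add (j3.const_mul (1 / 2))
  have k3 := k2.sub (j4.const_mul (1 / 2))
  have k4 := k3.sub (j5.const_mul (1 / 2))
  refine ⟨(k4.sub j6).congr (Eventually.of_forall fun s => (hae s).symm), ?_⟩
  have b1 := integral_add j1 (j2.const_mul (1 / 2))
  have b2 := integral_add k1 (j3.const_mul (1 / 2))
  have b3 := integral_sub k2 (j4.const_mul (1 / 2))
  have b4 := integral_sub k3 (j5.const_mul (1 / 2))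
  have b5 := integral_sub k4 j6
  simp only [Pi.add_apply, Pi.sub_apply] at b1 b2 b3 b4 b5
  have hc1 := conv_h t (y := (3 - j) * l) (by
    rw [abs_of_nonneg (by nlinarith)]
    nlinarith)
  have hc2 := conv_h t (y := (5 - j) * l) (by
    rw [abs_of_nonneg (by nlinarith)]
    nlinarith)
  rw [show (3 - j) * l + l = (4 - j) * l by ring, show (3 - j) * l - l = (2 - j) * l by ring] at hc1
  have e6 : H t ((5 - j) * l + l) = H t ((2 + j) * l) := by
    rw [← H_neg_right, ← H_per]
    congr 1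
    ring
  rw [e6, show (5 - j) * l - l = (4 - j) * l by ring] at hc2
  simp_rw [hae]
  rw [b5, b4, b3, b2, b1, integral_const_mul, integral_const_mul, integral_const_mul,
    integral_const_mul, integral_P_mul]
  unfold H at hc1 hc2
  unfold ro
  linarith

/-- the cloud of one row of the other species, seen from an object at offset `|j| ≤ 3` -/
theorem conv_qg {j : ℝ} (hj : |j| ≤ 3) (t : ℝ) :
    Integrable (fun s => P s * lqg j (t - s)) ∧ ∫ s, P s * lqg j (t - s) = Real.log 2 - h t (j * l) := by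
  have hl := l_pos
  have j1 := Ph_integrable t (j * l + l)
  have j2 := Ph_integrable t (j * l - l)
  have j3 := Ph_integrable t (j * l)
  have j4 : Integrable fun s => P s * Real.log 2 := P_integrable.mul_const _
  have hae : ∀ s, P s * lqg j (t - s) = P s * Real.log 2 -
      (P s * h (t - s) (j * l + l) + P s * h (t - s) (j * l - l) - P s * h (t - s) (j * l)) := by
    intro s
    unfold lqg
    ring
  refine ⟨(j4.sub ((j1.add j2).sub j3)).congr (Eventually.of_forall fun s => (hae s).symm), ?_⟩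
  have b1 := integral_add j1 j2
  have b2 := integral_sub (j1.add j2) j3
  have b3 := integral_sub j4 ((j1.add j2).sub j3)
  simp only [Pi.add_apply, Pi.sub_apply] at b1 b2 b3
  have hc := conv_h t (y := j * l) (by
    rw [abs_mul, abs_of_pos hl]
    exact mul_le_mul_of_nonneg_right hj hl.le)
  unfold H at hc
  simp_rw [hae]
  rw [b3, b2, b1, hc, integral_P_mul]

end

end NUMF
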