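import Pool.Agent.NUP.MF.Strip

/-!
# Derivatives of the density in the strip (Cauchy estimates)
-/

set_option autoImplicit false

open MeasureTheory Set Filter Topology Complex

namespace NUMF

noncomputable section

/-- all derivatives of `Pc` decay like `exp (-(8/3)|Re z|)` in every closed strip -/
theorem Pc_deriv_exp {b : ℝ} (hb0 : 0 ≤ b) (hb : b < l) (n : ℕ) : ∃ C : ℝ, 0 ≤ C ∧ ∀ z : ℂ, |z.im| ≤ b →
    ‖iteratedDeriv n Pc z‖ ≤ C * Real.exp (-(8 / 3) * |z.re|) := by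
  have hsp : 0 < √3 * Real.pi := mul_pos sq3_pos Real.pi_pos
  set R := (l - b) / 2 with hR
  have hR0 : 0 < R := by rw [hR]; linarith
  have hbR : b + R < l := by rw [hR]; linarith
  have hkb : 0 < kb (b + R) := kb_pos (by rw [abs_of_nonneg (by linarith)]; exact hbR)
  set C0 := 16 / (√3 * Real.pi * kb (b + R)) with hC0
  have hC0p : 0 < C0 := by rw [hC0]; positivity
  refine ⟨n.factorial * (C0 * Real.exp (8 / 3 * R)) / R ^ n, by positivity, fun z hz => ?_⟩
  have him : ∀ w ∈ Metric.closedBall z R, |w.im| ≤ b + R := by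
    intro w hw
    have h1 : |w.im - z.im| ≤ R := by
      have h2 := Complex.abs_im_le_norm (w - z)
      rw [Complex.sub_im] at h2
      exact h2.trans (by simpa [dist_eq_norm] using hw)
    have h3 : |w.im| ≤ |w.im - z.im| + |z.im| := by
      have := abs_add_le (w.im - z.im) z.im
      simpa using this
    linarith
  have hre : ∀ w ∈ Metric.closedBall z R, |z.re| - R ≤ |w.re| := by
    intro w hw
    have h1 : |w.re - z.re| ≤ R := by
      have h2 := Complex.abs_re_le_norm (w - z)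
      rw [Complex.sub_re] at h2
      exact h2.trans (by simpa [dist_eq_norm] using hw)
    have h3 : |z.re| ≤ |w.re - z.re| + |w.re| := by
      have h4 := abs_add_le (z.re - w.re) w.re
      rw [abs_sub_comm z.re w.re] at h4
      simpa using h4
    linarith
  have hdiff : DiffContOnCl ℂ Pc (Metric.ball z R) := by
    have hd : DifferentiableOn ℂ Pc (closure (Metric.ball z R)) := by
      rw [closure_ball z hR0.ne']
      intro w hw
      exact (Pc_diff (lt_of_le_of_lt (him w hw) hbR)).differentiableWithinAt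
    exact hd.diffContOnCl
  have hbd : ∀ w ∈ Metric.sphere z R, ‖Pc w‖ ≤ C0 * Real.exp (8 / 3 * R) * Real.exp (-(8 / 3) * |z.re|) := by
    intro w hw
    have hw' := Metric.sphere_subset_closedBall hw
    have h1 := Pc_bound hbR (him w hw')
    have h2 := hre w hw'
    calc ‖Pc w‖ ≤ C0 * Real.exp (-(8 / 3) * |w.re|) := h1
      _ ≤ C0 * Real.exp (8 / 3 * R + -(8 / 3) * |z.re|) := by
          gcongr
          linarith
      _ = _ := by rw [Real.exp_add]; ring
  have h := Complex.norm_iteratedDeriv_le_of_forall_mem_sphere_norm_le n hR0 hdiff hbd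
  calc _ ≤ _ := h
    _ = _ := by ring

/-- all derivatives of `Pc` are dominated by `P (Re z)` -/
theorem Pc_deriv_P {b : ℝ} (hb0 : 0 ≤ b) (hb : b < l) (n : ℕ) : ∃ C : ℝ, 0 ≤ C ∧ ∀ z : ℂ, |z.im| ≤ b →
    ‖iteratedDeriv n Pc z‖ ≤ C * P z.re := by
  obtain ⟨C, hC, h⟩ := Pc_deriv_exp hb0 hb n
  have hsp : 0 < √3 * Real.pi := mul_pos sq3_pos Real.pi_pos
  refine ⟨C * (√3 * Real.pi / 4), by positivity, fun z hz => ?_⟩
  have h1 := le_P z.re
  calc ‖iteratedDeriv n Pc z‖ ≤ C * Real.exp (-(8 / 3) * |z.re|) := h z hz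
    _ = C * (√3 * Real.pi / 4) * (4 / (√3 * Real.pi) * Real.exp (-(8 / 3) * |z.re|)) := by
        have := hsp.ne'
        have := sq3_pos.ne'
        have := Real.pi_ne_zero
        field_simp
    _ ≤ _ := by gcongr

theorem Pc_norm_P {b : ℝ} (hb0 : 0 ≤ b) (hb : b < l) : ∃ C : ℝ, 0 ≤ C ∧ ∀ z : ℂ, |z.im| ≤ b →
    ‖Pc z‖ ≤ C * P z.re := by
  obtain ⟨C, hC, h⟩ := Pc_deriv_P hb0 hb 0
  exact ⟨C, hC, fun z hz => by simpa using h z hz⟩

theorem Pc_deriv1_P {b : ℝ} (hb0 : 0 ≤ b) (hb : b < l) : ∃ C : ℝ, 0 ≤ C ∧ ∀ z : ℂ, |z.im| ≤ b →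
    ‖deriv Pc z‖ ≤ C * P z.re := by
  obtain ⟨C, hC, h⟩ := Pc_deriv_P hb0 hb 1
  exact ⟨C, hC, fun z hz => by simpa using h z hz⟩

theorem Pc_deriv2_P {b : ℝ} (hb0 : 0 ≤ b) (hb : b < l) : ∃ C : ℝ, 0 ≤ C ∧ ∀ z : ℂ, |z.im| ≤ b →
    ‖deriv (deriv Pc) z‖ ≤ C * P z.re := by
  obtain ⟨C, hC, h⟩ := Pc_deriv_P hb0 hb 2
  refine ⟨C, hC, fun z hz => ?_⟩
  have := h z hz
  rwa [iteratedDeriv_succ, iteratedDeriv_one] at this

theorem Pc_deriv3_P {b : ℝ} (hb0 : 0 ≤ b) (hb : b < l) : ∃ C : ℝ, 0 ≤ C ∧ ∀ z : ℂ, |z.im| ≤ b →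
    ‖deriv (deriv (deriv Pc)) z‖ ≤ C * P z.re := by
  obtain ⟨C, hC, h⟩ := Pc_deriv_P hb0 hb 3
  refine ⟨C, hC, fun z hz => ?_⟩
  have := h z hz
  rwa [iteratedDeriv_succ, iteratedDeriv_succ, iteratedDeriv_one] at this

/-- `Pc` is analytic on the open strip -/
theorem Pc_analyticAt {z : ℂ} (hz : |z.im| < l) : AnalyticAt ℂ Pc z := by
  have hop : IsOpen {z : ℂ | |z.im| < l} :=
    isOpen_lt (continuous_abs.comp Complex.continuous_im) continuous_const
  have hd : DifferentiableOn ℂ Pc {z : ℂ | |z.im| < l} := fun w hw => (Pc_diff hw).differentiableWithinAt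
  exact hd.analyticAt (hop.mem_nhds hz)

theorem Gc_analyticAt {z : ℂ} (hz : |z.im| < l) : AnalyticAt ℂ Gc z := by
  have hop : IsOpen {z : ℂ | |z.im| < l} :=
    isOpen_lt (continuous_abs.comp Complex.continuous_im) continuous_const
  have hd : DifferentiableOn ℂ Gc {z : ℂ | |z.im| < l} := fun w hw => (Gc_diff hw).differentiableWithinAt
  exact hd.analyticAt (hop.mem_nhds hz)

end

end NUMF
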