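import Pool.Agent.NUP.MF.StrPsi

/-!
# Bounds of the mean field weights

* `Ag_ge_P`: `(3π/4) sin (π a / 3) P t ≤ Ag a t` for `0 ≤ a ≤ .31`;
* `Ag_lip`, `Ag_le`: Lipschitz bound and decay.
-/

set_option autoImplicit false

open MeasureTheory Set Filter Topology Complex

namespace NUMF

noncomputable section

lemma artanh_ge {x : ℝ} (h0 : 0 ≤ x) (h1 : x < 1) :
    x + x ^ 3 / 3 ≤ (Real.log (1 + x) - Real.log (1 - x)) / 2 := by
  have h2 := Real.hasSum_log_sub_log_of_abs_lt_one (x := x) (by rw [abs_of_nonneg h0]; exact h1)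
  have h3 := sum_le_hasSum (Finset.range 2) (fun k _ => by positivity) h2
  rw [Finset.sum_range_succ, Finset.sum_range_succ, Finset.sum_range_zero] at h3
  norm_num at h3
  linarith

lemma key_weight {u B q : ℝ} (hu : 0 ≤ u) (hB : 3 ≤ B) (hq : 0 ≤ q) (h1 : u ^ 2 = 3 * (B + 1) * q)
    (h2 : 2 * B * q + q ^ 2 ≤ B) : u / B ≤ u / (B + q) + (u / (B + q)) ^ 3 / 3 := by
  have hBq : 0 < B + q := by linarith
  have hB0 : 0 < B := by linarith
  have e : u / (B + q) + (u / (B + q)) ^ 3 / 3 - u / B =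
      u * (q * (B - 2 * B * q - q ^ 2)) / (B * (B + q) ^ 3) := by
    field_simp
    linear_combination (B * u) * h1
  have h3 : 0 ≤ u * (q * (B - 2 * B * q - q ^ 2)) / (B * (B + q) ^ 3) := by
    apply div_nonneg
    · exact mul_nonneg hu (mul_nonneg hq (by linarith))
    · positivity
  linarith

/-- **exact comparison with the density** -/
theorem Ag_ge_P {a : ℝ} (h0 : 0 ≤ a) (h1 : a ≤ 31 / 100) (t : ℝ) :
    3 * Real.pi / 4 * Real.sin (8 / 3 * (a * l)) * P t ≤ Ag a t := by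
  have hpi := Real.pi_pos
  have ha : |a| < 1 := by rw [abs_of_nonneg h0]; linarith
  have hs0 := sin_ag_nonneg h0 (by linarith)
  have h3 := sq3_pos
  have hC := Real.one_le_cosh (8 / 3 * t)
  set s := Real.sin (8 / 3 * (a * l)) with hs
  set C := Real.cosh (8 / 3 * t) with hCd
  have hsx : s ≤ 8 / 3 * (a * l) := Real.sin_le (by have := l_pos; positivity)
  have hx : 8 / 3 * (a * l) ≤ 325 / 1000 := by
    have : 8 / 3 * (a * l) = a * Real.pi / 3 := by unfold l; ring
    rw [this]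
    have := Real.pi_lt_d4
    nlinarith
  have hs1 : s ≤ 325 / 1000 := hsx.trans hx
  have hcs : Real.cos (8 / 3 * (a * l)) ^ 2 = 1 - s ^ 2 := by
    have := Real.sin_sq_add_cos_sq (8 / 3 * (a * l))
    rw [← hs] at this
    linarith
  set B := 4 * C ^ 2 - 1 with hB
  set q := 4 * s ^ 2 with hq
  set u := 4 * √3 * C * s with hu
  have hB3 : 3 ≤ B := by rw [hB]; nlinarith
  have hq0 : 0 ≤ q := by rw [hq]; positivity
  have hu0 : 0 ≤ u := by rw [hu]; positivity
  have hqs : q ≤ 423 / 1000 := by rw [hq]; nlinarith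
  have e1 : u ^ 2 = 3 * (B + 1) * q := by
    rw [hu, hB, hq, mul_pow, mul_pow, mul_pow, Real.sq_sqrt (by norm_num : (0:ℝ) ≤ 3)]
    ring
  have e2 : 2 * B * q + q ^ 2 ≤ B := by nlinarith
  have k1 := key_weight hu0 hB3 hq0 e1 e2
  have hD : Dg a t = (B + q) / 3 := by
    unfold Dg
    rw [hcs, hB, hq]
    ring
  have hE : Eg a t = u / 3 := by
    have h4 : 4 / √3 = 4 * √3 / 3 := by
      rw [div_eq_div_iff h3.ne' (by norm_num)]
      linear_combination (-4) * sq3
    unfold Eg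
    rw [hu, ← hCd, ← hs, h4]
    ring
  obtain ⟨d1, d2⟩ := Dg_pm ha t
  have hDp : 0 < Dg a t := by rw [hD]; linarith
  have hxr : Eg a t / Dg a t = u / (B + q) := by
    rw [hD, hE]
    have : B + q ≠ 0 := by linarith
    field_simp
  have k2 := artanh_ge (x := Eg a t / Dg a t) (div_nonneg (by rw [hE]; positivity) hDp.le)
    (by rw [div_lt_one hDp]; linarith)
  have e3 : 1 + Eg a t / Dg a t = (Dg a t + Eg a t) / Dg a t := by field_simp
  have e4 : 1 - Eg a t / Dg a t = (Dg a t - Eg a t) / Dg a t := by field_simp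
  rw [e3, e4, Real.log_div d2.ne' hDp.ne', Real.log_div d1.ne' hDp.ne', hxr] at k2
  rw [Ag_closed ha]
  have k3 : 3 * Real.pi / 4 * s * P t = u / B := by
    unfold P ch
    rw [← hCd, hB, hu]
    have h5 : 3 * Real.pi / 4 * (16 / (√3 * Real.pi)) = 4 * √3 := by
      have h6 : 16 / (√3 * Real.pi) = 16 * √3 / (3 * Real.pi) := by
        rw [div_eq_div_iff (by positivity) (by positivity)]
        linear_combination (-16 * Real.pi) * sq3
      rw [h6]
      field_simp
      norm_num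
    calc 3 * Real.pi / 4 * s * (16 / (√3 * Real.pi) * (C / (4 * C ^ 2 - 1))) =
        (3 * Real.pi / 4 * (16 / (√3 * Real.pi))) * C * s / (4 * C ^ 2 - 1) := by ring
      _ = _ := by rw [h5]
  rw [k3]
  linarith

/-- constant of `Pc_bound` -/
def Kb (b : ℝ) : ℝ := 16 / (√3 * Real.pi * kb b)

lemma Kb_pos {b : ℝ} (h0 : 0 ≤ b) (h1 : b < l) : 0 < Kb b := by
  unfold Kb
  have h2 := kb_pos (b := b) (by rw [abs_of_nonneg h0]; exact h1)
  have h3 := sq3_pos
  have h4 := Real.pi_pos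
  positivity

/-- Lipschitz bound of `Gc` in the closed strip -/
lemma Gc_lip {b : ℝ} (hb : b < l) {z z' : ℂ} (hz : |z.im| ≤ b) (hz' : |z'.im| ≤ b) :
    ‖Gc z' - Gc z‖ ≤ Kb b * Real.exp (8 / 3 * |z'.re - z.re|) * Real.exp (-(8 / 3) * |z.re|) * ‖z' - z‖ := by
  have hb0 : 0 ≤ b := (abs_nonneg _).trans hz
  have hK := Kb_pos hb0 hb
  have hconv : Convex ℝ {u : ℂ | |u.im| ≤ b} := by
    have h1 : {u : ℂ | |u.im| ≤ b} = Complex.imLm ⁻¹' (Icc (-b) b) := by
      ext u
      simp [abs_le]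
    rw [h1]
    exact (convex_Icc _ _).linear_preimage Complex.imLm
  have hseg : segment ℝ z z' ⊆ {u : ℂ | |u.im| ≤ b} := hconv.segment_subset hz hz'
  have h2 : ∀ u ∈ segment ℝ z z', HasDerivWithinAt Gc (Pc u) (segment ℝ z z') u := fun u hu =>
    (hasDerivAt_Gc (lt_of_le_of_lt (hseg hu) hb)).hasDerivWithinAt
  have h3 : ∀ u ∈ segment ℝ z z', ‖Pc u‖ ≤
      Kb b * Real.exp (8 / 3 * |z'.re - z.re|) * Real.exp (-(8 / 3) * |z.re|) := by
    intro u hu
    have h4 := Pc_bound hb (hseg hu)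
    obtain ⟨θ, hθ, rfl⟩ := (segment_eq_image_lineMap ℝ z z') ▸ hu
    have h5 : |z.re| ≤ |(AffineMap.lineMap z z' θ : ℂ).re| + |z'.re - z.re| := by
      have e : (AffineMap.lineMap z z' θ : ℂ).re = z.re + θ * (z'.re - z.re) := by
        simp [AffineMap.lineMap_apply]
        ring
      rw [e]
      have h6 : |z.re| ≤ |z.re + θ * (z'.re - z.re)| + |θ * (z'.re - z.re)| := by
        have := abs_sub (z.re + θ * (z'.re - z.re)) (θ * (z'.re - z.re))
        rw [add_sub_cancel_right] at this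
        exact this
      have h7 : |θ * (z'.re - z.re)| ≤ |z'.re - z.re| := by
        rw [abs_mul, abs_of_nonneg hθ.1]
        have := abs_nonneg (z'.re - z.re)
        nlinarith [hθ.2]
      linarith
    refine h4.trans ?_
    unfold Kb at hK ⊢
    rw [mul_assoc _ (Real.exp _) (Real.exp _), ← Real.exp_add]
    refine mul_le_mul_of_nonneg_left (Real.exp_le_exp.2 ?_) hK.le
    linarith
  exact Convex.norm_image_sub_le_of_norm_hasDerivWithin_le h2 h3 (convex_segment z z')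
    (left_mem_segment ℝ z z') (right_mem_segment ℝ z z')

/-- Lipschitz bound of the weights -/
theorem Ag_lip {b : ℝ} (hb : b < l) {a a' : ℝ} (ha : |a * l| ≤ b) (ha' : |a' * l| ≤ b) (t t' : ℝ) :
    |Ag a' t' - Ag a t| ≤ 2 * Real.pi * (Kb b * Real.exp (8 / 3 * |t' - t|) * Real.exp (-(8 / 3) * |t|)) *
      (|t' - t| + |a' - a| * l) := by
  have hb0 : 0 ≤ b := (abs_nonneg _).trans ha
  have hK := Kb_pos hb0 hb
  have h1 := Gc_lip hb (z := (t : ℂ) + (a * l : ℝ) * I) (z' := (t' : ℂ) + (a' * l : ℝ) * I)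
    (by rw [zi_im]; exact ha) (by rw [zi_im]; exact ha')
  have e1 : ((t : ℂ) + (a * l : ℝ) * I).re = t := by simp
  have e2 : ((t' : ℂ) + (a' * l : ℝ) * I).re = t' := by simp
  rw [e1, e2] at h1
  have h2 : ‖((t' : ℂ) + (a' * l : ℝ) * I) - ((t : ℂ) + (a * l : ℝ) * I)‖ ≤ |t' - t| + |a' - a| * l := by
    have e3 : ((t' : ℂ) + (a' * l : ℝ) * I) - ((t : ℂ) + (a * l : ℝ) * I) =
        ((t' - t : ℝ) : ℂ) + (((a' - a) * l : ℝ) : ℂ) * I := by push_cast; ring
    rw [e3]
    refine (norm_add_le _ _).trans ?_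
    rw [norm_mul, Complex.norm_real, Complex.norm_real, Complex.norm_I, mul_one, Real.norm_eq_abs,
      Real.norm_eq_abs, abs_mul, abs_of_pos l_pos]
  have hpi := Real.pi_pos
  have h3 : |(Gc ((t' : ℂ) + (a' * l : ℝ) * I) - Gc ((t : ℂ) + (a * l : ℝ) * I)).im| ≤
      Kb b * Real.exp (8 / 3 * |t' - t|) * Real.exp (-(8 / 3) * |t|) * (|t' - t| + |a' - a| * l) :=
    (Complex.abs_im_le_norm _).trans (h1.trans (mul_le_mul_of_nonneg_left h2 (by positivity)))
  unfold Ag
  rw [← mul_sub, ← Complex.sub_im, abs_mul, abs_of_pos (show (0:ℝ) < 2 * Real.pi by positivity)]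
  calc 2 * Real.pi * |(Gc ((t' : ℂ) + (a' * l : ℝ) * I) - Gc ((t : ℂ) + (a * l : ℝ) * I)).im| ≤
      2 * Real.pi * (Kb b * Real.exp (8 / 3 * |t' - t|) * Real.exp (-(8 / 3) * |t|) *
        (|t' - t| + |a' - a| * l)) := by gcongr
    _ = _ := by ring

/-- decay of the weights -/
theorem Ag_le {b : ℝ} (hb : b < l) {a : ℝ} (ha : |a * l| ≤ b) (t : ℝ) :
    |Ag a t| ≤ 2 * Real.pi * Kb b * (|a| * l) * Real.exp (-(8 / 3) * |t|) := by
  have h1 := Ag_lip hb (a := 0) (a' := a) (by rw [zero_mul, abs_zero]; exact (abs_nonneg (a * l)).trans ha) ha t t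
  rw [Ag_zero, sub_zero, sub_self, abs_zero, mul_zero, Real.exp_zero, mul_one, zero_add, sub_zero] at h1
  refine h1.trans (le_of_eq ?_)
  ring

end

end NUMF
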