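import Pool.Agent.NUP.MF.Quanta

/-!
# Fourier representation of the kernels

`tan z = ∫_0^∞ sinh (zk) / sinh (πk/2) dk` and `- log cos z = ∫_0^∞ (cosh (zk) - 1)/(k sinh (πk/2)) dk`
for `|Re z| < π/2`; hence
`h t a = log 2 + ∫_0^∞ 2 (1 - cosh (ak) cos (tk)) / (k sinh (πk/2)) dk`, `|a| < π/2`.
-/

set_option autoImplicit false

open MeasureTheory Set Filter Topology Complex

namespace NUMF

noncomputable section

/-- `sinh (π k / 2)` -/
def sk (k : ℝ) : ℝ := Real.sinh (Real.pi / 2 * k)

lemma sk_pos {k : ℝ} (hk : 0 < k) : 0 < sk k := by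
  unfold sk
  have := Real.pi_pos
  exact Real.sinh_pos_iff.2 (by positivity)

lemma inv_sk_le {k : ℝ} (hk : 0 < k) :
    k / sk k ≤ 2 / Real.pi * (1 + Real.pi * k) * Real.exp (-(Real.pi / 2) * k) := by
  have hpi := Real.pi_pos
  set x := Real.pi / 2 * k with hx
  have hx0 : 0 < x := by positivity
  have h1 : x * Real.exp x ≤ Real.sinh x * (1 + 2 * x) := by
    rw [Real.sinh_eq]
    have e1 : 1 + 2 * x ≤ Real.exp (2 * x) := by
      have := Real.add_one_le_exp (2 * x)
      linarith
    have e2 : Real.exp (-x) * Real.exp (2 * x) = Real.exp x := by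
      rw [← Real.exp_add]
      congr 1
      ring
    have e3 : Real.exp (-x) * (1 + 2 * x) ≤ Real.exp x := by
      rw [← e2]
      gcongr
    nlinarith
  have h2 : 0 < Real.sinh x := Real.sinh_pos_iff.2 hx0
  have e : -(Real.pi / 2) * k = -x := by rw [hx]; ring
  rw [e]
  unfold sk
  rw [← hx, div_le_iff₀ h2]
  have e4 : k = 2 / Real.pi * x := by rw [hx]; field_simp
  have e5 : Real.pi * k = 2 * x := by rw [hx]; ring
  rw [e5]
  have e6 : Real.exp (-x) * Real.exp x = 1 := by rw [← Real.exp_add]; simp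
  calc k = 2 / Real.pi * Real.exp (-x) * (x * Real.exp x) := by
        rw [e4]
        linear_combination (-(2 / Real.pi * x)) * e6
    _ ≤ 2 / Real.pi * Real.exp (-x) * (Real.sinh x * (1 + 2 * x)) := by gcongr
    _ = _ := by ring

/-- the dominating function -/
def dom (b k : ℝ) : ℝ := Real.exp (b * k) * (k / sk k)

lemma dom_nonneg (b : ℝ) {k : ℝ} (hk : 0 < k) : 0 ≤ dom b k := by
  unfold dom
  have := sk_pos hk
  positivity

lemma sk_meas : Measurable sk := by unfold sk; fun_prop

lemma dom_integrable {b : ℝ} (hb : b < Real.pi / 2) : IntegrableOn (dom b) (Ioi 0) := by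
  have hpi := Real.pi_pos
  set c := Real.pi / 2 - b with hc
  have hc0 : 0 < c := by linarith
  have h1 : IntegrableOn (fun k : ℝ => 2 / Real.pi * (1 + 2 * Real.pi / c) * Real.exp (-(c / 2) * k)) (Ioi 0) :=
    (integrableOn_exp_mul_Ioi (by linarith) 0).const_mul _
  refine Integrable.mono' h1 ?_ ?_
  · unfold dom
    have := sk_meas
    exact (Measurable.aestronglyMeasurable (by fun_prop))
  · filter_upwards [ae_restrict_mem measurableSet_Ioi] with k hk
    have hk0 : 0 < k := hk
    rw [Real.norm_eq_abs, abs_of_nonneg (dom_nonneg b hk0)]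
    unfold dom
    have h2 := inv_sk_le hk0
    have h3 : 1 + Real.pi * k ≤ (1 + 2 * Real.pi / c) * Real.exp (c / 2 * k) := by
      have e1 := Real.add_one_le_exp (c / 2 * k)
      have e2 : 1 ≤ Real.exp (c / 2 * k) := Real.one_le_exp (by positivity)
      have e3 : k ≤ 2 / c * Real.exp (c / 2 * k) := by
        calc k = 2 / c * (c / 2 * k) := by field_simp
          _ ≤ _ := by gcongr; linarith
      calc 1 + Real.pi * k ≤ Real.exp (c / 2 * k) + Real.pi * (2 / c * Real.exp (c / 2 * k)) := by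
            gcongr
        _ = _ := by ring
    calc Real.exp (b * k) * (k / sk k) ≤ Real.exp (b * k) *
          (2 / Real.pi * ((1 + 2 * Real.pi / c) * Real.exp (c / 2 * k)) * Real.exp (-(Real.pi / 2) * k)) := by
          gcongr
          exact h2.trans (by gcongr)
      _ = 2 / Real.pi * (1 + 2 * Real.pi / c) *
          (Real.exp (b * k) * Real.exp (c / 2 * k) * Real.exp (-(Real.pi / 2) * k)) := by ring
      _ = _ := by
          rw [← Real.exp_add, ← Real.exp_add]
          congr 2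
          rw [hc]
          ring

lemma norm_cosh_le (w : ℂ) : ‖Complex.cosh w‖ ≤ Real.cosh w.re := by
  have h1 := two_norm_cosh_sq w
  have h2 := Real.cos_le_one (2 * w.im)
  have h3 : Real.cosh (2 * w.re) = 2 * Real.cosh w.re ^ 2 - 1 := by
    rw [Real.cosh_two_mul, Real.cosh_sq]; ring
  have h4 : ‖Complex.cosh w‖ ^ 2 ≤ Real.cosh w.re ^ 2 := by linarith
  exact (pow_le_pow_iff_left₀ (norm_nonneg _) (Real.cosh_pos _).le two_ne_zero).1 h4

lemma cosh_mono_abs {x y : ℝ} (h : |x| ≤ |y|) : Real.cosh x ≤ Real.cosh y := Real.cosh_le_cosh.2 h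

lemma convex_strip (b : ℝ) : Convex ℝ {u : ℂ | |u.re| ≤ b} := by
  have h1 : {u : ℂ | |u.re| ≤ b} = Complex.reLm ⁻¹' (Icc (-b) b) := by
    ext u
    simp [abs_le]
  rw [h1]
  exact (convex_Icc _ _).linear_preimage Complex.reLm

lemma norm_sinh_le (w : ℂ) : ‖Complex.sinh w‖ ≤ Real.cosh w.re * ‖w‖ := by
  have h1 := (convex_strip |w.re|).norm_image_sub_le_of_norm_deriv_le (f := Complex.sinh)
    (C := Real.cosh w.re) (x := 0) (y := w) (fun u _ => Complex.differentiable_sinh u) ?_ (by simp) (by simp)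
  · simpa using h1
  · intro u hu
    rw [Complex.deriv_sinh]
    exact (norm_cosh_le u).trans (cosh_mono_abs hu)

lemma norm_cosh_sub_one_le (w : ℂ) : ‖Complex.cosh w - 1‖ ≤ Real.cosh w.re * ‖w‖ ^ 2 := by
  have hcv : Convex ℝ ({u : ℂ | |u.re| ≤ |w.re|} ∩ Metric.closedBall 0 ‖w‖) :=
    (convex_strip |w.re|).inter (convex_closedBall _ _)
  have h1 := hcv.norm_image_sub_le_of_norm_deriv_le (f := Complex.cosh)
    (C := Real.cosh w.re * ‖w‖) (x := 0) (y := w) (fun u _ => Complex.differentiable_cosh u) ?_ (by simp) (by simp)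
  · simp only [Complex.cosh_zero, sub_zero] at h1
    calc _ ≤ _ := h1
      _ = _ := by ring
  · intro u hu
    rw [Complex.deriv_cosh]
    have h2 : ‖u‖ ≤ ‖w‖ := by simpa using hu.2
    have h3 := cosh_mono_abs hu.1
    have h4 := Real.cosh_pos w.re
    calc ‖Complex.sinh u‖ ≤ Real.cosh u.re * ‖u‖ := norm_sinh_le u
      _ ≤ _ := by gcongr

lemma cosh_le_exp {x b : ℝ} (h : |x| ≤ b) : Real.cosh x ≤ Real.exp b := by
  have h1 : Real.cosh x ≤ Real.exp |x| := by
    rw [← Real.cosh_abs, Real.cosh_eq]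
    have : Real.exp (-|x|) ≤ Real.exp |x| := Real.exp_le_exp.2 (by have := abs_nonneg x; linarith)
    linarith
  exact h1.trans (Real.exp_le_exp.2 h)

/-- the integrand of `tan` -/
def tk (z : ℂ) (k : ℝ) : ℂ := Complex.sinh (z * k) / (sk k : ℂ)

lemma re_mul_ofReal' (z : ℂ) (k : ℝ) : (z * k).re = z.re * k := by simp

lemma tk_le {z : ℂ} {b : ℝ} (hz : |z.re| ≤ b) {k : ℝ} (hk : 0 < k) : ‖tk z k‖ ≤ ‖z‖ * dom b k := by
  have hs := sk_pos hk
  unfold tk dom
  rw [norm_div, Complex.norm_real, Real.norm_eq_abs, abs_of_pos hs]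
  have h1 := norm_sinh_le (z * k)
  rw [norm_mul, Complex.norm_real, Real.norm_eq_abs, abs_of_pos hk, re_mul_ofReal'] at h1
  have h2 : Real.cosh (z.re * k) ≤ Real.exp (b * k) := by
    refine cosh_le_exp ?_
    rw [abs_mul, abs_of_pos hk]
    gcongr
  calc ‖Complex.sinh (z * k)‖ / sk k ≤ (Real.exp (b * k) * (‖z‖ * k)) / sk k := by
        gcongr
        exact h1.trans (by gcongr)
    _ = _ := by ring

lemma tk_meas (z : ℂ) : Measurable (tk z) := by
  unfold tk
  have := sk_meas
  fun_prop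

lemma tk_integrable {z : ℂ} (hz : |z.re| < Real.pi / 2) : IntegrableOn (tk z) (Ioi 0) := by
  refine Integrable.mono' ((dom_integrable hz).const_mul ‖z‖) (tk_meas z).aestronglyMeasurable ?_
  filter_upwards [ae_restrict_mem measurableSet_Ioi] with k hk
  exact tk_le le_rfl hk

/-! ### partial sums -/

/-- `a_n = (2n+1) π / 2` -/
def an (n : ℕ) : ℝ := (2 * n + 1) * (Real.pi / 2)

lemma sum_exp (N : ℕ) {k : ℝ} (hk : 0 < k) : ∑ n ∈ Finset.range N, 2 * Real.exp (-(an n) * k) =
    (1 - Real.exp (-(Real.pi * N) * k)) / sk k := by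
  have hs := sk_pos hk
  induction N with
  | zero => simp
  | succ N ih =>
    rw [Finset.sum_range_succ, ih, eq_div_iff hs.ne', add_mul, div_mul_cancel₀ _ hs.ne']
    unfold sk an
    rw [Real.sinh_eq]
    have e1 : Real.exp (-((2 * (N:ℝ) + 1) * (Real.pi / 2)) * k) * Real.exp (Real.pi / 2 * k) =
        Real.exp (-(Real.pi * N) * k) := by
      rw [← Real.exp_add]; congr 1; ring
    have e2 : Real.exp (-((2 * (N:ℝ) + 1) * (Real.pi / 2)) * k) * Real.exp (-(Real.pi / 2 * k)) =
        Real.exp (-(Real.pi * (N + 1)) * k) := by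
      rw [← Real.exp_add]; congr 1; ring
    push_cast
    linear_combination e1 - e2

lemma int_term {z : ℂ} (hz : |z.re| < Real.pi / 2) (n : ℕ) :
    IntegrableOn (fun k : ℝ => Complex.sinh (z * k) * (2 * Real.exp (-(an n) * k) : ℝ)) (Ioi 0) ∧
    ∫ k in Ioi (0:ℝ), Complex.sinh (z * k) * (2 * Real.exp (-(an n) * k) : ℝ) =
      1 / (an n - z) - 1 / (an n + z) := by
  have hpi := Real.pi_pos
  have han : Real.pi / 2 ≤ an n := by
    unfold an
    have : (0:ℝ) ≤ n := Nat.cast_nonneg n
    nlinarith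
  have hz' := abs_lt.1 hz
  have h1 : (z - an n).re < 0 := by
    simp only [sub_re, ofReal_re]
    linarith
  have h2 : (-z - an n).re < 0 := by
    simp only [sub_re, neg_re, ofReal_re]
    linarith
  have i1 := integrableOn_exp_mul_complex_Ioi h1 0
  have i2 := integrableOn_exp_mul_complex_Ioi h2 0
  have e : ∀ k : ℝ, Complex.sinh (z * k) * (2 * Real.exp (-(an n) * k) : ℝ) =
      Complex.exp ((z - an n) * k) - Complex.exp ((-z - an n) * k) := by
    intro k
    have e1 : (z - an n) * k = z * k + (-(an n) * k : ℝ) := by push_cast; ring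
    have e2 : (-z - an n) * k = -(z * k) + (-(an n) * k : ℝ) := by push_cast; ring
    rw [e1, e2, Complex.exp_add, Complex.exp_add, Complex.sinh]
    push_cast
    ring
  simp_rw [e]
  refine ⟨i1.sub i2, ?_⟩
  rw [integral_sub i1 i2, integral_exp_mul_complex_Ioi h1, integral_exp_mul_complex_Ioi h2]
  have n1 : z - an n ≠ 0 := by
    intro e0
    rw [e0] at h1
    simp at h1
  have n2 : -z - an n ≠ 0 := by
    intro e0
    rw [e0] at h2
    simp at h2
  have n3 : (an n : ℂ) - z ≠ 0 := by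
    intro e0
    apply n1
    linear_combination -e0
  have n4 : (an n : ℂ) + z ≠ 0 := by
    intro e0
    apply n2
    linear_combination -e0
  have m1 : z - an n = -(an n - z) := by ring
  have m2 : -z - an n = -(an n + z) := by ring
  rw [m1, m2]
  simp only [ofReal_zero, mul_zero, Complex.exp_zero]
  rw [neg_div_neg_eq, neg_div_neg_eq]

lemma partial_sum {z : ℂ} (hz : |z.re| < Real.pi / 2) (N : ℕ) :
    ∫ k in Ioi (0:ℝ), tk z k * ((1 - Real.exp (-(Real.pi * N) * k) : ℝ) : ℂ) =
      ∑ n ∈ Finset.range N, (1 / (an n - z) - 1 / (an n + z)) := by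
  have h1 : ∑ n ∈ Finset.range N, (1 / (an n - z) - 1 / (an n + z)) =
      ∫ k in Ioi (0:ℝ), ∑ n ∈ Finset.range N, Complex.sinh (z * k) * (2 * Real.exp (-(an n) * k) : ℝ) := by
    rw [integral_finsetSum _ fun n _ => (int_term hz n).1]
    exact Finset.sum_congr rfl fun n _ => ((int_term hz n).2).symm
  rw [h1]
  refine setIntegral_congr_fun measurableSet_Ioi fun k hk => ?_
  have hk0 : (0:ℝ) < k := hk
  have hs : (sk k : ℂ) ≠ 0 := Complex.ofReal_ne_zero.2 (sk_pos hk0).ne'
  rw [← Finset.mul_sum, ← Complex.ofReal_sum, sum_exp N hk0]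
  unfold tk
  push_cast
  ring

lemma tendsto_partial {z : ℂ} (hz : |z.re| < Real.pi / 2) :
    Tendsto (fun N : ℕ => ∑ n ∈ Finset.range N, (1 / (an n - z) - 1 / (an n + z))) atTop
      (𝓝 (∫ k in Ioi (0:ℝ), tk z k)) := by
  have hpi := Real.pi_pos
  simp_rw [← partial_sum hz]
  refine tendsto_integral_of_dominated_convergence (fun k => ‖tk z k‖) ?_ (tk_integrable hz).norm ?_ ?_
  · intro N
    refine ((tk_meas z).mul ?_).aestronglyMeasurable
    exact Complex.measurable_ofReal.comp (by fun_prop)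
  · intro N
    filter_upwards [ae_restrict_mem measurableSet_Ioi] with k hk
    have hk0 : (0:ℝ) < k := hk
    rw [norm_mul, Complex.norm_real, Real.norm_eq_abs]
    have h1 : Real.exp (-(Real.pi * N) * k) ≤ 1 := by
      rw [Real.exp_le_one_iff]
      have : 0 ≤ Real.pi * N * k := by positivity
      linarith
    have h2 := Real.exp_pos (-(Real.pi * N) * k)
    rw [abs_of_nonneg (by linarith)]
    exact mul_le_of_le_one_right (norm_nonneg _) (by linarith)
  · filter_upwards [ae_restrict_mem measurableSet_Ioi] with k hk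
    have hk0 : (0:ℝ) < k := hk
    have h1 : Tendsto (fun N : ℕ => Real.exp (-(Real.pi * N) * k)) atTop (𝓝 0) := by
      refine Real.tendsto_exp_atBot.comp ?_
      have h2 : (fun N : ℕ => -(Real.pi * N) * k) = fun N : ℕ => -(Real.pi * k) * N := by
        ext N; ring
      rw [h2]
      exact tendsto_natCast_atTop_atTop.const_mul_atTop_of_neg (by
        have : 0 < Real.pi * k := by positivity
        linarith)
    have h3 : Tendsto (fun N : ℕ => ((1 - Real.exp (-(Real.pi * N) * k) : ℝ) : ℂ)) atTop (𝓝 ((1 - 0 : ℝ) : ℂ)) :=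
      (Complex.continuous_ofReal.tendsto _).comp (h1.const_sub 1)
    have h4 := h3.const_mul (tk z k)
    simpa using h4

theorem tan_eq {z : ℂ} (hz : |z.re| < Real.pi / 2) : ∫ k in Ioi (0:ℝ), tk z k = Complex.tan z := by
  have hpi := Real.pi_pos
  have hz' := abs_lt.1 hz
  have hpic : (Real.pi : ℂ) ≠ 0 := Complex.ofReal_ne_zero.2 hpi.ne'
  set x : ℂ := 1 / 2 - z / Real.pi with hx
  have hxre : x.re = 1 / 2 - z.re / Real.pi := by
    rw [hx, Complex.sub_re, Complex.div_ofReal_re]
    norm_num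
  have hx1 : 0 < x.re := by
    rw [hxre, sub_pos, div_lt_iff₀ hpi]
    linarith
  have hx2 : x.re < 1 := by
    rw [hxre]
    have : -(1 / 2) < z.re / Real.pi := by
      rw [lt_div_iff₀ hpi]
      linarith
    linarith
  have hxi : x ∈ Complex.integerComplement := by
    rw [Complex.mem_integerComplement_iff]
    rintro ⟨n, hn⟩
    rw [← hn] at hx1 hx2
    simp only [intCast_re] at hx1 hx2
    have h1 : (0:ℤ) < n := by exact_mod_cast hx1
    have h2 : n < (1:ℤ) := by exact_mod_cast hx2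
    omega
  have hxn : ∀ n : ℕ, x + n ≠ 0 := by
    intro n e
    have := congrArg Complex.re e
    simp only [add_re, natCast_re, zero_re] at this
    have h3 : (0:ℝ) ≤ n := Nat.cast_nonneg n
    linarith
  have hxm : ∀ n : ℕ, x - (n + 1) ≠ 0 := by
    intro n e
    have := congrArg Complex.re e
    simp only [sub_re, add_re, natCast_re, one_re, zero_re] at this
    have h3 : (0:ℝ) ≤ n := Nat.cast_nonneg n
    linarith
  have hterm : ∀ n : ℕ, 1 / ((an n : ℂ) - z) - 1 / (an n + z) = (1 / Real.pi) * (1 / (x + n) + 1 / (x - (n + 1))) := by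
    intro n
    have e1 : (an n : ℂ) - z = Real.pi * (x + n) := by
      rw [hx]; unfold an; push_cast; field_simp; ring
    have e2 : (an n : ℂ) + z = -(Real.pi * (x - (n + 1))) := by
      rw [hx]; unfold an; push_cast; field_simp; ring
    have n1 := hxn n
    have n2 := hxm n
    rw [e1, e2]
    field_simp
    ring
  have hsum : ∀ M : ℕ, ∑ n ∈ Finset.range (M + 1), (1 / ((an n : ℂ) - z) - 1 / (an n + z)) =
      (1 / Real.pi) * (1 / x + ∑ j ∈ Finset.range M, cotTerm x j + 1 / (x - (M + 1))) := by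
    intro M
    simp_rw [hterm]
    rw [← Finset.mul_sum]
    congr 1
    induction M with
    | zero => simp
    | succ M ih =>
      rw [Finset.sum_range_succ, ih, Finset.sum_range_succ]
      unfold cotTerm
      push_cast
      ring
  have hlim := tendsto_logDeriv_euler_cot_sub hxi
  have h0 : Tendsto (fun M : ℕ => 1 / (x - (M + 1))) atTop (𝓝 0) := by
    have h1 : Tendsto (fun M : ℕ => ‖x - (M + 1)‖) atTop atTop := by
      have h2 : Tendsto (fun M : ℕ => ((M : ℝ) + 1) - ‖x‖) atTop atTop := by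
        have := tendsto_natCast_atTop_atTop (R := ℝ)
        exact tendsto_atTop_add_const_right _ _ (tendsto_atTop_add_const_right _ _ this)
      refine tendsto_atTop_mono (fun M => ?_) h2
      have h3 : ‖((M : ℂ) + 1)‖ = (M : ℝ) + 1 := by
        have : ((M : ℂ) + 1) = (((M : ℝ) + 1 : ℝ) : ℂ) := by push_cast; rfl
        rw [this, Complex.norm_real, Real.norm_eq_abs, abs_of_pos (by positivity)]
      have h5 := norm_sub_norm_le ((M : ℂ) + 1) x
      rw [h3, norm_sub_rev ((M : ℂ) + 1) x] at h5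
      exact h5
    have h4 := tendsto_inv_atTop_zero.comp h1
    rw [tendsto_zero_iff_norm_tendsto_zero]
    refine h4.congr fun M => ?_
    simp
  have hL := (((hlim.const_add (1 / x)).add h0).const_mul (1 / (Real.pi : ℂ)))
  have hL2 : Tendsto (fun M : ℕ => ∑ n ∈ Finset.range (M + 1), (1 / ((an n : ℂ) - z) - 1 / (an n + z))) atTop
      (𝓝 ((1 / Real.pi) * (1 / x + (Real.pi * Complex.cot (Real.pi * x) - 1 / x) + 0))) :=
    hL.congr fun M => (hsum M).symm
  have hU := tendsto_nhds_unique hL2 ((tendsto_add_atTop_iff_nat 1).2 (tendsto_partial hz))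
  rw [← hU]
  have e1 : (Real.pi : ℂ) * x = Real.pi / 2 - z := by
    rw [hx]; field_simp
  rw [e1]
  have e2 : Complex.cot (Real.pi / 2 - z) = Complex.tan z := by
    rw [Complex.cot_eq_cos_div_sin, Complex.cos_pi_div_two_sub, Complex.sin_pi_div_two_sub,
      Complex.tan_eq_sin_div_cos]
  rw [e2]
  field_simp
  ring

/-! ### the logarithm -/

/-- the integrand of `- log cos` -/
def ck (z : ℂ) (k : ℝ) : ℂ := (Complex.cosh (z * k) - 1) / ((k * sk k : ℝ) : ℂ)

lemma ck_meas (z : ℂ) : Measurable (ck z) := by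
  unfold ck
  have := sk_meas
  fun_prop

lemma ck_le {z : ℂ} {b : ℝ} (hz : |z.re| ≤ b) {k : ℝ} (hk : 0 < k) : ‖ck z k‖ ≤ ‖z‖ ^ 2 * dom b k := by
  have hs := sk_pos hk
  unfold ck dom
  rw [norm_div, Complex.norm_real, Real.norm_eq_abs, abs_of_pos (mul_pos hk hs)]
  have h1 := norm_cosh_sub_one_le (z * k)
  rw [norm_mul, Complex.norm_real, Real.norm_eq_abs, abs_of_pos hk, re_mul_ofReal'] at h1
  have h2 : Real.cosh (z.re * k) ≤ Real.exp (b * k) := by
    refine cosh_le_exp ?_
    rw [abs_mul, abs_of_pos hk]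
    gcongr
  calc ‖Complex.cosh (z * k) - 1‖ / (k * sk k) ≤ (Real.exp (b * k) * (‖z‖ * k) ^ 2) / (k * sk k) := by
        gcongr
        exact h1.trans (by gcongr)
    _ = _ := by
        have := hs.ne'
        have := hk.ne'
        field_simp

lemma ck_integrable {z : ℂ} (hz : |z.re| < Real.pi / 2) : IntegrableOn (ck z) (Ioi 0) := by
  refine Integrable.mono' ((dom_integrable hz).const_mul (‖z‖ ^ 2)) (ck_meas z).aestronglyMeasurable ?_
  filter_upwards [ae_restrict_mem measurableSet_Ioi] with k hk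
  exact ck_le le_rfl hk

lemma hasDerivAt_ck (z : ℂ) {k : ℝ} (hk : 0 < k) : HasDerivAt (fun z => ck z k) (tk z k) z := by
  have hs : (sk k : ℂ) ≠ 0 := Complex.ofReal_ne_zero.2 (sk_pos hk).ne'
  have hk' : (k : ℂ) ≠ 0 := Complex.ofReal_ne_zero.2 hk.ne'
  have h1 : HasDerivAt (fun z : ℂ => z * k) (k : ℂ) z := by
    simpa using (hasDerivAt_id z).mul_const (k : ℂ)
  have h2 := ((h1.ccosh).sub_const 1).div_const ((k * sk k : ℝ) : ℂ)
  refine h2.congr_deriv ?_
  unfold tk
  push_cast
  field_simp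

lemma Phi_deriv {z : ℂ} (hz : |z.re| < Real.pi / 2) :
    HasDerivAt (fun z => ∫ k in Ioi (0:ℝ), ck z k) (Complex.tan z) z := by
  have hpi := Real.pi_pos
  set b := (|z.re| + Real.pi / 2) / 2 with hb
  have hb1 : |z.re| < b := by rw [hb]; linarith
  have hb2 : b < Real.pi / 2 := by rw [hb]; linarith
  set s : Set ℂ := {u : ℂ | |u.re| < b} ∩ Metric.ball 0 (‖z‖ + 1) with hs
  have hmem : s ∈ 𝓝 z := by
    refine IsOpen.mem_nhds ?_ ⟨hb1, by simp⟩
    exact (isOpen_lt (continuous_abs.comp Complex.continuous_re) continuous_const).inter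
      Metric.isOpen_ball
  obtain ⟨i1, i2⟩ := hasDerivAt_integral_of_dominated_loc_of_deriv_le (μ := volume.restrict (Ioi (0:ℝ)))
    (F := ck) (F' := tk) (x₀ := z) (bound := fun k => (‖z‖ + 1) * dom b k) hmem
    (Eventually.of_forall fun x => (ck_meas x).aestronglyMeasurable) (ck_integrable hz)
    (tk_meas z).aestronglyMeasurable
    (by
      filter_upwards [ae_restrict_mem measurableSet_Ioi] with k hk u hu
      have hk0 : (0:ℝ) < k := hk
      have h1 : ‖u‖ < ‖z‖ + 1 := by simpa using hu.2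
      have h3 : |u.re| < b := hu.1
      have h2 := dom_nonneg b hk0
      calc ‖tk u k‖ ≤ ‖u‖ * dom b k := tk_le h3.le hk0
        _ ≤ _ := by gcongr)
    ((dom_integrable hb2).const_mul _)
    (by
      filter_upwards [ae_restrict_mem measurableSet_Ioi] with k hk u _
      exact hasDerivAt_ck u hk)
  rw [tan_eq hz] at i2
  exact i2

lemma cos_re (z : ℂ) : (Complex.cos z).re = Real.cos z.re * Real.cosh z.im := by
  conv_lhs => rw [← Complex.re_add_im z]
  rw [Complex.cos_add, Complex.cos_mul_I, Complex.sin_mul_I]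
  simp [← Complex.ofReal_cosh, ← Complex.ofReal_sinh, ← Complex.ofReal_cos, ← Complex.ofReal_sin]

lemma cos_slit {z : ℂ} (hz : |z.re| < Real.pi / 2) : Complex.cos z ∈ slitPlane := by
  left
  rw [cos_re]
  have h2 : 0 < Real.cos z.re := Real.cos_pos_of_mem_Ioo (by
    rw [abs_lt] at hz
    exact ⟨hz.1, hz.2⟩)
  have h3 := Real.cosh_pos z.im
  positivity

/-- **master formula** -/
theorem neg_log_cos {z : ℂ} (hz : |z.re| < Real.pi / 2) :
    ∫ k in Ioi (0:ℝ), ck z k = - Complex.log (Complex.cos z) := by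
  have hpi := Real.pi_pos
  set S : Set ℂ := {u : ℂ | |u.re| < Real.pi / 2} with hS
  have hop : IsOpen S := isOpen_lt (continuous_abs.comp Complex.continuous_re) continuous_const
  have hcv : Convex ℝ S := by
    have h1 : S = Complex.reLm ⁻¹' (Ioo (-(Real.pi / 2)) (Real.pi / 2)) := by
      ext u
      simp [hS, abs_lt]
    rw [h1]
    exact (convex_Ioo _ _).linear_preimage Complex.reLm
  set D : ℂ → ℂ := fun z => (∫ k in Ioi (0:ℝ), ck z k) + Complex.log (Complex.cos z) with hD
  have hd : ∀ u ∈ S, HasDerivAt D 0 u := by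
    intro u hu
    have h1 := Phi_deriv hu
    have h2 := (Complex.hasDerivAt_cos u).clog (cos_slit hu)
    have h3 := h1.add h2
    refine h3.congr_deriv ?_
    rw [Complex.tan_eq_sin_div_cos]
    ring
  have hdiff : DifferentiableOn ℂ D S := fun x hx => (hd x hx).differentiableAt.differentiableWithinAt
  have hz0 : ∀ x ∈ S, fderivWithin ℂ D S x = 0 := by
    intro x hx
    rw [fderivWithin_of_mem_nhds (hop.mem_nhds hx)]
    have h6 := (hd x hx).hasFDerivAt.fderiv
    rw [h6]
    ext
    simp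
  have h7 := hcv.is_const_of_fderivWithin_eq_zero (𝕜 := ℂ) hdiff hz0 (show z ∈ S from hz)
    (show (0:ℂ) ∈ S by simp [hS]; positivity)
  have h8 : D 0 = 0 := by
    rw [hD]
    simp [ck]
  rw [h8] at h7
  rw [hD] at h7
  exact eq_neg_of_add_eq_zero_left h7

/-- **Fourier representation of `h`** -/
theorem h_fourier {a : ℝ} (ha : |a| < Real.pi / 2) (t : ℝ) :
    IntegrableOn (fun k => 2 * (1 - Real.cosh (a * k) * Real.cos (t * k)) / (k * sk k)) (Ioi 0) ∧
    h t a = Real.log 2 + ∫ k in Ioi (0:ℝ), 2 * (1 - Real.cosh (a * k) * Real.cos (t * k)) / (k * sk k) := by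
  set z : ℂ := (a : ℂ) + t * I with hz
  have hzre : z.re = a := by simp [hz]
  have hzim : z.im = t := by simp [hz]
  have hz1 : |z.re| < Real.pi / 2 := by rw [hzre]; exact ha
  have i1 := ck_integrable hz1
  have e1 := neg_log_cos hz1
  have hre : ∀ k : ℝ, (ck z k).re = (Real.cosh (a * k) * Real.cos (t * k) - 1) / (k * sk k) := by
    intro k
    unfold ck
    rw [Complex.div_ofReal_re, Complex.sub_re, re_cosh, Complex.one_re]
    have h1 : (z * k).re = a * k := by rw [re_mul_ofReal', hzre]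
    have h2 : (z * k).im = t * k := by simp [hzim]
    rw [h1, h2]
  have i2 := i1.re
  have i3 : IntegrableOn (fun k => 2 * (1 - Real.cosh (a * k) * Real.cos (t * k)) / (k * sk k)) (Ioi 0) := by
    refine (i2.const_mul (-2)).congr (Eventually.of_forall fun k => ?_)
    simp only [RCLike.re_to_complex, hre]
    ring
  refine ⟨i3, ?_⟩
  have e2 : ∫ k in Ioi (0:ℝ), (ck z k).re = - Real.log ‖Complex.cos z‖ := by
    have h1 := integral_re i1
    simp only [RCLike.re_to_complex] at h1
    rw [h1, e1, Complex.neg_re, Complex.log_re]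
  have e3 : ∫ k in Ioi (0:ℝ), 2 * (1 - Real.cosh (a * k) * Real.cos (t * k)) / (k * sk k) =
      2 * Real.log ‖Complex.cos z‖ := by
    have h1 : ∀ k : ℝ, 2 * (1 - Real.cosh (a * k) * Real.cos (t * k)) / (k * sk k) = -2 * (ck z k).re := by
      intro k
      rw [hre]
      ring
    simp_rw [h1]
    rw [integral_const_mul, e2]
    ring
  have hn : Complex.cos z ≠ 0 := by
    intro e
    have h1 := cos_slit hz1
    rw [e] at h1
    exact Complex.zero_notMem_slitPlane h1
  rw [e3, hz, log_norm_cos hn]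
  ring

/-- differences of two kernels -/
theorem h_sub_fourier {a b : ℝ} (ha : |a| < Real.pi / 2) (hb : |b| < Real.pi / 2) (t : ℝ) :
    IntegrableOn (fun k => 2 * Real.cos (t * k) * (Real.cosh (b * k) - Real.cosh (a * k)) / (k * sk k)) (Ioi 0) ∧
    h t a - h t b = ∫ k in Ioi (0:ℝ), 2 * Real.cos (t * k) * (Real.cosh (b * k) - Real.cosh (a * k)) / (k * sk k) := by
  obtain ⟨i1, e1⟩ := h_fourier ha t
  obtain ⟨i2, e2⟩ := h_fourier hb t
  have hf : ∀ k : ℝ, 2 * Real.cos (t * k) * (Real.cosh (b * k) - Real.cosh (a * k)) / (k * sk k) =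
      2 * (1 - Real.cosh (a * k) * Real.cos (t * k)) / (k * sk k) -
      2 * (1 - Real.cosh (b * k) * Real.cos (t * k)) / (k * sk k) := by
    intro k
    rw [← sub_div]
    congr 1
    ring
  have i3 := i1.sub i2
  refine ⟨i3.congr (Eventually.of_forall fun k => (hf k).symm), ?_⟩
  have b1 := integral_sub i1 i2
  simp_rw [hf]
  rw [b1, e1, e2]
  ring

/-- increments in `t` (form used in nu34/50d [4.0]) -/
theorem h_incr_fourier {a : ℝ} (ha : |a| < Real.pi / 2) (t : ℝ) :
    IntegrableOn (fun k => 2 * (1 - Real.cos (k * t)) * Real.cosh (a * k) / (k * sk k)) (Ioi 0) ∧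
    Real.log ((Real.cosh (2 * t) + Real.cos (2 * a)) / (1 + Real.cos (2 * a))) =
      ∫ k in Ioi (0:ℝ), 2 * (1 - Real.cos (k * t)) * Real.cosh (a * k) / (k * sk k) := by
  obtain ⟨i1, e1⟩ := h_fourier ha t
  obtain ⟨i2, e2⟩ := h_fourier ha 0
  have hf : ∀ k : ℝ, 2 * (1 - Real.cos (k * t)) * Real.cosh (a * k) / (k * sk k) =
      2 * (1 - Real.cosh (a * k) * Real.cos (t * k)) / (k * sk k) -
      2 * (1 - Real.cosh (a * k) * Real.cos (0 * k)) / (k * sk k) := by
    intro k
    rw [← sub_div, zero_mul, Real.cos_zero, mul_comm t k]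
    congr 1
    ring
  have i3 := i1.sub i2
  refine ⟨i3.congr (Eventually.of_forall fun k => (hf k).symm), ?_⟩
  have b1 := integral_sub i1 i2
  have h3 : 0 < 1 + Real.cos (2 * a) := by
    have h4 : Real.cos (2 * a) = 2 * Real.cos a ^ 2 - 1 := Real.cos_two_mul a
    have h5 : 0 < Real.cos a := Real.cos_pos_of_mem_Ioo (by
      rw [abs_lt] at ha
      exact ⟨ha.1, ha.2⟩)
    rw [h4]
    have : 0 < Real.cos a ^ 2 := by positivity
    linarith
  have h6 : 0 < Real.cosh (2 * t) + Real.cos (2 * a) := by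
    have := Real.one_le_cosh (2 * t)
    linarith
  have h7 : Real.log ((Real.cosh (2 * t) + Real.cos (2 * a)) / (1 + Real.cos (2 * a))) = h t a - h 0 a := by
    rw [Real.log_div h6.ne' h3.ne']
    unfold h
    rw [mul_zero, Real.cosh_zero]
  simp_rw [hf]
  rw [b1, h7, e1, e2]
  ring

end

end NUMF
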