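import Pool.Agent.NUP.MF.PiG
import Pool.Agent.NUP.MF.Quanta

/-!
# Mean field weight of singles and strings at every offset

`Ag a t = 2 π Im Gc (t + i a l)` (`|a| < 1`).  The mean field potential of a single quantum at offset `j`
(own row, other row, cloud of one row pair) is

* `Ag j t` for `0 ≤ j < 1`, `Ag (2 - j) t` for `1 < j ≤ 2`, `0` for `2 ≤ j ≤ 3`,
  `-2 Ag (j - 3) t` for `3 ≤ j < 4`;
* a string (offsets `j`, `j + 1`): `Ag (2 - j) t` for `1 < j ≤ 2`, `-2 Ag (j - 2) t` for `2 ≤ j < 3`.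
-/

set_option autoImplicit false

open MeasureTheory Set Filter Topology Complex

namespace NUMF

noncomputable section

/-- `2 π Im Gc (t + i a l)` -/
def Ag (a t : ℝ) : ℝ := 2 * Real.pi * (Gc (t + (a * l : ℝ) * I)).im

lemma Ag_zero (t : ℝ) : Ag 0 t = 0 := by
  unfold Ag
  simp [Gc_ofReal]

lemma key_alg {A B C D S T E c k : ℝ} (hk : k ≠ 0) (hS : S ≠ 0) (hd : 2 * c - 1 ≠ 0)
    (a1 : 2 * c * A = E + B) (a2 : E - C = 2 * (S * T)) :
    2 * (1 - C * D / (2 * c - 1)) / (k * S) + 2 * (1 - B * D / (2 * c - 1)) / (k * S) -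
      2 * (1 - A * D / (2 * c - 1)) / (k * S) - 2 * (1 - A * D) / (k * S) =
      4 * (D * T / (k * (2 * c - 1))) := by
  field_simp
  linear_combination (2 * D) * a1 + (2 * D) * a2

/-- continuation of the cloud potential: `3 l < y < 4 l` -/
theorem ext_rule (x : ℝ) {y : ℝ} (h1 : 3 * l < y) (h2 : y < 4 * l) :
    H x (7 * l - y) + H x (y - l) - H x y - h x y = 4 * Real.pi * (Gc (x + (y - 3 * l : ℝ) * I)).im := by
  have hl := l_pos
  have e4 : (4:ℝ) * l = Real.pi / 2 := by unfold l; ring
  obtain ⟨i1, f1⟩ := H_fourier_hf (a := 7 * l - y) (by rw [abs_of_pos (by linarith)]; linarith) x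
  obtain ⟨i2, f2⟩ := H_fourier_hf (a := y - l) (by rw [abs_of_pos (by linarith)]; linarith) x
  obtain ⟨i3, f3⟩ := H_fourier_hf (a := y) (by rw [abs_of_pos (by linarith)]; linarith) x
  obtain ⟨i4, f4⟩ := h_fourier (a := y) (by rw [abs_of_pos (by linarith)]; linarith) x
  obtain ⟨i5, f5⟩ := Gc_im_fourier x (τ := y - 3 * l) (by rw [abs_of_pos (by linarith)]; linarith)
  have key : ∀ k ∈ Ioi (0:ℝ),
      2 * (1 - Real.cosh ((7 * l - y) * k) * Real.cos (x * k) / (2 * ck1 k - 1)) / (k * sk k) +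
      2 * (1 - Real.cosh ((y - l) * k) * Real.cos (x * k) / (2 * ck1 k - 1)) / (k * sk k) -
      2 * (1 - Real.cosh (y * k) * Real.cos (x * k) / (2 * ck1 k - 1)) / (k * sk k) -
      2 * (1 - Real.cosh (y * k) * Real.cos (x * k)) / (k * sk k) =
      4 * (Real.cos (k * x) * Real.sinh (k * (y - 3 * l)) / (k * (2 * ck1 k - 1))) := by
    intro k hk
    have hk' : (0:ℝ) < k := hk
    have hs := sk_pos hk'
    have hd := dkp k
    have a1 : 2 * ck1 k * Real.cosh (y * k) = Real.cosh ((y + l) * k) + Real.cosh ((y - l) * k) := by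
      unfold ck1
      rw [add_mul, sub_mul, Real.cosh_add, Real.cosh_sub]
      ring
    have a2 : Real.cosh ((y + l) * k) - Real.cosh ((7 * l - y) * k) =
        2 * (sk k * Real.sinh (k * (y - 3 * l))) := by
      unfold sk
      rw [← e4, show (y + l) * k = 4 * l * k + k * (y - 3 * l) by ring,
        show (7 * l - y) * k = 4 * l * k - k * (y - 3 * l) by ring, Real.cosh_add, Real.cosh_sub]
      ring
    rw [mul_comm k x]
    exact key_alg hk'.ne' hs.ne' hd.ne' a1 a2
  have b1 := integral_add i1 i2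
  have b2 := integral_sub (i1.add i2) i3
  have b3 := integral_sub ((i1.add i2).sub i3) i4
  simp only [Pi.add_apply, Pi.sub_apply] at b1 b2 b3
  have b4 := setIntegral_congr_fun (μ := volume) measurableSet_Ioi key
  rw [integral_const_mul] at b4
  rw [f1, f2, f3, f4]
  rw [b3, b2, b1, ← f5] at b4
  linarith

/-- in units of `l`, `3 ≤ y < 4` -/
theorem ext_unit (t : ℝ) {y : ℝ} (h1 : 3 ≤ y) (h2 : y < 4) :
    H t ((7 - y) * l) + H t ((y - 1) * l) - H t (y * l) - h t (y * l) = 2 * Ag (y - 3) t := by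
  have hl := l_pos
  rcases h1.eq_or_lt with e | h1
  · subst e
    rw [sub_self, Ag_zero, mul_zero]
    have hc := conv_h t (y := 3 * l) (by rw [abs_of_pos (by linarith)])
    rw [show 3 * l + l = (7 - 3) * l by ring, show 3 * l - l = (3 - 1) * l by ring] at hc
    linarith
  · have hc := ext_rule t (y := y * l) (by nlinarith) (by nlinarith)
    rw [show 7 * l - y * l = (7 - y) * l by ring, show y * l - l = (y - 1) * l by ring,
      show y * l - 3 * l = (y - 3) * l by ring] at hc
    unfold Ag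
    linarith

/-- `3 l + |y - 3 l|` version of `conv_h` in units of `l` -/
lemma conv_unit (t : ℝ) {y : ℝ} (h1 : |y| ≤ 3) :
    H t ((y + 1) * l) + H t ((y - 1) * l) - H t (y * l) = h t (y * l) := by
  have hl := l_pos
  have hc := conv_h t (y := y * l) (by
    rw [abs_mul, abs_of_pos hl]
    exact mul_le_mul_of_nonneg_right h1 hl.le)
  rw [show (y + 1) * l = y * l + l by ring, show (y - 1) * l = y * l - l by ring]
  exact hc

lemma H_refl (t y : ℝ) : H t ((8 - y) * l) = H t (y * l) := by
  rw [← H_neg_right, ← H_per]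
  congr 1
  ring

lemma h_refl (t y : ℝ) : h t ((8 - y) * l) = h t (y * l) := by
  rw [← h_neg_right, ← h_per]
  congr 1
  ring

/-- convolution of `lq`, any offset -/
lemma int_lq (j t : ℝ) : Integrable (fun s => P s * lq j (t - s)) ∧ ∫ s, P s * lq j (t - s) =
    H t ((4 - j) * l) + (H t ((2 - j) * l) + H t ((2 + j) * l)) / 2 -
      (H t ((3 - j) * l) + H t ((5 - j) * l)) / 2 - Real.log 2 := by
  have j1 := Ph_integrable t ((4 - j) * l)
  have j2 := Ph_integrable t ((2 - j) * l)
  have j3 := Ph_integrable t ((2 + j) * l)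
  have j4 := Ph_integrable t ((3 - j) * l)
  have j5 := Ph_integrable t ((5 - j) * l)
  have j6 : Integrable fun s => P s * Real.log 2 := P_integrable.mul_const _
  have hae : ∀ s, P s * lq j (t - s) = P s * h (t - s) ((4 - j) * l) +
      (1 / 2) * (P s * h (t - s) ((2 - j) * l)) + (1 / 2) * (P s * h (t - s) ((2 + j) * l)) -
      (1 / 2) * (P s * h (t - s) ((3 - j) * l)) - (1 / 2) * (P s * h (t - s) ((5 - j) * l)) -
        P s * Real.log 2 := by
    intro s
    unfold lq ro
    ring
  have k1 := j1.add (j2.const_mul (1 / 2))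
  have k2 := k1.add (j3.const_mul (1 / 2))
  have k3 := k2.sub (j4.const_mul (1 / 2))
  have k4 := k3.sub (j5.const_mul (1 / 2))
  refine ⟨(k4.sub j6).congr (Eventually.of_forall fun s => (hae s).symm), ?_⟩
  have b1 := integral_add j1 (j2.const_mul (1 / 2))
  have b2 := integral_add k1 (j3.const_mul (1 / 2))
  have b3 := integral_sub k2 (j4.const_mul (1 / 2))
  have b4 := integral_sub k3 (j5.const_mul (1 / 2))
  have b5 := integral_sub k4 j6
  simp only [Pi.add_apply, Pi.sub_apply] at b1 b2 b3 b4 b5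
  simp_rw [hae]
  rw [b5, b4, b3, b2, b1, integral_const_mul, integral_const_mul, integral_const_mul,
    integral_const_mul, integral_P_mul]
  unfold H
  ring

/-- convolution of `lqg`, any offset -/
lemma int_lqg (j t : ℝ) : Integrable (fun s => P s * lqg j (t - s)) ∧ ∫ s, P s * lqg j (t - s) =
    Real.log 2 + H t (j * l) - (H t (j * l + l) + H t (j * l - l)) := by
  have j1 := Ph_integrable t (j * l + l)
  have j2 := Ph_integrable t (j * l - l)
  have j3 := Ph_integrable t (j * l)
  have j4 : Integrable fun s => P s * Real.log 2 := P_integrable.mul_const _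
  have hae : ∀ s, P s * lqg j (t - s) = P s * Real.log 2 -
      (P s * h (t - s) (j * l + l) + P s * h (t - s) (j * l - l) - P s * h (t - s) (j * l)) := by
    intro s
    unfold lqg
    ring
  refine ⟨(j4.sub ((j1.add j2).sub j3)).congr (Eventually.of_forall fun s => (hae s).symm), ?_⟩
  have b1 := integral_add j1 j2
  have b2 := integral_sub (j1.add j2) j3
  have b3 := integral_sub j4 ((j1.add j2).sub j3)
  simp only [Pi.add_apply, Pi.sub_apply] at b1 b2 b3
  simp_rw [hae]
  rw [b3, b2, b1, integral_P_mul]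
  unfold H
  ring

/-- mean field weight (logarithm) of a single quantum at offset `j`: rows `log 2 - ro j t` and
`h t (j l) - log 2`, clouds `P * lq j`, `P * lqg j` -/
def mf (j t : ℝ) : ℝ := (Real.log 2 - ro j t) + (h t (j * l) - Real.log 2) +
  (∫ s, P s * lq j (t - s)) + ∫ s, P s * lqg j (t - s)

lemma mf_eq (j t : ℝ) : mf j t = h t (j * l) - (h t ((3 - j) * l) + h t ((5 - j) * l)) / 2 +
    H t ((4 - j) * l) + (H t ((2 - j) * l) + H t ((2 + j) * l)) / 2 -
      (H t ((3 - j) * l) + H t ((5 - j) * l)) / 2 + H t (j * l) - (H t ((j + 1) * l) + H t ((j - 1) * l)) := by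
  unfold mf
  rw [(int_lq j t).2, (int_lqg j t).2]
  unfold ro
  rw [show j * l + l = (j + 1) * l by ring, show j * l - l = (j - 1) * l by ring]
  ring

theorem mf_low {j : ℝ} (h0 : 0 ≤ j) (h1 : j < 1) (t : ℝ) : mf j t = Ag j t := by
  rw [mf_eq]
  have c1 := conv_unit t (y := j) (by rw [abs_of_nonneg h0]; linarith)
  have c2 := conv_unit t (y := 3 - j) (by rw [abs_of_nonneg (by linarith)]; linarith)
  have c3 := ext_unit t (y := 3 + j) (by linarith) (by linarith)
  have e1 := H_refl t (5 - j)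
  have e2 := h_refl t (5 - j)
  rw [show 8 - (5 - j) = 3 + j by ring] at e1 e2
  rw [show 3 - j + 1 = 4 - j by ring, show 3 - j - 1 = 2 - j by ring] at c2
  rw [show 7 - (3 + j) = 4 - j by ring, show 3 + j - 1 = 2 + j by ring, show 3 + j - 3 = j by ring] at c3
  linarith

theorem mf_mid {j : ℝ} (h1 : 1 < j) (h2 : j ≤ 2) (t : ℝ) : mf j t = Ag (2 - j) t := by
  rw [mf_eq]
  have c1 := conv_unit t (y := j) (by rw [abs_of_nonneg (by linarith)]; linarith)
  have c2 := conv_unit t (y := 3 - j) (by rw [abs_of_nonneg (by linarith)]; linarith)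
  have c3 := ext_unit t (y := 5 - j) (by linarith) (by linarith)
  rw [show 3 - j + 1 = 4 - j by ring, show 3 - j - 1 = 2 - j by ring] at c2
  rw [show 7 - (5 - j) = 2 + j by ring, show 5 - j - 1 = 4 - j by ring, show 5 - j - 3 = 2 - j by ring] at c3
  linarith

theorem mf_neutral {j : ℝ} (h2 : 2 ≤ j) (h3 : j ≤ 3) (t : ℝ) : mf j t = 0 := by
  rw [mf_eq]
  have c1 := conv_unit t (y := j) (by rw [abs_of_nonneg (by linarith)]; linarith)
  have c2 := conv_unit t (y := 3 - j) (by rw [abs_of_nonneg (by linarith)]; linarith)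
  have c3 := conv_unit t (y := 5 - j) (by rw [abs_of_nonneg (by linarith)]; linarith)
  have e1 := H_refl t (2 + j)
  rw [show 8 - (2 + j) = 6 - j by ring] at e1
  rw [show 3 - j + 1 = 4 - j by ring, show 3 - j - 1 = 2 - j by ring] at c2
  rw [show 5 - j + 1 = 6 - j by ring, show 5 - j - 1 = 4 - j by ring, e1] at c3
  linarith

theorem mf_high {j : ℝ} (h3 : 3 ≤ j) (h4 : j < 4) (t : ℝ) : mf j t = -2 * Ag (j - 3) t := by
  rw [mf_eq]
  have c1 := ext_unit t (y := j) h3 h4
  have c2 := conv_unit t (y := 3 - j) (by rw [abs_of_nonpos (by linarith)]; linarith)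
  have c3 := conv_unit t (y := 5 - j) (by rw [abs_of_nonneg (by linarith)]; linarith)
  have e1 := H_refl t (2 + j)
  have e2 := H_refl t (j + 1)
  rw [show 8 - (2 + j) = 6 - j by ring] at e1
  rw [show 8 - (j + 1) = 7 - j by ring] at e2
  rw [show 3 - j + 1 = 4 - j by ring, show 3 - j - 1 = 2 - j by ring] at c2
  rw [show 5 - j + 1 = 6 - j by ring, show 5 - j - 1 = 4 - j by ring, e1] at c3
  linarith

/-- **strings, `1 < j ≤ 2`** -/
theorem mf_string {j : ℝ} (h1 : 1 < j) (h2 : j ≤ 2) (t : ℝ) : mf j t + mf (j + 1) t = Ag (2 - j) t := by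
  rw [mf_mid h1 h2, mf_neutral (by linarith) (by linarith), add_zero]

/-- **strings, `2 ≤ j < 3`** -/
theorem mf_string' {j : ℝ} (h1 : 2 ≤ j) (h2 : j < 3) (t : ℝ) :
    mf j t + mf (j + 1) t = -2 * Ag (j - 2) t := by
  rw [mf_neutral h1 h2.le, mf_high (by linarith) (by linarith), zero_add]
  congr 2
  ring

end

end NUMF
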