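import Pool.Agent.NUP.MF.Strip

/-!
# Smeared potentials at all offsets

* `AA a t = ∫_0^∞ 2 sinh (a k) cos (t k) / (k (2 cosh (l k) - 1)) dk` in closed form
* `H_fourier` : Fourier representation of `H`
* `H_cont` : the rule of `H` beyond the line `4 l`
-/

set_option autoImplicit false

open MeasureTheory Set Filter Topology Complex

namespace NUMF

noncomputable section

lemma ck1_ge (k : ℝ) : 1 ≤ ck1 k := Real.one_le_cosh _

lemma den_k (k : ℝ) : 0 < 2 * ck1 k - 1 := by linarith [ck1_ge k]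

/-- the integrand of `AA` -/
def aa (a t k : ℝ) : ℝ := 2 * Real.sinh (a * k) * Real.cos (t * k) / (k * (2 * ck1 k - 1))

/-- the potential of a quantum at offset `a` -/
def AA (a t : ℝ) : ℝ := ∫ k in Ioi (0:ℝ), aa a t k

lemma sk_four (k : ℝ) : sk k = Real.sinh (4 * (l * k)) := by
  unfold sk l
  congr 1
  ring

lemma cosh_re_cos (A t k : ℝ) : (Complex.cosh (((A : ℂ) + t * I) * k)).re =
    Real.cosh (A * k) * Real.cos (t * k) := by
  rw [re_cosh]
  have h1 : (((A : ℂ) + t * I) * k).re = A * k := by simp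
  have h2 : (((A : ℂ) + t * I) * k).im = t * k := by simp
  rw [h1, h2]

/-- real part of the integrand of `- log cos` -/
lemma ck_re (A t k : ℝ) : (ck ((A : ℂ) + t * I) k).re =
    (Real.cosh (A * k) * Real.cos (t * k) - 1) / (k * sk k) := by
  unfold ck
  rw [Complex.div_ofReal_re, Complex.sub_re, cosh_re_cos, Complex.one_re]

lemma ck_re_int {A : ℝ} (hA : |A| < Real.pi / 2) (t : ℝ) :
    IntegrableOn (fun k => (Real.cosh (A * k) * Real.cos (t * k) - 1) / (k * sk k)) (Ioi 0) ∧
    ∫ k in Ioi (0:ℝ), (Real.cosh (A * k) * Real.cos (t * k) - 1) / (k * sk k) =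
      - Real.log ‖Complex.cos ((A : ℂ) + t * I)‖ := by
  set z : ℂ := (A : ℂ) + t * I with hz
  have hzre : z.re = A := by simp [hz]
  have hz1 : |z.re| < Real.pi / 2 := by rw [hzre]; exact hA
  have i1 := ck_integrable hz1
  have e1 := neg_log_cos hz1
  have i2 := i1.re
  simp only [RCLike.re_to_complex] at i2
  have hre : ∀ k : ℝ, (ck z k).re = (Real.cosh (A * k) * Real.cos (t * k) - 1) / (k * sk k) :=
    fun k => ck_re A t k
  simp only [hre] at i2
  refine ⟨i2, ?_⟩
  have h1 := integral_re i1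
  simp only [RCLike.re_to_complex, hre] at h1
  rw [h1, e1, Complex.neg_re, Complex.log_re]

/-- the algebra of the scaled integrand -/
lemma aa_scale {a t k : ℝ} (hk : 0 < k) : 4 / 3 * aa a t (4 / 3 * k) =
    ((Real.cosh (4 / 3 * (a + 2 * l) * k) * Real.cos (4 / 3 * t * k) - 1) / (k * sk k) -
      (Real.cosh (4 / 3 * (a - l) * k) * Real.cos (4 / 3 * t * k) - 1) / (k * sk k)) +
    ((Real.cosh (4 / 3 * (a + l) * k) * Real.cos (4 / 3 * t * k) - 1) / (k * sk k) -
      (Real.cosh (4 / 3 * (a - 2 * l) * k) * Real.cos (4 / 3 * t * k) - 1) / (k * sk k)) := by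
  have hs := sk_pos hk
  have hd := den_k (4 / 3 * k)
  set K := 4 / 3 * k with hK
  have hK0 : 0 < K := by positivity
  have e1 : 4 / 3 * (a + 2 * l) * k = a * K + 2 * (l * K) := by rw [hK]; ring
  have e2 : 4 / 3 * (a - l) * k = a * K - l * K := by rw [hK]; ring
  have e3 : 4 / 3 * (a + l) * k = a * K + l * K := by rw [hK]; ring
  have e4 : 4 / 3 * (a - 2 * l) * k = a * K - 2 * (l * K) := by rw [hK]; ring
  have e5 : 4 / 3 * t * k = t * K := by rw [hK]; ring
  have e6 : sk k = Real.sinh (3 * (l * K)) := by rw [sk_four, hK]; congr 1; ring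
  have e7 : Real.sinh (3 * (l * K)) = (Real.sinh (2 * (l * K)) + Real.sinh (l * K)) * (2 * ck1 K - 1) := by
    unfold ck1
    rw [Real.sinh_three_mul, Real.sinh_two_mul]
    have := Real.cosh_sq (l * K)
    linear_combination (-4 * Real.sinh (l * K)) * this
  rw [← sub_div, ← sub_div, ← add_div, e1, e2, e3, e4, e5, Real.cosh_add, Real.cosh_sub, Real.cosh_add,
    Real.cosh_sub]
  have hs' : Real.sinh (2 * (l * K)) + Real.sinh (l * K) ≠ 0 := by
    intro h0
    rw [e7, h0, zero_mul] at e6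
    exact hs.ne' e6
  unfold aa
  rw [e6, e7]
  have hk' := hk.ne'
  have hd' := hd.ne'
  generalize Real.sinh (2 * (l * K)) = S2 at *
  generalize Real.sinh (l * K) = S1 at *
  generalize Real.sinh (a * K) = X at *
  generalize Real.cos (t * K) = c at *
  generalize Real.cosh (a * K) = Y at *
  generalize Real.cosh (2 * (l * K)) = C2 at *
  generalize Real.cosh (l * K) = C1 at *
  generalize 2 * ck1 K - 1 = D at *
  rw [show (Y * C2 + X * S2) * c - 1 - ((Y * C1 - X * S1) * c - 1) +
      ((Y * C1 + X * S1) * c - 1 - ((Y * C2 - X * S2) * c - 1)) = 2 * X * c * (S2 + S1) by ring, hK]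
  field_simp

theorem AA_eq {a : ℝ} (ha : |a| < l) (t : ℝ) : IntegrableOn (aa a t) (Ioi 0) ∧
    AA a t = (Real.log ‖Complex.cos ((4 / 3 * (a - l) : ℝ) + (4 / 3 * t : ℝ) * I)‖ +
      Real.log ‖Complex.cos ((4 / 3 * (a - 2 * l) : ℝ) + (4 / 3 * t : ℝ) * I)‖) -
      (Real.log ‖Complex.cos ((4 / 3 * (a + 2 * l) : ℝ) + (4 / 3 * t : ℝ) * I)‖ +
      Real.log ‖Complex.cos ((4 / 3 * (a + l) : ℝ) + (4 / 3 * t : ℝ) * I)‖) := by
  have hl := l_pos
  have hpi : 4 * l = Real.pi / 2 := by unfold l; ring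
  have ha' := abs_lt.1 ha
  obtain ⟨i1, e1⟩ := ck_re_int (A := 4 / 3 * (a + 2 * l))
    (by rw [abs_lt, ← hpi]; constructor <;> linarith) (4 / 3 * t)
  obtain ⟨i2, e2⟩ := ck_re_int (A := 4 / 3 * (a - l))
    (by rw [abs_lt, ← hpi]; constructor <;> linarith) (4 / 3 * t)
  obtain ⟨i3, e3⟩ := ck_re_int (A := 4 / 3 * (a + l))
    (by rw [abs_lt, ← hpi]; constructor <;> linarith) (4 / 3 * t)
  obtain ⟨i4, e4⟩ := ck_re_int (A := 4 / 3 * (a - 2 * l))
    (by rw [abs_lt, ← hpi]; constructor <;> linarith) (4 / 3 * t)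
  have j0 := (i1.sub i2).add (i3.sub i4)
  have f0 := integral_add (i1.sub i2) (i3.sub i4)
  have f1 := integral_sub i1 i2
  have f2 := integral_sub i3 i4
  simp only [Pi.sub_apply] at f0
  rw [f1, f2, e1, e2, e3, e4] at f0
  have hae : ∀ᵐ k : ℝ ∂(volume.restrict (Ioi (0:ℝ))), 4 / 3 * aa a t (4 / 3 * k) =
      ((Real.cosh (4 / 3 * (a + 2 * l) * k) * Real.cos (4 / 3 * t * k) - 1) / (k * sk k) -
        (Real.cosh (4 / 3 * (a - l) * k) * Real.cos (4 / 3 * t * k) - 1) / (k * sk k)) +
      ((Real.cosh (4 / 3 * (a + l) * k) * Real.cos (4 / 3 * t * k) - 1) / (k * sk k) -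
        (Real.cosh (4 / 3 * (a - 2 * l) * k) * Real.cos (4 / 3 * t * k) - 1) / (k * sk k)) := by
    filter_upwards [ae_restrict_mem measurableSet_Ioi] with k hk
    exact aa_scale hk
  have j1 : IntegrableOn (fun k => 4 / 3 * aa a t (4 / 3 * k)) (Ioi 0) :=
    j0.congr (by filter_upwards [hae] with k hk using hk.symm)
  have j2 : IntegrableOn (fun k => aa a t (4 / 3 * k)) (Ioi 0) := by
    have := j1.const_mul (3 / 4)
    refine this.congr (Eventually.of_forall fun k => ?_)
    simp only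
    ring
  have j3 : IntegrableOn (aa a t) (Ioi 0) := by
    have := (integrableOn_Ioi_comp_mul_left_iff (aa a t) (0:ℝ) (a := 4 / 3) (by norm_num)).1 j2
    rwa [mul_zero] at this
  refine ⟨j3, ?_⟩
  have g1 : ∫ k in Ioi (0:ℝ), 4 / 3 * aa a t (4 / 3 * k) = AA a t := by
    rw [integral_const_mul, integral_comp_mul_left_Ioi (aa a t) 0 (by norm_num : (0:ℝ) < 4 / 3), mul_zero,
      smul_eq_mul]
    unfold AA
    ring
  rw [← g1, integral_congr_ae hae, f0]
  ring

/-! ### Fourier representation of `H` -/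

/-- the integrand of `H` -/
def kf (y x k : ℝ) : ℝ := 2 * (1 - Real.cosh (y * k) * Real.cos (x * k) / (2 * ck1 k - 1)) / (k * sk k)

lemma P_sin (k : ℝ) : Integrable (fun t => P t * Real.sin (k * t)) ∧ ∫ t, P t * Real.sin (k * t) = 0 := by
  constructor
  · refine P_integrable.mul_bdd (c := 1) (Continuous.aestronglyMeasurable (by fun_prop)) ?_
    refine Eventually.of_forall fun t => ?_
    rw [Real.norm_eq_abs]
    exact Real.abs_sin_le_one _
  · have h1 := integral_neg_eq_self (fun t : ℝ => P t * Real.sin (k * t)) volume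
    have h2 : ∀ t : ℝ, P (-t) * Real.sin (k * -t) = -(P t * Real.sin (k * t)) := by
      intro t
      rw [P_neg, mul_neg, Real.sin_neg, mul_neg]
    simp_rw [h2] at h1
    rw [integral_neg] at h1
    linarith

lemma P_shift_cos (x k : ℝ) : Integrable (fun s => P s * Real.cos ((x - s) * k)) ∧
    ∫ s, P s * Real.cos ((x - s) * k) = Real.cos (x * k) / (2 * ck1 k - 1) := by
  obtain ⟨i1, e1⟩ := P_forward k
  obtain ⟨i2, e2⟩ := P_sin k
  have h1 : ∀ s : ℝ, P s * Real.cos ((x - s) * k) =
      Real.cos (x * k) * (P s * Real.cos (k * s)) + Real.sin (x * k) * (P s * Real.sin (k * s)) := by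
    intro s
    rw [sub_mul, Real.cos_sub, mul_comm s k]
    ring
  simp_rw [h1]
  refine ⟨(i1.const_mul _).add (i2.const_mul _), ?_⟩
  rw [integral_add (i1.const_mul _) (i2.const_mul _), integral_const_mul, integral_const_mul, e1, e2]
  ring

lemma h_kernel_le {y : ℝ} (u : ℝ) {k : ℝ} (hk : 0 < k) :
    |2 * (1 - Real.cosh (y * k) * Real.cos (u * k)) / (k * sk k)| ≤ (y ^ 2 + u ^ 2) * (2 * dom |y| k) := by
  have h1 : 2 * (1 - Real.cosh (y * k) * Real.cos (u * k)) / (k * sk k) =
      -2 * (ck ((y : ℂ) + u * I) k).re := by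
    rw [ck_re]
    ring
  have h2 := ck_le (z := (y : ℂ) + u * I) (b := |y|) (by simp) hk
  have h3 := Complex.abs_re_le_norm (ck ((y : ℂ) + u * I) k)
  have h4 : ‖(y : ℂ) + u * I‖ ^ 2 = y ^ 2 + u ^ 2 := by
    rw [← Complex.normSq_eq_norm_sq, Complex.normSq_add_mul_I]
  rw [h4] at h2
  rw [h1, abs_mul, abs_neg, abs_two]
  linarith

theorem H_fourier {y : ℝ} (hy : |y| < 4 * l) (x : ℝ) :
    IntegrableOn (kf y x) (Ioi 0) ∧ H x y = Real.log 2 + ∫ k in Ioi (0:ℝ), kf y x k := by
  have hpi : 4 * l = Real.pi / 2 := by unfold l; ring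
  have hy' : |y| < Real.pi / 2 := by rwa [hpi] at hy
  set f : ℝ → ℝ → ℝ := fun s k =>
    P s * (2 * (1 - Real.cosh (y * k) * Real.cos ((x - s) * k)) / (k * sk k)) with hf
  have hg1 : Integrable fun s => P s * (y ^ 2 + (x - s) ^ 2) := by
    refine P_integrable_mul (A := y ^ 2 + 2 * x ^ 2 + 4) (c := 1) (by norm_num)
      (Continuous.aestronglyMeasurable (by fun_prop)) fun s => ?_
    have h1 : s ^ 2 ≤ 2 * Real.exp (1 * |s|) := by
      rw [one_mul, ← sq_abs]
      have := Real.quadratic_le_exp_of_nonneg (abs_nonneg s)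
      have := abs_nonneg s
      nlinarith
    have h2 : 1 ≤ Real.exp (1 * |s|) := Real.one_le_exp (by positivity)
    rw [abs_of_nonneg (by positivity)]
    nlinarith [sq_nonneg (x + s), sq_nonneg y, sq_nonneg x]
  have hg2 : Integrable (fun k => 2 * dom |y| k) (volume.restrict (Ioi (0:ℝ))) :=
    (dom_integrable hy').const_mul 2
  have hm : Measurable (Function.uncurry f) := by
    have h1 := sk_meas
    have h2 : Measurable P := P_cont.measurable
    rw [hf]
    unfold Function.uncurry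
    simp only
    refine Measurable.mul (h2.comp measurable_fst) (Measurable.div ?_ ?_)
    · fun_prop
    · exact measurable_snd.mul (h1.comp measurable_snd)
  have hint : Integrable (Function.uncurry f) (volume.prod (volume.restrict (Ioi (0:ℝ)))) := by
    refine (hg1.mul_prod hg2).mono' hm.aestronglyMeasurable ?_
    have : ∀ᵐ p : ℝ × ℝ ∂(volume.prod (volume.restrict (Ioi (0:ℝ)))), 0 < p.2 := by
      have h1 : ∀ᵐ k : ℝ ∂(volume.restrict (Ioi (0:ℝ))), 0 < k := ae_restrict_mem measurableSet_Ioi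
      exact Measure.quasiMeasurePreserving_snd.ae h1
    filter_upwards [this] with p hp
    rw [Real.norm_eq_abs]
    show |P p.1 * _| ≤ _
    rw [abs_mul, abs_of_pos (P_pos p.1), mul_assoc]
    exact mul_le_mul_of_nonneg_left (h_kernel_le (x - p.1) hp) (P_pos _).le
  have hin : ∀ k : ℝ, 0 < k → ∫ s, f s k = kf y x k := by
    intro k hk
    obtain ⟨i1, e1⟩ := P_shift_cos x k
    have h1 : ∀ s : ℝ, f s k = 2 / (k * sk k) * P s -
        2 * Real.cosh (y * k) / (k * sk k) * (P s * Real.cos ((x - s) * k)) := by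
      intro s
      rw [hf]
      ring
    simp_rw [h1]
    rw [integral_sub (P_integrable.const_mul _) (i1.const_mul _), integral_const_mul, integral_const_mul,
      e1, integral_P]
    unfold kf
    ring
  have hsw := integral_integral_swap hint
  have i2 := hint.integral_prod_right
  have i3 : IntegrableOn (kf y x) (Ioi 0) := by
    refine i2.congr ?_
    filter_upwards [ae_restrict_mem measurableSet_Ioi] with k hk
    exact hin k hk
  refine ⟨i3, ?_⟩
  have e3 : ∫ k in Ioi (0:ℝ), (∫ s, f s k) = ∫ k in Ioi (0:ℝ), kf y x k :=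
    setIntegral_congr_fun measurableSet_Ioi fun k hk => hin k hk
  have e4 : ∀ s : ℝ, ∫ k in Ioi (0:ℝ), f s k = P s * h (x - s) y - Real.log 2 * P s := by
    intro s
    obtain ⟨-, e5⟩ := h_fourier hy' (x - s)
    rw [e5]
    show ∫ k in Ioi (0:ℝ), P s * _ = _
    rw [integral_const_mul]
    ring
  rw [← e3, ← hsw]
  simp_rw [e4]
  rw [integral_sub (Ph_integrable x y) (P_integrable.const_mul _), integral_const_mul, integral_P]
  unfold H
  ring

/-- **The rule of `H` beyond the line `4 l`.** -/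
theorem H_beyond {y : ℝ} (h1 : 3 * l < y) (h2 : y < 4 * l) (x : ℝ) :
    H x (y + l) + H x (y - l) - H x y = h x y + 2 * AA (y - 3 * l) x := by
  have hl := l_pos
  have hpi : 4 * l = Real.pi / 2 := by unfold l; ring
  have e0 : H x (y + l) = H x (7 * l - y) := by
    rw [← H_neg_right x (y + l), show -(y + l) = 7 * l - y - 8 * l by ring, ← H_per x (7 * l - y - 8 * l)]
    congr 1
    ring
  obtain ⟨i1, e1⟩ := H_fourier (y := 7 * l - y) (by rw [abs_lt]; constructor <;> linarith) x
  obtain ⟨i2, e2⟩ := H_fourier (y := y - l) (by rw [abs_lt]; constructor <;> linarith) x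
  obtain ⟨i3, e3⟩ := H_fourier (y := y) (by rw [abs_lt]; constructor <;> linarith) x
  obtain ⟨i4, e4⟩ := h_fourier (a := y) (by rw [abs_lt, ← hpi]; constructor <;> linarith) x
  obtain ⟨i5, -⟩ := AA_eq (a := y - 3 * l) (by rw [abs_lt]; constructor <;> linarith) x
  have hk : ∀ k : ℝ, 0 < k → 2 * aa (y - 3 * l) x k = (kf (7 * l - y) x k + kf (y - l) x k) -
      (kf y x k + 2 * (1 - Real.cosh (y * k) * Real.cos (x * k)) / (k * sk k)) := by
    intro k hk
    have hs := sk_pos hk
    have hd := den_k k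
    have a1 : (7 * l - y) * k = 4 * (l * k) - (y - 3 * l) * k := by ring
    have a2 : Real.cosh ((y - l) * k) = 2 * ck1 k * Real.cosh (y * k) - Real.cosh ((y + l) * k) := by
      unfold ck1
      rw [show (y - l) * k = y * k - l * k by ring, show (y + l) * k = y * k + l * k by ring,
        Real.cosh_sub, Real.cosh_add]
      ring
    have a3 : (y + l) * k = 4 * (l * k) + (y - 3 * l) * k := by ring
    unfold kf aa
    rw [a1, a2, a3, Real.cosh_sub, Real.cosh_add, sk_four] 
    rw [sk_four] at hs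
    have hs' := hs.ne'
    have hd' := hd.ne'
    have hk' := hk.ne'
    generalize Real.sinh (4 * (l * k)) = S4 at *
    generalize Real.cosh (4 * (l * k)) = C4 at *
    generalize Real.sinh ((y - 3 * l) * k) = X at *
    generalize Real.cosh ((y - 3 * l) * k) = Y at *
    generalize Real.cosh (y * k) = Z at *
    generalize Real.cos (x * k) = c at *
    have hck : 2 * ck1 k = (2 * ck1 k - 1) + 1 := by ring
    rw [hck]
    rw [add_sub_cancel_right]
    generalize 2 * ck1 k - 1 = D at *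
    field_simp
    ring
  have b1 : ∫ k in Ioi (0:ℝ), 2 * aa (y - 3 * l) x k =
      (∫ k in Ioi (0:ℝ), kf (7 * l - y) x k) + (∫ k in Ioi (0:ℝ), kf (y - l) x k) -
      ((∫ k in Ioi (0:ℝ), kf y x k) +
        ∫ k in Ioi (0:ℝ), 2 * (1 - Real.cosh (y * k) * Real.cos (x * k)) / (k * sk k)) := by
    have c1 := integral_sub (i1.add i2) (i3.add i4)
    have c2 := integral_add i1 i2
    have c3 := integral_add i3 i4
    simp only [Pi.add_apply] at c1
    rw [c2, c3] at c1
    rw [← c1]
    exact setIntegral_congr_fun measurableSet_Ioi fun k hk' => hk k hk'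
  rw [integral_const_mul] at b1
  rw [e0, e1, e2, e3, e4]
  unfold AA
  linarith

end

end NUMF
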