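import Pool.Agent.NUP.MF.Const

/-!
# The bulk constant: closed values of the convolutions at the origin

`∫ P log (cosh 2 s) = log (3 / 2)`, `∫ P log (cosh s) = log ((2 + √2) / 3)`,
`∫ v P = 4 log (4 / 3) + 3 log (1 + r) - 2 log 2`.

The extra relation comes from the entire function `sinh w / tanh (4 w / 3)` which has no zeros
in the strip `|Im w| < 3 l`.
-/

open MeasureTheory Filter Topology Set Complex

noncomputable section

namespace NUMF

/-- `sinh w / tanh (4 w / 3)` -/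
def G0 (w : ℂ) : ℂ := (2 * Complex.cosh (2 / 3 * w) + 1) * Complex.cosh (4 / 3 * w) /
  (4 * Complex.cosh (1 / 3 * w) * Complex.cosh (2 / 3 * w))

/-- its logarithm -/
def el0 (w : ℂ) : ℂ := Complex.log (2 * Complex.cosh (2 / 3 * w) + 1) +
  Complex.log (Complex.cosh (4 / 3 * w)) - Complex.log (Complex.cosh (1 / 3 * w)) -
  Complex.log (Complex.cosh (2 / 3 * w)) - Real.log 4

lemma eight_l : 8 * l = Real.pi := by unfold l; ring

lemma im_smul (a : ℝ) (w : ℂ) : ((a : ℂ) * w).im = a * w.im := by simp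

lemma re_smul (a : ℝ) (w : ℂ) : ((a : ℂ) * w).re = a * w.re := by simp

lemma im13 (w : ℂ) : (1 / 3 * w : ℂ).im = 1 / 3 * w.im := by
  have := im_smul (1 / 3) w; push_cast at this; exact this

lemma im23 (w : ℂ) : (2 / 3 * w : ℂ).im = 2 / 3 * w.im := by
  have := im_smul (2 / 3) w; push_cast at this; exact this

lemma im43' (w : ℂ) : (4 / 3 * w : ℂ).im = 4 / 3 * w.im := by
  have := im_smul (4 / 3) w; push_cast at this; exact this

lemma re13 (w : ℂ) : (1 / 3 * w : ℂ).re = 1 / 3 * w.re := by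
  have := re_smul (1 / 3) w; push_cast at this; exact this

lemma re23 (w : ℂ) : (2 / 3 * w : ℂ).re = 2 / 3 * w.re := by
  have := re_smul (2 / 3) w; push_cast at this; exact this

lemma re43' (w : ℂ) : (4 / 3 * w : ℂ).re = 4 / 3 * w.re := by
  have := re_smul (4 / 3) w; push_cast at this; exact this

lemma abs_im_lt {a : ℝ} (ha : 0 < a) {w : ℂ} (hw : |w.im| < 3 * l) :
    |a * w.im| < a * (3 * l) := by
  rw [abs_mul, abs_of_pos ha]
  exact mul_lt_mul_of_pos_left hw ha

lemma ang {a : ℝ} (ha : 0 < a) (ha' : a ≤ 4 / 3) {w : ℂ} (hw : |w.im| < 3 * l) :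
    |a * w.im| < Real.pi / 2 := by
  have h1 := abs_im_lt ha hw
  have h2 : a * (3 * l) ≤ 4 / 3 * (3 * l) := mul_le_mul_of_nonneg_right ha' (by
    have := l_pos; positivity)
  have h3 := eight_l
  have h4 : 4 / 3 * (3 * l) = Real.pi / 2 := by linarith
  linarith

lemma c1_ne {w : ℂ} (hw : |w.im| < 3 * l) : Complex.cosh (1 / 3 * w) ≠ 0 :=
  cosh_ne (by rw [im13]; exact ang (by norm_num) (by norm_num) hw)

lemma c2_ne {w : ℂ} (hw : |w.im| < 3 * l) : Complex.cosh (2 / 3 * w) ≠ 0 :=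
  cosh_ne (by rw [im23]; exact ang (by norm_num) (by norm_num) hw)

lemma c4_ne {w : ℂ} (hw : |w.im| < 3 * l) : Complex.cosh (4 / 3 * w) ≠ 0 :=
  cosh_ne (by rw [im43']; exact ang (by norm_num) (by norm_num) hw)

lemma re_c3 {w : ℂ} (hw : |w.im| < 3 * l) : 1 ≤ (2 * Complex.cosh (2 / 3 * w) + 1).re := by
  have h1 : (2 * Complex.cosh (2 / 3 * w) + 1).re = 2 * (Complex.cosh (2 / 3 * w)).re + 1 := by
    simp
  rw [h1, re_cosh, im23]
  have h2 : 0 < Real.cos (2 / 3 * w.im) := Real.cos_pos_of_mem_Ioo (by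
    have := ang (a := 2 / 3) (by norm_num) (by norm_num) hw
    rw [abs_lt] at this
    exact ⟨by linarith [this.1], this.2⟩)
  have h3 := Real.cosh_pos (2 / 3 * w : ℂ).re
  have := mul_pos h3 h2
  linarith

lemma c3_slit {w : ℂ} (hw : |w.im| < 3 * l) : 2 * Complex.cosh (2 / 3 * w) + 1 ∈ slitPlane := by
  left
  linarith [re_c3 hw]

lemma c3_ne {w : ℂ} (hw : |w.im| < 3 * l) : 2 * Complex.cosh (2 / 3 * w) + 1 ≠ 0 :=
  slitPlane_ne_zero (c3_slit hw)

lemma G0_ne {w : ℂ} (hw : |w.im| < 3 * l) : G0 w ≠ 0 := by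
  unfold G0
  refine div_ne_zero (mul_ne_zero (c3_ne hw) (c4_ne hw)) ?_
  exact mul_ne_zero (mul_ne_zero (by norm_num) (c1_ne hw)) (c2_ne hw)

lemma el0_re {w : ℂ} (hw : |w.im| < 3 * l) : (el0 w).re = Real.log ‖G0 w‖ := by
  have h1 := norm_pos_iff.2 (c1_ne hw)
  have h2 := norm_pos_iff.2 (c2_ne hw)
  have h3 := norm_pos_iff.2 (c3_ne hw)
  have h4 := norm_pos_iff.2 (c4_ne hw)
  unfold el0 G0
  simp only [sub_re, add_re, Complex.log_re, ofReal_re]
  rw [norm_div, norm_mul, norm_mul, norm_mul, Complex.norm_ofNat,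
    Real.log_div (by positivity) (by positivity), Real.log_mul h3.ne' h4.ne',
    Real.log_mul (by positivity) h2.ne', Real.log_mul (by norm_num) h1.ne']
  ring

lemma el0_diff {w : ℂ} (hw : |w.im| < 3 * l) : DifferentiableAt ℂ el0 w := by
  have k : ∀ a : ℂ, DifferentiableAt ℂ (fun w : ℂ => Complex.cosh (a * w)) w := fun a =>
    (Complex.differentiable_cosh _).comp w ((differentiableAt_const a).mul differentiableAt_id)
  unfold el0
  refine DifferentiableAt.sub_const (((DifferentiableAt.add ?_ ?_).sub ?_).sub ?_) _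
  · exact (((k (2 / 3)).const_mul 2).add_const 1).clog (c3_slit hw)
  · exact (k (4 / 3)).clog (cosh_slit (by
      rw [im43']; exact ang (by norm_num) (by norm_num) hw))
  · exact (k (1 / 3)).clog (cosh_slit (by
      rw [im13]; exact ang (by norm_num) (by norm_num) hw))
  · exact (k (2 / 3)).clog (cosh_slit (by
      rw [im23]; exact ang (by norm_num) (by norm_num) hw))

lemma cosh_eq_zero_pi (z : ℂ) : Complex.sinh (3 * z) = Complex.sinh z * (2 * Complex.cosh (2 * z) + 1) := by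
  rw [show (3 : ℂ) * z = 2 * z + z by ring, Complex.sinh_add, Complex.sinh_two_mul,
    Complex.cosh_two_mul]
  have := Complex.cosh_sq_sub_sinh_sq z
  linear_combination (Complex.sinh z) * this

lemma G0_mul {w : ℂ} (hw : |w.im| < 3 * l) :
    G0 w * Complex.sinh (4 / 3 * w) = Complex.sinh w * Complex.cosh (4 / 3 * w) := by
  have h1 := c1_ne hw
  have h2 := c2_ne hw
  have e1 : Complex.sinh w = Complex.sinh (1 / 3 * w) * (2 * Complex.cosh (2 / 3 * w) + 1) := by
    have := cosh_eq_zero_pi (1 / 3 * w)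
    rw [show (3 : ℂ) * (1 / 3 * w) = w by ring, show (2 : ℂ) * (1 / 3 * w) = 2 / 3 * w by ring] at this
    exact this
  have e2 : Complex.sinh (4 / 3 * w) = 4 * Complex.sinh (1 / 3 * w) * Complex.cosh (1 / 3 * w) *
      Complex.cosh (2 / 3 * w) := by
    rw [show (4 / 3 : ℂ) * w = 2 * (2 / 3 * w) by ring, Complex.sinh_two_mul,
      show (2 / 3 : ℂ) * w = 2 * (1 / 3 * w) by ring, Complex.sinh_two_mul]
    ring
  rw [e1, e2]
  unfold G0
  rw [div_mul_eq_mul_div, div_eq_iff (mul_ne_zero (mul_ne_zero (by norm_num) h1) h2)]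
  ring

/-! ### norms -/

lemma norm_cosh_sq' (x y : ℝ) : ‖Complex.cosh (x + y * I)‖ ^ 2 =
    (Real.cosh (2 * x) + Real.cos (2 * y)) / 2 := by
  have := two_norm_cosh_sq (x + y * I)
  simp only [add_re, ofReal_re, mul_re, I_re, mul_zero, ofReal_im, I_im, mul_one, sub_self,
    add_zero, add_im, mul_im, zero_add] at this
  linarith

lemma norm_sinh_sq' (x y : ℝ) : ‖Complex.sinh (x + y * I)‖ ^ 2 =
    (Real.cosh (2 * x) - Real.cos (2 * y)) / 2 := by
  rw [Complex.sinh_add, Complex.cosh_mul_I, Complex.sinh_mul_I, ← Complex.ofReal_sinh,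
    ← Complex.ofReal_cosh, ← Complex.ofReal_cos, ← Complex.ofReal_sin]
  have e : (((Real.sinh x : ℝ) : ℂ) * ((Real.cos y : ℝ) : ℂ) +
      ((Real.cosh x : ℝ) : ℂ) * (((Real.sin y : ℝ) : ℂ) * I)) =
      ((Real.sinh x * Real.cos y : ℝ) : ℂ) + ((Real.cosh x * Real.sin y : ℝ) : ℂ) * I := by
    push_cast; ring
  rw [e, Complex.sq_norm, Complex.normSq_add_mul_I, Real.cosh_two_mul, Real.cos_two_mul]
  have h1 := Real.cosh_sq x
  have h2 := Real.sin_sq_add_cos_sq y
  have h3 : Real.sin y ^ 2 = 1 - Real.cos y ^ 2 := by linarith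
  rw [mul_pow, mul_pow, h1, h3]
  ring

/-- `‖G0 (x + i y)‖ ^ 2`, cleared -/
lemma G0_sq (x y : ℝ) (hy : |y| < 3 * l) :
    ‖G0 (x + y * I)‖ ^ 2 * (Real.cosh (8 / 3 * x) - Real.cos (8 / 3 * y)) =
      (Real.cosh (2 * x) - Real.cos (2 * y)) / 2 *
        (Real.cosh (8 / 3 * x) + Real.cos (8 / 3 * y)) := by
  have h := G0_mul (w := x + y * I) (by simpa using hy)
  have h1 := congrArg (fun z : ℂ => ‖z‖ ^ 2) h
  simp only [norm_mul, mul_pow] at h1
  have e : (4 / 3 : ℂ) * (x + y * I) = ((4 / 3 * x : ℝ) : ℂ) + ((4 / 3 * y : ℝ) : ℂ) * I := by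
    push_cast; ring
  rw [e, norm_cosh_sq', norm_sinh_sq', norm_sinh_sq',
    show 2 * (4 / 3 * x) = 8 / 3 * x by ring, show 2 * (4 / 3 * y) = 8 / 3 * y by ring] at h1
  linarith

/-! ### growth -/

lemma log_cosh_bound {a : ℝ} (ha : 0 < a) (ha' : a ≤ 4 / 3) : ∃ B : ℝ, ∀ w : ℂ, |w.im| ≤ 2 * l →
    ‖Complex.log (Complex.cosh ((a : ℂ) * w))‖ ≤ a * |w.re| + B := by
  have hl := l_pos
  have hpi := eight_l
  have hb : a * (2 * l) < Real.pi / 2 := by
    have h1 : a * (2 * l) ≤ 4 / 3 * (2 * l) := mul_le_mul_of_nonneg_right ha' (by positivity)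
    linarith
  refine ⟨(2 * |Real.log (Real.cos (a * (2 * l)))| + 2 * Real.pi + 1 + Real.log 2) / 2,
    fun w hw => ?_⟩
  have h1 := F_bound (w := (a : ℂ) * w) hb (by
    rw [im_smul, abs_mul, abs_of_pos ha]
    exact mul_le_mul_of_nonneg_left hw ha.le)
  rw [re_smul, abs_mul, abs_of_pos ha] at h1
  have h2 : Complex.log (Complex.cosh ((a : ℂ) * w)) = (F ((a : ℂ) * w) - Real.log 2) / 2 := by
    unfold F; ring
  have l2 : 0 < Real.log 2 := Real.log_pos (by norm_num)
  rw [h2, norm_div, Complex.norm_ofNat]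
  have h3 := norm_sub_le (F ((a : ℂ) * w)) (Real.log 2 : ℂ)
  rw [Complex.norm_real, Real.norm_eq_abs, abs_of_pos l2] at h3
  linarith

lemma log_c3_bound {w : ℂ} (hw : |w.im| ≤ 2 * l) :
    ‖Complex.log (2 * Complex.cosh (2 / 3 * w) + 1)‖ ≤ |w.re| + (Real.log 3 + Real.pi) := by
  have hl := l_pos
  have hw' : |w.im| < 3 * l := by linarith
  have h1 : 1 ≤ ‖2 * Complex.cosh (2 / 3 * w) + 1‖ :=
    (re_c3 hw').trans ((le_abs_self _).trans (Complex.abs_re_le_norm _))
  have h2 : ‖Complex.cosh (2 / 3 * w)‖ ≤ Real.exp |(2 / 3 * w : ℂ).re| := by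
    have e := two_norm_cosh_sq (2 / 3 * w)
    have e2 := arg_le (2 / 3 * w : ℂ).re (2 / 3 * w : ℂ).im
    have e3 : ‖Complex.cosh (2 / 3 * w)‖ ^ 2 ≤ Real.exp |(2 / 3 * w : ℂ).re| ^ 2 := by
      rw [← Real.exp_nat_mul]
      push_cast
      linarith
    exact (pow_le_pow_iff_left₀ (norm_nonneg _) (Real.exp_pos _).le two_ne_zero).1 e3
  have h3 : |(2 / 3 * w : ℂ).re| ≤ |w.re| := by
    rw [re23, abs_mul, abs_of_pos (by norm_num : (0 : ℝ) < 2 / 3)]
    have := abs_nonneg w.re
    linarith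
  have h4 : ‖2 * Complex.cosh (2 / 3 * w) + 1‖ ≤ 3 * Real.exp |w.re| := by
    have h5 := norm_add_le (2 * Complex.cosh (2 / 3 * w)) 1
    rw [norm_mul, Complex.norm_ofNat, norm_one] at h5
    have h6 := Real.exp_le_exp.2 h3
    have h7 : 1 ≤ Real.exp |w.re| := Real.one_le_exp (abs_nonneg _)
    linarith
  have h5 : Real.log ‖2 * Complex.cosh (2 / 3 * w) + 1‖ ≤ Real.log 3 + |w.re| := by
    have := Real.log_le_log (by linarith) h4
    rwa [Real.log_mul (by norm_num) (Real.exp_pos _).ne', Real.log_exp] at this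
  have h6 : 0 ≤ Real.log ‖2 * Complex.cosh (2 / 3 * w) + 1‖ := Real.log_nonneg h1
  have e := Complex.norm_le_abs_re_add_abs_im (Complex.log (2 * Complex.cosh (2 / 3 * w) + 1))
  rw [Complex.log_re, Complex.log_im, abs_of_nonneg h6] at e
  have := Complex.abs_arg_le_pi (2 * Complex.cosh (2 / 3 * w) + 1)
  linarith

lemma el0_bound : ∃ B : ℝ, ∀ w : ℂ, |w.im| ≤ 2 * l → ‖el0 w‖ ≤ 4 * |w.re| + B := by
  obtain ⟨B1, h1⟩ := log_cosh_bound (a := 1 / 3) (by norm_num) (by norm_num)
  obtain ⟨B2, h2⟩ := log_cosh_bound (a := 2 / 3) (by norm_num) (by norm_num)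
  obtain ⟨B4, h4⟩ := log_cosh_bound (a := 4 / 3) (by norm_num) (by norm_num)
  refine ⟨(Real.log 3 + Real.pi) + B4 + B1 + B2 + ‖(Real.log 4 : ℂ)‖, fun w hw => ?_⟩
  have k1 := h1 w hw
  have k2 := h2 w hw
  have k4 := h4 w hw
  have k3 := log_c3_bound hw
  push_cast at k1 k2 k4
  have := abs_nonneg w.re
  unfold el0
  set a := Complex.log (2 * Complex.cosh (2 / 3 * w) + 1)
  set b := Complex.log (Complex.cosh (4 / 3 * w))
  set c := Complex.log (Complex.cosh (1 / 3 * w))
  set d := Complex.log (Complex.cosh (2 / 3 * w))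
  have t1 := norm_sub_le (a + b - c - d) (Real.log 4 : ℂ)
  have t2 := norm_sub_le (a + b - c) d
  have t3 := norm_sub_le (a + b) c
  have t4 := norm_add_le a b
  linarith

/-! ### the extra relation -/

/-- `log ‖G0 (x + i y)‖` -/
def E0 (x y : ℝ) : ℝ := Real.log ‖G0 (x + y * I)‖

lemma E0_sq (x y : ℝ) (hy : |y| < 3 * l) (hne : Real.cosh (8 / 3 * x) - Real.cos (8 / 3 * y) ≠ 0) :
    2 * E0 x y = Real.log ((Real.cosh (2 * x) - Real.cos (2 * y)) / 2 *
        (Real.cosh (8 / 3 * x) + Real.cos (8 / 3 * y)) /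
        (Real.cosh (8 / 3 * x) - Real.cos (8 / 3 * y))) := by
  have h1 := G0_sq x y hy
  have h2 : ‖G0 (x + y * I)‖ ^ 2 = (Real.cosh (2 * x) - Real.cos (2 * y)) / 2 *
        (Real.cosh (8 / 3 * x) + Real.cos (8 / 3 * y)) /
        (Real.cosh (8 / 3 * x) - Real.cos (8 / 3 * y)) := by
    rw [eq_div_iff hne]; exact h1
  unfold E0
  rw [← h2, Real.log_pow]
  push_cast
  ring

lemma cos_83l : Real.cos (8 / 3 * l) = 1 / 2 := by
  rw [show 8 / 3 * l = Real.pi / 3 by unfold l; ring, Real.cos_pi_div_three]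

lemma cos_83_2l : Real.cos (8 / 3 * (2 * l)) = -(1 / 2) := by
  rw [show 8 / 3 * (2 * l) = Real.pi - Real.pi / 3 by unfold l; ring, Real.cos_pi_sub,
    Real.cos_pi_div_three]

lemma cos_2l : Real.cos (2 * l) = r := by
  rw [r_eq, show 2 * l = Real.pi / 4 by unfold l; ring]

lemma cos_4l : Real.cos (2 * (2 * l)) = 0 := by
  rw [show 2 * (2 * l) = Real.pi / 2 by unfold l; ring, Real.cos_pi_div_two]

/-- the two lines `l` and `2 l` together -/
lemma E0_pair (x : ℝ) : 2 * E0 x l + 2 * E0 x (2 * l) = h x (3 * l) + h x (2 * l) - 2 * Real.log 2 := by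
  have hl := l_pos
  have hc : 1 ≤ Real.cosh (8 / 3 * x) := Real.one_le_cosh _
  have hC : 1 ≤ Real.cosh (2 * x) := Real.one_le_cosh _
  have hr := r_lt_one
  rw [E0_sq x l (by rw [abs_of_pos hl]; linarith) (by rw [cos_83l]; linarith),
    E0_sq x (2 * l) (by rw [abs_of_pos (by linarith)]; linarith) (by rw [cos_83_2l]; linarith),
    cos_83l, cos_83_2l, cos_2l, cos_4l, h2, h3]
  rw [← Real.log_mul]
  · rw [show (2 : ℝ) * Real.log 2 = Real.log 4 by
      rw [show (4 : ℝ) = 2 ^ 2 by norm_num, Real.log_pow]; norm_num]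
    rw [← Real.log_mul (by linarith) (by linarith), ← Real.log_div
      (mul_ne_zero (by linarith) (by linarith)) (by norm_num)]
    congr 1
    generalize Real.cosh (8 / 3 * x) = D at hc ⊢
    generalize Real.cosh (2 * x) = C at hC ⊢
    have a1 : D - 1 / 2 ≠ 0 := by linarith
    have a2 : D + 1 / 2 ≠ 0 := by linarith
    rw [show D - -(1 / 2) = D + 1 / 2 by ring, show D + -(1 / 2) = D - 1 / 2 by ring, sub_zero,
      div_mul_div_comm, div_eq_div_iff (mul_ne_zero a1 a2) (by norm_num)]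
    ring
  · have a1 : 0 < Real.cosh (8 / 3 * x) - 1 / 2 := by linarith
    have a2 : 0 < (Real.cosh (2 * x) - r) := by linarith
    have a3 : 0 < Real.cosh (8 / 3 * x) + 1 / 2 := by linarith
    positivity
  · have a1 : 0 < Real.cosh (8 / 3 * x) - -(1 / 2) := by linarith
    have a2 : 0 < (Real.cosh (2 * x) - 0) := by linarith
    have a3 : 0 < Real.cosh (8 / 3 * x) + -(1 / 2) := by linarith
    positivity

lemma E0_neg (x y : ℝ) (hy : |y| < 3 * l) (hne : Real.cosh (8 / 3 * x) - Real.cos (8 / 3 * y) ≠ 0) :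
    E0 x (-y) = E0 x y := by
  have h1 := E0_sq x y hy hne
  have h2 := E0_sq x (-y) (by rwa [abs_neg]) (by
    rw [show 8 / 3 * (-y) = -(8 / 3 * y) by ring, Real.cos_neg]; exact hne)
  rw [show 8 / 3 * (-y) = -(8 / 3 * y) by ring, show 2 * (-y) = -(2 * y) by ring, Real.cos_neg,
    Real.cos_neg] at h2
  linarith

/-- **the extra relation** -/
theorem conv_23 (x : ℝ) : H x (2 * l) + H x (3 * l) = 2 * Real.log 2 + 2 * E0 x 0 + 2 * E0 x l := by
  have hl := l_pos
  obtain ⟨B, hB⟩ := el0_bound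
  have hB0 : 0 ≤ B := by
    have := (norm_nonneg _).trans (hB 0 (by simpa using hl.le))
    simpa using this
  set f : ℂ → ℂ := fun z => 2 * el0 (x - z) + el0 (x - z + l * I) + el0 (x - z - l * I) with hf
  have him0 : ∀ z : ℂ, |z.im| ≤ l → |(x - z : ℂ).im| ≤ l := by
    intro z hz; simpa using hz
  have him1 : ∀ z : ℂ, |z.im| ≤ l → |(x - z + l * I : ℂ).im| ≤ 2 * l := by
    intro z hz
    have : (x - z + l * I : ℂ).im = - z.im + l := by simp
    rw [this]
    refine (abs_add_le _ _).trans ?_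
    rw [abs_neg, abs_of_pos hl]; linarith
  have him2 : ∀ z : ℂ, |z.im| ≤ l → |(x - z - l * I : ℂ).im| ≤ 2 * l := by
    intro z hz
    have : (x - z - l * I : ℂ).im = - z.im - l := by simp
    rw [this]
    refine (abs_sub _ _).trans ?_
    rw [abs_neg, abs_of_pos hl]; linarith
  have hdf : ∀ z : ℂ, |z.im| ≤ l → DifferentiableAt ℂ f z := by
    intro z hz
    have d0 : DifferentiableAt ℂ (fun z : ℂ => (x - z : ℂ)) z :=
      (differentiableAt_const _).sub differentiableAt_id
    have h0 : DifferentiableAt ℂ (fun z : ℂ => el0 (x - z)) z :=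
      DifferentiableAt.comp z (el0_diff (by linarith [him0 z hz])) d0
    have h1 : DifferentiableAt ℂ (fun z : ℂ => el0 (x - z + l * I)) z :=
      DifferentiableAt.comp z (el0_diff (by linarith [him1 z hz])) (d0.add_const _)
    have h2 : DifferentiableAt ℂ (fun z : ℂ => el0 (x - z - l * I)) z :=
      DifferentiableAt.comp z (el0_diff (by linarith [him2 z hz])) (d0.sub_const _)
    exact ((h0.const_mul 2).add h1).add h2
  have hbf : ∀ z : ℂ, |z.im| ≤ l → ‖f z‖ ≤ (16 * |x| + 4 * B + 16) * Real.exp (1 * |z.re|) := by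
    intro z hz
    have b0 := hB (x - z) (by linarith [him0 z hz])
    have b1 := hB (x - z + l * I) (him1 z hz)
    have b2 := hB (x - z - l * I) (him2 z hz)
    have r0 : (x - z : ℂ).re = x - z.re := by simp
    have r1 : (x - z + l * I : ℂ).re = x - z.re := by simp
    have r2 : (x - z - l * I : ℂ).re = x - z.re := by simp
    rw [r0] at b0
    rw [r1] at b1
    rw [r2] at b2
    have h2 : |x - z.re| ≤ |x| + |z.re| := abs_sub _ _
    have h3 : |z.re| + 1 ≤ Real.exp (1 * |z.re|) := by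
      rw [one_mul]; exact Real.add_one_le_exp _
    have h4 := abs_nonneg x
    have h5 := abs_nonneg z.re
    have h6 : 1 ≤ Real.exp (1 * |z.re|) := by linarith
    have h7 : ‖f z‖ ≤ 2 * ‖el0 (x - z)‖ + ‖el0 (x - z + l * I)‖ + ‖el0 (x - z - l * I)‖ := by
      refine (norm_add_le _ _).trans (add_le_add ((norm_add_le _ _).trans ?_) le_rfl)
      rw [norm_mul, Complex.norm_ofNat]
    calc ‖f z‖ ≤ 16 * (|x| + |z.re|) + 4 * B := by linarith
      _ ≤ _ := by nlinarith
  obtain ⟨i1, i2, i3, e⟩ := sum_rule (f := f) (A := 16 * |x| + 4 * B + 16) (c := 1) zero_le_one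
    (by norm_num) (fun z hz => (hdf z hz).continuousAt.continuousWithinAt)
    (fun z hz => hdf z hz.le) hbf
  have hre : ∀ (s y : ℝ), |y| < 3 * l → (el0 (s + y * I)).re = E0 s y := by
    intro s y hy
    rw [el0_re (by simpa using hy)]; rfl
  have hne : ∀ s : ℝ, Real.cosh (8 / 3 * s) - Real.cos (8 / 3 * l) ≠ 0 := by
    intro s
    have := Real.one_le_cosh (8 / 3 * s)
    rw [cos_83l]; linarith
  have hne2 : ∀ s : ℝ, Real.cosh (8 / 3 * s) - Real.cos (8 / 3 * (2 * l)) ≠ 0 := by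
    intro s
    have := Real.one_le_cosh (8 / 3 * s)
    rw [cos_83_2l]; linarith
  have l3 : |l| < 3 * l := by rw [abs_of_pos hl]; linarith
  have l32 : |2 * l| < 3 * l := by rw [abs_of_pos (by linarith)]; linarith
  have l0 : |(0 : ℝ)| < 3 * l := by simpa using hl
  -- real part of the right side
  have r0 : (f 0).re = 2 * E0 x 0 + 2 * E0 x l := by
    rw [hf]
    simp only [sub_zero]
    have a0 := hre x 0 l0
    have a1 := hre x l l3
    have a2 := hre x (-l) (by rwa [abs_neg])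
    rw [E0_neg x l l3 (hne x)] at a2
    rw [show (x : ℂ) + ((0 : ℝ) : ℂ) * I = x by push_cast; ring] at a0
    rw [show (x : ℂ) + ((-l : ℝ) : ℂ) * I = x - l * I by push_cast; ring] at a2
    simp only [add_re, mul_re, re_ofNat, im_ofNat, zero_mul, sub_zero]
    rw [a0, a1, a2]
    ring
  -- real part of the integrand
  have rs : ∀ s : ℝ, (f (s + l * I) + f (s - l * I) - f s).re =
      h (x - s) (3 * l) + h (x - s) (2 * l) - 2 * Real.log 2 := by
    intro s
    rw [← E0_pair (x - s)]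
    have a1 := hre (x - s) l l3
    have a2 := hre (x - s) (-l) (by rwa [abs_neg])
    rw [E0_neg (x - s) l l3 (hne _)] at a2
    have a3 := hre (x - s) (2 * l) l32
    have a4 := hre (x - s) (-(2 * l)) (by rwa [abs_neg])
    rw [E0_neg (x - s) (2 * l) l32 (hne2 _)] at a4
    push_cast at a1 a2 a3 a4
    have e1 : f (s + l * I) + f (s - l * I) - f s = el0 ((x : ℂ) - s + l * I) +
        el0 ((x : ℂ) - s + -l * I) + el0 ((x : ℂ) - s + 2 * l * I) +
        el0 ((x : ℂ) - s + -(2 * l) * I) := by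
      simp only [hf]
      rw [show (x : ℂ) - (s + l * I) = x - s + -l * I by ring,
        show (x : ℂ) - (s - l * I) = x - s + l * I by ring,
        show (x : ℂ) - s + -l * I + l * I = x - s by ring,
        show (x : ℂ) - s + -l * I - l * I = x - s + -(2 * l) * I by ring,
        show (x : ℂ) - s + l * I + l * I = x - s + 2 * l * I by ring,
        show (x : ℂ) - s + l * I - l * I = x - s by ring,
        show (x : ℂ) - s - l * I = x - s + -l * I by ring]
      ring
    rw [e1, add_re, add_re, add_re, a1, a2, a3, a4]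
    ring
  have i4 : Integrable fun s : ℝ => (P s : ℂ) * (f (s + l * I) + f (s - l * I) - f s) := by
    refine ((i1.add i2).sub i3).congr (Eventually.of_forall fun s => ?_)
    simp only [Pi.add_apply, Pi.sub_apply]
    ring
  have e2 : ∫ s : ℝ, P s * (h (x - s) (3 * l) + h (x - s) (2 * l) - 2 * Real.log 2) =
      2 * E0 x 0 + 2 * E0 x l := by
    rw [← r0, ← e]
    have hRe2 : (∫ s : ℝ, (P s : ℂ) * (f (s + l * I) + f (s - l * I) - f s)).re =
        ∫ s : ℝ, ((P s : ℂ) * (f (s + l * I) + f (s - l * I) - f s)).re := (integral_re i4).symm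
    rw [hRe2]
    refine integral_congr_ae (Eventually.of_forall fun s => ?_)
    simp only
    rw [Complex.re_ofReal_mul, rs]
  have j1 := Ph_integrable x (3 * l)
  have j2 := Ph_integrable x (2 * l)
  have j3 : Integrable fun s => P s * (2 * Real.log 2) := P_integrable.mul_const _
  have b1 := integral_add j1 j2
  have b2 := integral_sub (j1.add j2) j3
  simp only [Pi.add_apply] at b1 b2
  rw [integral_P_mul] at b2
  have e3 : ∫ s : ℝ, P s * (h (x - s) (3 * l) + h (x - s) (2 * l) - 2 * Real.log 2) =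
      ∫ s : ℝ, (P s * h (x - s) (3 * l) + P s * h (x - s) (2 * l) - P s * (2 * Real.log 2)) := by
    refine integral_congr_ae (Eventually.of_forall fun s => ?_)
    simp only
    ring
  rw [e3, b2, b1] at e2
  unfold H
  linarith

/-! ### the closed values -/

lemma G0_zero : G0 0 = 3 / 4 := by
  unfold G0
  simp
  norm_num

lemma E0_zero : E0 0 0 = Real.log (3 / 4) := by
  unfold E0
  have : ((0 : ℝ) : ℂ) + ((0 : ℝ) : ℂ) * I = 0 := by simp
  rw [this, G0_zero]
  norm_num

lemma E0_zero_l : 2 * E0 0 l = Real.log (3 / 2 * (1 - r)) := by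
  have hl := l_pos
  rw [E0_sq 0 l (by rw [abs_of_pos hl]; linarith) (by rw [cos_83l]; norm_num), cos_83l, cos_2l]
  simp only [mul_zero, Real.cosh_zero]
  congr 1
  ring

/-- the four values at the origin -/
theorem H_zero : H 0 0 = 2 * Real.log (4 / 3) + 2 * Real.log (1 + r) - Real.log 2 ∧
    H 0 l = Real.log (4 / 3) + Real.log (1 + r) ∧ H 0 (2 * l) = Real.log (3 / 2) ∧
    H 0 (3 * l) = Real.log (9 / 8) - Real.log (1 + r) := by
  have hl := l_pos
  have e0 := conv_h 0 (y := 0) (by simpa using hl.le)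
  have e1 := conv_h 0 (y := l) (by rw [abs_of_pos hl]; linarith)
  have e2 := conv_h 0 (y := 2 * l) (by rw [abs_of_pos (by linarith)]; linarith)
  have e3 := conv_23 0
  have hr := r_lt_one
  have hr0 := r_pos
  have hs : r ^ 2 = 1 / 2 := by
    unfold r
    rw [div_pow, Real.sq_sqrt (by norm_num)]; norm_num
  rw [zero_add, zero_sub, H_neg_right] at e0
  rw [sub_self, show l + l = 2 * l by ring] at e1
  rw [show 2 * l + l = 3 * l by ring, show 2 * l - l = l by ring] at e2
  rw [h0, mul_zero, Real.cosh_zero] at e0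
  rw [h1, mul_zero, Real.cosh_zero] at e1
  rw [h2, mul_zero, Real.cosh_zero, Real.log_one] at e2
  rw [E0_zero, E0_zero_l] at e3
  have hone : Real.log (1 - r) = - Real.log 2 - Real.log (1 + r) := by
    have : (1 - r) * (1 + r) = 2⁻¹ := by linarith
    have h5 := congrArg Real.log this
    rw [Real.log_mul (by linarith) (by linarith), Real.log_inv] at h5
    linarith
  have l4 : Real.log 4 = 2 * Real.log 2 := by
    rw [show (4 : ℝ) = 2 ^ 2 by norm_num, Real.log_pow]; norm_num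
  have l8 : Real.log 8 = 3 * Real.log 2 := by
    rw [show (8 : ℝ) = 2 ^ 3 by norm_num, Real.log_pow]; norm_num
  have l9 : Real.log 9 = 2 * Real.log 3 := by
    rw [show (9 : ℝ) = 3 ^ 2 by norm_num, Real.log_pow]; norm_num
  have a1 : Real.log (3 / 4) = Real.log 3 - 2 * Real.log 2 := by
    rw [Real.log_div (by norm_num) (by norm_num), l4]
  have a2 : Real.log (3 / 2 * (1 - r)) = Real.log 3 - Real.log 2 + Real.log (1 - r) := by
    rw [Real.log_mul (by norm_num) (by linarith), Real.log_div (by norm_num) (by norm_num)]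
  have a3 : Real.log (4 / 3) = 2 * Real.log 2 - Real.log 3 := by
    rw [Real.log_div (by norm_num) (by norm_num), l4]
  have a4 : Real.log (3 / 2) = Real.log 3 - Real.log 2 := by
    rw [Real.log_div (by norm_num) (by norm_num)]
  have a5 : Real.log (9 / 8) = 2 * Real.log 3 - 3 * Real.log 2 := by
    rw [Real.log_div (by norm_num) (by norm_num), l8, l9]
  have e0' : Real.log (1 + 1) = Real.log 2 := by norm_num
  rw [a1, a2, hone] at e3
  rw [a3, a4, a5]
  rw [e0'] at e0
  refine ⟨?_, ?_, ?_, ?_⟩ <;> linarith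

/-- **the bulk constant** -/
theorem int_vP : Integrable (fun s => P s * v s) ∧
    ∫ s, P s * v s = 4 * Real.log (4 / 3) + 3 * Real.log (1 + r) - 2 * Real.log 2 := by
  have j0 := Ph_integrable 0 0
  have j3 := Ph_integrable 0 (3 * l)
  have hv : ∀ s, P s * v s = P s * h (0 - s) 0 - P s * h (0 - s) (3 * l) := by
    intro s
    rw [zero_sub, h_neg_left, h_neg_left, v_eq]; ring
  have e := integral_sub j0 j3
  obtain ⟨b0, -, -, b3⟩ := H_zero
  unfold H at b0 b3
  simp only [hv]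
  refine ⟨j0.sub j3, ?_⟩
  rw [e, b0, b3]
  have l4 : Real.log 4 = 2 * Real.log 2 := by
    rw [show (4 : ℝ) = 2 ^ 2 by norm_num, Real.log_pow]; norm_num
  have l8 : Real.log 8 = 3 * Real.log 2 := by
    rw [show (8 : ℝ) = 2 ^ 3 by norm_num, Real.log_pow]; norm_num
  have l9 : Real.log 9 = 2 * Real.log 3 := by
    rw [show (9 : ℝ) = 3 ^ 2 by norm_num, Real.log_pow]; norm_num
  have a3 : Real.log (4 / 3) = 2 * Real.log 2 - Real.log 3 := by
    rw [Real.log_div (by norm_num) (by norm_num), l4]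
  have a5 : Real.log (9 / 8) = 2 * Real.log 3 - 3 * Real.log 2 := by
    rw [Real.log_div (by norm_num) (by norm_num), l8, l9]
  rw [a3, a5]
  ring

/-- the bulk factor: `(4 + 2 √2) exp (∫ P v) = ((2 / 3) (2 + √2)) ^ 4` -/
theorem exp_int_vP : (4 + 2 * √2) * Real.exp (∫ s, P s * v s) = (2 / 3 * (2 + √2)) ^ 4 := by
  rw [int_vP.2]
  have hr0 := r_pos
  have e1 : Real.exp (4 * Real.log (4 / 3) + 3 * Real.log (1 + r) - 2 * Real.log 2) =
      (4 / 3) ^ 4 * (1 + r) ^ 3 / 2 ^ 2 := by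
    rw [Real.exp_sub, Real.exp_add]
    have k : ∀ (n : ℕ) {x : ℝ}, 0 < x → Real.exp (n * Real.log x) = x ^ n := by
      intro n x hx
      rw [← Real.log_pow, Real.exp_log (pow_pos hx n)]
    have k4 := k 4 (x := 4 / 3) (by norm_num)
    have k3 := k 3 (x := 1 + r) (by linarith)
    have k2 := k 2 (x := 2) (by norm_num)
    push_cast at k4 k3 k2
    rw [k4, k3, k2]
  rw [e1]
  have e2 : √2 = 2 * r := by unfold r; ring
  rw [e2]
  ring

end NUMF

end
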