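import Pool.Agent.NUP.MF.Forward

/-!
# Fourier representation of `H` (potential of the cloud of one row)

`H x a = log 2 + ∫_0^∞ 2 (1 - cosh (ak) cos (kx) / (2c - 1)) / (k sinh (πk/2)) dk`, `|a| < 4l`.
-/

set_option autoImplicit false

open MeasureTheory Set Filter Topology

namespace NUMF

noncomputable section

/-- the integrand of `h_fourier` -/
def hk (a t k : ℝ) : ℝ := 2 * (1 - Real.cosh (a * k) * Real.cos (t * k)) / (k * sk k)

lemma hk_eq (a t : ℝ) {k : ℝ} : hk a t k = -2 * (ck ((a : ℂ) + t * Complex.I) k).re := by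
  unfold hk ck
  rw [Complex.div_ofReal_re, Complex.sub_re, re_cosh, Complex.one_re]
  have h1 : (((a : ℂ) + t * Complex.I) * k).re = a * k := by rw [re_mul_ofReal']; simp
  have h2 : (((a : ℂ) + t * Complex.I) * k).im = t * k := by simp
  rw [h1, h2]
  ring

lemma hk_le {a b : ℝ} (ha : |a| ≤ b) (t : ℝ) {k : ℝ} (hk0 : 0 < k) :
    |hk a t k| ≤ 2 * (a ^ 2 + t ^ 2) * dom b k := by
  rw [hk_eq, abs_mul]
  have h1 : |(ck ((a : ℂ) + t * Complex.I) k).re| ≤ ‖ck ((a : ℂ) + t * Complex.I) k‖ :=
    Complex.abs_re_le_norm _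
  have h2 := ck_le (z := (a : ℂ) + t * Complex.I) (b := b) (by simpa using ha) hk0
  have h3 : ‖(a : ℂ) + t * Complex.I‖ ^ 2 = a ^ 2 + t ^ 2 := by
    rw [← Complex.normSq_eq_norm_sq, Complex.normSq_add_mul_I]
  rw [h3] at h2
  have h4 : |(-2:ℝ)| = 2 := by norm_num
  rw [h4]
  calc 2 * |(ck ((a : ℂ) + t * Complex.I) k).re| ≤ 2 * ((a ^ 2 + t ^ 2) * dom b k) := by
        gcongr
        exact h1.trans h2
    _ = _ := by ring

lemma hk_meas2 (a x : ℝ) : Measurable fun p : ℝ × ℝ => hk a (x - p.1) p.2 := by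
  unfold hk
  have h1 : Measurable fun p : ℝ × ℝ => sk p.2 := sk_meas.comp measurable_snd
  fun_prop

lemma dom_meas (b : ℝ) : Measurable (dom b) := by
  unfold dom
  have := sk_meas
  fun_prop

lemma P_quad_integrable (x a : ℝ) : Integrable fun s => P s * (2 * (a ^ 2 + (x - s) ^ 2)) := by
  refine P_integrable_mul (A := 2 * (a ^ 2 + 2 * x ^ 2 + 4)) (c := 1) (by norm_num)
    (Continuous.aestronglyMeasurable (by fun_prop)) fun s => ?_
  have h1 : s ^ 2 ≤ 2 * Real.exp (1 * |s|) := by
    have h2 := Real.quadratic_le_exp_of_nonneg (abs_nonneg s)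
    rw [one_mul, ← sq_abs]
    have h3 := abs_nonneg s
    nlinarith
  have h3 : 1 ≤ Real.exp (1 * |s|) := Real.one_le_exp (by positivity)
  have h4 : (x - s) ^ 2 ≤ 2 * x ^ 2 + 2 * s ^ 2 := by nlinarith [sq_nonneg (x + s)]
  rw [abs_of_nonneg (by positivity)]
  nlinarith [sq_nonneg a, sq_nonneg x]

lemma P_cos_conv (k x : ℝ) : Integrable (fun s => P s * Real.cos ((x - s) * k)) ∧
    ∫ s, P s * Real.cos ((x - s) * k) = Real.cos (x * k) / (2 * ck1 k - 1) := by
  have i1 := (P_forward k).1
  have e1 := (P_forward k).2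
  have i2 : Integrable fun s => P s * Real.sin (k * s) := by
    refine P_integrable.mul_bdd (c := 1) (Continuous.aestronglyMeasurable (by fun_prop)) ?_
    refine Eventually.of_forall fun t => ?_
    rw [Real.norm_eq_abs]
    exact Real.abs_sin_le_one _
  have e2 : ∫ s, P s * Real.sin (k * s) = 0 := by
    have h1 : ∫ s, P s * Real.sin (k * s) = ∫ s, P (-s) * Real.sin (k * -s) :=
      (integral_neg_eq_self (fun s => P s * Real.sin (k * s)) volume).symm
    have h2 : ∀ s, P (-s) * Real.sin (k * -s) = -(P s * Real.sin (k * s)) := by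
      intro s
      rw [P_neg, mul_neg, Real.sin_neg]
      ring
    simp_rw [h2] at h1
    rw [integral_neg] at h1
    linarith
  have hf : ∀ s, P s * Real.cos ((x - s) * k) =
      Real.cos (x * k) * (P s * Real.cos (k * s)) + Real.sin (x * k) * (P s * Real.sin (k * s)) := by
    intro s
    rw [show (x - s) * k = x * k - k * s by ring, Real.cos_sub]
    ring
  simp_rw [hf]
  have j1 := i1.const_mul (Real.cos (x * k))
  have j2 := i2.const_mul (Real.sin (x * k))
  refine ⟨j1.add j2, ?_⟩
  rw [integral_add j1 j2, integral_const_mul, integral_const_mul, e1, e2]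
  ring

/-- **Fourier representation of `H`** -/
theorem H_fourier_hf {a : ℝ} (ha : |a| < Real.pi / 2) (x : ℝ) :
    IntegrableOn (fun k => 2 * (1 - Real.cosh (a * k) * Real.cos (x * k) / (2 * ck1 k - 1)) / (k * sk k))
      (Ioi 0) ∧
    H x a = Real.log 2 +
      ∫ k in Ioi (0:ℝ), 2 * (1 - Real.cosh (a * k) * Real.cos (x * k) / (2 * ck1 k - 1)) / (k * sk k) := by
  set ν : Measure ℝ := volume.restrict (Ioi (0:ℝ)) with hν
  -- product integrability
  have hprod : Integrable (fun p : ℝ × ℝ => P p.1 * hk a (x - p.1) p.2) (volume.prod ν) := by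
    have h1 : Integrable (fun p : ℝ × ℝ => (P p.1 * (2 * (a ^ 2 + (x - p.1) ^ 2))) * dom |a| p.2)
        (volume.prod ν) := (P_quad_integrable x a).mul_prod (dom_integrable ha)
    refine h1.mono' ?_ ?_
    · exact ((P_cont.measurable.comp measurable_fst).mul (hk_meas2 a x)).aestronglyMeasurable
    · have h2 : ∀ᵐ p : ℝ × ℝ ∂(volume.prod ν), 0 < p.2 := by
        have h3 : ∀ᵐ k ∂ν, 0 < k := by
          rw [hν]
          filter_upwards [ae_restrict_mem measurableSet_Ioi] with k hk
          exact hk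
        have h4 := (Measure.quasiMeasurePreserving_snd (μ := (volume : Measure ℝ)) (ν := ν)).ae h3
        exact h4
      filter_upwards [h2] with p hp
      rw [Real.norm_eq_abs, abs_mul, abs_of_pos (P_pos _)]
      have h5 := hk_le (le_refl |a|) (x - p.1) hp
      have h6 := (P_pos p.1).le
      calc P p.1 * |hk a (x - p.1) p.2| ≤ P p.1 * (2 * (a ^ 2 + (x - p.1) ^ 2) * dom |a| p.2) := by gcongr
        _ = _ := by ring
  have hswap := integral_integral_swap (f := fun s k => P s * hk a (x - s) k) (μ := volume) (ν := ν) hprod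
  have hi2 : Integrable (fun k => ∫ s, P s * hk a (x - s) k) ν := hprod.integral_prod_right
  -- inner integral in `s`
  have hin : ∀ k : ℝ, ∫ s, P s * hk a (x - s) k =
      2 * (1 - Real.cosh (a * k) * Real.cos (x * k) / (2 * ck1 k - 1)) / (k * sk k) := by
    intro k
    obtain ⟨i1, e1⟩ := P_cos_conv k x
    have hf : ∀ s, P s * hk a (x - s) k = 2 / (k * sk k) * P s -
        2 * Real.cosh (a * k) / (k * sk k) * (P s * Real.cos ((x - s) * k)) := by
      intro s
      unfold hk
      ring
    simp_rw [hf]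
    rw [integral_sub (P_integrable.const_mul _) (i1.const_mul _), integral_const_mul,
      integral_const_mul, integral_P, e1]
    ring
  simp_rw [hin] at hi2 hswap
  refine ⟨hi2, ?_⟩
  rw [← hswap]
  have hH : ∀ s, P s * h (x - s) a = P s * Real.log 2 + ∫ k, P s * hk a (x - s) k ∂ν := by
    intro s
    rw [(h_fourier ha (x - s)).2, mul_add, integral_const_mul]
    rfl
  unfold H
  simp_rw [hH]
  rw [integral_add (P_integrable.mul_const _) hprod.integral_prod_left, integral_P_mul]

end

end NUMF
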