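import Pool.Agent.NUP.MF.Quanta

/-!
# The logarithmic integrals

`∫_0^∞ log (1 + 2 cos a e^{-s} + e^{-2s}) ds = π²/6 - a²/2` for `|a| ≤ π`, with the corollaries
`∫ v = ∫ V = 9 π² / 32`, the one loop constant `- π²/8` and the constant `-5 π²/72` of `Q`.
-/

set_option autoImplicit false

open MeasureTheory Set Filter Topology

namespace NUMF

noncomputable section

/-- `log (1 + 2 cos a e^{-s} + e^{-2s})` -/
def ell (a s : ℝ) : ℝ := Real.log (1 + 2 * Real.cos a * Real.exp (-s) + Real.exp (-s) ^ 2)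

/-- `- 2 log (1 - e^{-s})` -/
def mell (s : ℝ) : ℝ := -2 * Real.log (1 - Real.exp (-s))

lemma x_lt {s : ℝ} (hs : 0 < s) : Real.exp (-s) < 1 := by
  rw [Real.exp_lt_one_iff]
  linarith

lemma ell_arg_ge (a : ℝ) {s : ℝ} (_hs : 0 < s) :
    (1 - Real.exp (-s)) ^ 2 ≤ 1 + 2 * Real.cos a * Real.exp (-s) + Real.exp (-s) ^ 2 := by
  have h1 := Real.neg_one_le_cos a
  have h2 := Real.exp_pos (-s)
  nlinarith

lemma ell_arg_le (a : ℝ) {s : ℝ} (_hs : 0 < s) :
    1 + 2 * Real.cos a * Real.exp (-s) + Real.exp (-s) ^ 2 ≤ (1 + Real.exp (-s)) ^ 2 := by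
  have h1 := Real.cos_le_one a
  have h2 := Real.exp_pos (-s)
  nlinarith

lemma ell_arg_pos (a : ℝ) {s : ℝ} (hs : 0 < s) :
    0 < 1 + 2 * Real.cos a * Real.exp (-s) + Real.exp (-s) ^ 2 := by
  have h1 := ell_arg_ge a hs
  have h2 := x_lt hs
  have h3 : 0 < (1 - Real.exp (-s)) ^ 2 := by
    have : 0 < 1 - Real.exp (-s) := by linarith
    positivity
  linarith

lemma abs_ell_le (a : ℝ) {s : ℝ} (hs : 0 < s) : |ell a s| ≤ mell s := by
  have h1 := ell_arg_ge a hs
  have h2 := ell_arg_le a hs
  have h3 := x_lt hs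
  have h4 := Real.exp_pos (-s)
  have h5 : 0 < 1 - Real.exp (-s) := by linarith
  have h6 := ell_arg_pos a hs
  have e1 : Real.log ((1 - Real.exp (-s)) ^ 2) = 2 * Real.log (1 - Real.exp (-s)) := by
    rw [Real.log_pow]; push_cast; ring
  have e2 : Real.log ((1 + Real.exp (-s)) ^ 2) ≤ -2 * Real.log (1 - Real.exp (-s)) := by
    have e3 : Real.log ((1 + Real.exp (-s)) ^ 2) = 2 * Real.log (1 + Real.exp (-s)) := by
      rw [Real.log_pow]; push_cast; ring
    have e4 : Real.log (1 + Real.exp (-s)) + Real.log (1 - Real.exp (-s)) ≤ 0 := by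
      rw [← Real.log_mul (by linarith) h5.ne']
      refine Real.log_nonpos (by positivity) ?_
      nlinarith
    rw [e3]
    linarith
  have l1 := Real.log_le_log (by positivity) h1
  have l2 := Real.log_le_log h6 h2
  unfold ell mell
  rw [abs_le]
  constructor <;> linarith

lemma mell_le {s : ℝ} (hs : 0 < s) : mell s ≤ 6 * (Real.exp (-1 * |s|) + Real.exp (-1 * |s|) * |Real.log s|) := by
  have hx := x_lt hs
  have hx0 := Real.exp_pos (-s)
  have e : Real.exp (-1 * |s|) = Real.exp (-s) := by rw [abs_of_pos hs]; congr 1; ring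
  rw [e]
  unfold mell
  have hab := abs_nonneg (Real.log s)
  by_cases h1 : 1 ≤ s
  · have h2 : Real.exp (-s) ≤ 1 / 2 := by
      rw [Real.exp_neg, inv_eq_one_div]
      refine one_div_le_one_div_of_le (by norm_num) ?_
      have := Real.add_one_le_exp s
      linarith
    have h3 : 1 - (1 - Real.exp (-s))⁻¹ ≤ Real.log (1 - Real.exp (-s)) :=
      Real.one_sub_inv_le_log_of_pos (by linarith)
    have h4 : (1 - Real.exp (-s))⁻¹ ≤ 1 + 2 * Real.exp (-s) := by
      rw [inv_le_iff_one_le_mul₀ (by linarith)]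
      nlinarith
    have h5 : 0 ≤ Real.exp (-s) * |Real.log s| := by positivity
    linarith
  · have h1' : s < 1 := not_le.1 h1
    have h2 : s / 2 ≤ 1 - Real.exp (-s) := by
      have h3 : Real.exp (-s) ≤ 1 / (1 + s) := by
        rw [Real.exp_neg, inv_eq_one_div]
        refine one_div_le_one_div_of_le (by linarith) ?_
        have := Real.add_one_le_exp s
        linarith
      have h4 : s / 2 ≤ 1 - 1 / (1 + s) := by
        rw [le_sub_iff_add_le, ← le_sub_iff_add_le', div_le_iff₀ (by linarith)]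
        nlinarith
      linarith
    have h3 := Real.log_le_log (by linarith) h2
    rw [Real.log_div hs.ne' two_ne_zero] at h3
    have h4 : Real.log s = -|Real.log s| := by
      rw [abs_of_nonpos (Real.log_nonpos hs.le h1'.le)]
      ring
    have l2' : Real.log 2 ≤ 1 := by
      have := Real.log_two_lt_d9
      linarith
    have h5 : 1 / 3 ≤ Real.exp (-s) := by
      have h6 : Real.exp (-1) ≤ Real.exp (-s) := Real.exp_le_exp.2 (by linarith)
      have h7 : (1:ℝ) / 3 ≤ Real.exp (-1) := by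
        rw [Real.exp_neg, inv_eq_one_div]
        refine one_div_le_one_div_of_le (Real.exp_pos _) ?_
        have := Real.exp_one_lt_d9
        linarith
      linarith
    nlinarith

lemma mell_integrable : IntegrableOn mell (Ioi 0) := by
  have h1 : Integrable fun s : ℝ => 6 * (Real.exp (-1 * |s|) + Real.exp (-1 * |s|) * |Real.log s|) :=
    ((int_exp_abs one_pos).add (int_exp_log one_pos)).const_mul 6
  refine Integrable.mono' h1.integrableOn ?_ ?_
  · unfold mell
    exact (Measurable.aestronglyMeasurable (by fun_prop))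
  · filter_upwards [ae_restrict_mem measurableSet_Ioi] with s hs
    have hs' : 0 < s := hs
    have h2 := abs_ell_le 0 hs'
    rw [Real.norm_eq_abs, abs_of_nonneg ((abs_nonneg _).trans h2)]
    exact mell_le hs'

lemma ell_meas (a : ℝ) : Measurable (ell a) := by
  unfold ell
  fun_prop

lemma ell_integrable (a : ℝ) : IntegrableOn (ell a) (Ioi 0) := by
  refine Integrable.mono' mell_integrable (ell_meas a).aestronglyMeasurable ?_
  filter_upwards [ae_restrict_mem measurableSet_Ioi] with s hs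
  exact abs_ell_le a hs

/-- the value of the integral -/
def L (a : ℝ) : ℝ := ∫ s in Ioi (0:ℝ), ell a s

lemma L_cont : Continuous L := by
  unfold L
  refine continuous_of_dominated (bound := mell) (fun a => (ell_meas a).aestronglyMeasurable) ?_
    mell_integrable ?_
  · intro a
    filter_upwards [ae_restrict_mem measurableSet_Ioi] with s hs
    exact abs_ell_le a hs
  · filter_upwards [ae_restrict_mem measurableSet_Ioi] with s hs
    unfold ell
    exact Continuous.log (by fun_prop) fun a => (ell_arg_pos a hs).ne'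

/-- derivative in `a` -/
def dell (a s : ℝ) : ℝ := -(2 * Real.sin a * Real.exp (-s)) /
  (1 + 2 * Real.cos a * Real.exp (-s) + Real.exp (-s) ^ 2)

lemma hasDerivAt_ell (a : ℝ) {s : ℝ} (hs : 0 < s) : HasDerivAt (fun a => ell a s) (dell a s) a := by
  have h1 : HasDerivAt (fun a => 1 + 2 * Real.cos a * Real.exp (-s) + Real.exp (-s) ^ 2)
      (2 * (-Real.sin a) * Real.exp (-s)) a := by
    have h2 := ((Real.hasDerivAt_cos a).const_mul 2).mul_const (Real.exp (-s))
    have h3 := (h2.const_add 1).add_const (Real.exp (-s) ^ 2)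
    exact h3
  have h2 := h1.log (ell_arg_pos a hs).ne'
  refine h2.congr_deriv ?_
  unfold dell
  ring

lemma integral_dell {a : ℝ} (h1 : -Real.pi < a) (h2 : a < Real.pi)
    (hi : IntegrableOn (dell a) (Ioi 0)) : ∫ s in Ioi (0:ℝ), dell a s = -a := by
  set α := a / 2 with hα
  have ha : a = 2 * α := by rw [hα]; ring
  have hc : 0 < Real.cos α := Real.cos_pos_of_mem_Ioo ⟨by linarith, by linarith⟩
  set T := Real.tan α with hT
  have hTc : T * Real.cos α = Real.sin α := Real.tan_mul_cos hc.ne'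
  have hd : ∀ s : ℝ, HasDerivAt (fun s => -2 * Real.arctan (T * ((1 - Real.exp (-s)) / (1 + Real.exp (-s)))))
      (dell a s) s := by
    intro s
    have hx := Real.exp_pos (-s)
    have d0 : HasDerivAt (fun s : ℝ => Real.exp (-s)) (-Real.exp (-s)) s := by
      have := (hasDerivAt_neg s).exp
      simpa using this
    have d1 : HasDerivAt (fun s : ℝ => 1 - Real.exp (-s)) (Real.exp (-s)) s := by
      have := d0.const_sub 1
      simpa using this
    have d2 : HasDerivAt (fun s : ℝ => 1 + Real.exp (-s)) (-Real.exp (-s)) s := d0.const_add 1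
    have d3 := d1.div d2 (by positivity)
    have d4 := ((d3.const_mul T).arctan).const_mul (-2)
    refine d4.congr_deriv ?_
    unfold dell
    rw [ha, Real.sin_two_mul, Real.cos_two_mul, ← hTc]
    have hs2 := Real.sin_sq_add_cos_sq α
    rw [← hTc] at hs2
    have hden : 1 + 2 * (2 * Real.cos α ^ 2 - 1) * Real.exp (-s) + Real.exp (-s) ^ 2 =
        Real.cos α ^ 2 * ((1 + Real.exp (-s)) ^ 2 + T ^ 2 * (1 - Real.exp (-s)) ^ 2) := by
      linear_combination (-(1 - Real.exp (-s)) ^ 2) * hs2
    rw [hden]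
    have p1 : 0 < (1 + Real.exp (-s)) ^ 2 + T ^ 2 * (1 - Real.exp (-s)) ^ 2 := by positivity
    have p2 : 1 + (T * ((1 - Real.exp (-s)) / (1 + Real.exp (-s)))) ^ 2 =
        ((1 + Real.exp (-s)) ^ 2 + T ^ 2 * (1 - Real.exp (-s)) ^ 2) / (1 + Real.exp (-s)) ^ 2 := by
      field_simp
    simp only [Pi.div_apply]
    rw [p2]
    field_simp
    ring
  have ht : Tendsto (fun s => -2 * Real.arctan (T * ((1 - Real.exp (-s)) / (1 + Real.exp (-s))))) atTop
      (𝓝 (-a)) := by
    have t1 : Tendsto (fun s : ℝ => Real.exp (-s)) atTop (𝓝 0) :=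
      Real.tendsto_exp_atBot.comp tendsto_neg_atTop_atBot
    have t2 : Tendsto (fun s : ℝ => T * ((1 - Real.exp (-s)) / (1 + Real.exp (-s)))) atTop
        (𝓝 (T * ((1 - 0) / (1 + 0)))) :=
      ((t1.const_sub 1).div (t1.const_add 1) (by norm_num)).const_mul T
    have t3 := ((Real.continuous_arctan.tendsto _).comp t2).const_mul (-2)
    have e : -2 * Real.arctan (T * ((1 - 0) / (1 + 0))) = -a := by
      rw [sub_zero, add_zero, div_one, mul_one, hT, Real.arctan_tan (by linarith) (by linarith)]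
      linarith
    rw [e] at t3
    exact t3
  have hI := integral_Ioi_of_hasDerivAt_of_tendsto' (fun s _ => hd s) hi ht
  rw [hI]
  simp

lemma L_deriv {a : ℝ} (h1 : -Real.pi < a) (h2 : a < Real.pi) : HasDerivAt L (-a) a := by
  have hpi := Real.pi_pos
  set b := (|a| + Real.pi) / 2 with hb
  have hab : |a| < Real.pi := abs_lt.2 ⟨h1, h2⟩
  have hb0 : |a| < b := by rw [hb]; linarith
  have hb1 : b < Real.pi := by rw [hb]; linarith
  have hbp : 0 < b := lt_of_le_of_lt (abs_nonneg a) hb0
  have hcb : -1 < Real.cos b := by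
    have := Real.cos_lt_cos_of_nonneg_of_le_pi hbp.le le_rfl hb1
    rwa [Real.cos_pi] at this
  have hbound : ∀ s : ℝ, 0 < s → ∀ x ∈ Ioo (-b) b, ‖dell x s‖ ≤ 4 / (1 + Real.cos b) * Real.exp (-s) := by
    intro s hs x hx
    have hcx : Real.cos b ≤ Real.cos x := by
      rw [← Real.cos_abs x]
      exact Real.cos_le_cos_of_nonneg_of_le_pi (abs_nonneg _) hb1.le (abs_lt.2 hx).le
    have hE := Real.exp_pos (-s)
    have hE1 := x_lt hs
    have hd1 : (1 + Real.cos b) / 2 ≤ 1 + 2 * Real.cos x * Real.exp (-s) + Real.exp (-s) ^ 2 := by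
      have e1 : 1 + 2 * Real.cos b * Real.exp (-s) + Real.exp (-s) ^ 2 - (1 + Real.cos b) / 2 =
          (1 - Real.cos b) / 2 * (1 - Real.exp (-s)) ^ 2 +
          (1 + Real.cos b) / 2 * (2 * Real.exp (-s) + Real.exp (-s) ^ 2) := by ring
      have e2 : 0 ≤ (1 - Real.cos b) / 2 * (1 - Real.exp (-s)) ^ 2 := by
        have := Real.cos_le_one b
        have : 0 ≤ (1 - Real.cos b) / 2 := by linarith
        positivity
      have e3 : 0 ≤ (1 + Real.cos b) / 2 * (2 * Real.exp (-s) + Real.exp (-s) ^ 2) := by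
        have : 0 ≤ (1 + Real.cos b) / 2 := by linarith
        positivity
      have e4 : Real.cos b * Real.exp (-s) ≤ Real.cos x * Real.exp (-s) := by gcongr
      linarith
    have hd0 : 0 < (1 + Real.cos b) / 2 := by linarith
    unfold dell
    rw [norm_div, Real.norm_eq_abs, Real.norm_eq_abs, abs_neg, abs_mul, abs_mul, abs_two,
      abs_of_pos hE, abs_of_pos (lt_of_lt_of_le hd0 hd1)]
    have hsin := Real.abs_sin_le_one x
    calc 2 * |Real.sin x| * Real.exp (-s) / _ ≤ 2 * 1 * Real.exp (-s) / ((1 + Real.cos b) / 2) := by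
          gcongr
      _ = _ := by field_simp; ring
  have hbi : IntegrableOn (fun s : ℝ => 4 / (1 + Real.cos b) * Real.exp (-s)) (Ioi 0) :=
    (integrableOn_exp_neg_Ioi 0).const_mul _
  have hmem : Ioo (-b) b ∈ 𝓝 a := Ioo_mem_nhds (by linarith [neg_abs_le a]) (by linarith [le_abs_self a])
  obtain ⟨i1, i2⟩ := hasDerivAt_integral_of_dominated_loc_of_deriv_le (μ := volume.restrict (Ioi (0:ℝ)))
    (F := ell) (F' := dell) (x₀ := a) (bound := fun s => 4 / (1 + Real.cos b) * Real.exp (-s)) hmem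
    (Eventually.of_forall fun x => (ell_meas x).aestronglyMeasurable) (ell_integrable a)
    (Measurable.aestronglyMeasurable (by unfold dell; fun_prop))
    (by
      filter_upwards [ae_restrict_mem measurableSet_Ioi] with s hs x hx
      exact hbound s hs x hx) hbi
    (by
      filter_upwards [ae_restrict_mem measurableSet_Ioi] with s hs x _
      exact hasDerivAt_ell x hs)
  rw [integral_dell h1 h2 i1] at i2
  exact i2

lemma L_sub {a : ℝ} (h1 : -Real.pi < a) (h2 : a < Real.pi) : L a + a ^ 2 / 2 = L 0 := by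
  have hpi := Real.pi_pos
  have hconv : Convex ℝ (Ioo (-Real.pi) Real.pi) := convex_Ioo _ _
  have hd : ∀ x ∈ Ioo (-Real.pi) Real.pi, HasDerivAt (fun a => L a + a ^ 2 / 2) 0 x := by
    intro x hx
    have h3 := L_deriv hx.1 hx.2
    have h4 : HasDerivAt (fun a : ℝ => a ^ 2 / 2) x x := by
      have := (hasDerivAt_pow 2 x).div_const 2
      refine this.congr_deriv ?_
      ring
    have h5 := h3.add h4
    refine h5.congr_deriv ?_
    ring
  have hdiff : DifferentiableOn ℝ (fun a => L a + a ^ 2 / 2) (Ioo (-Real.pi) Real.pi) :=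
    fun x hx => (hd x hx).differentiableAt.differentiableWithinAt
  have hz : ∀ x ∈ Ioo (-Real.pi) Real.pi,
      fderivWithin ℝ (fun a => L a + a ^ 2 / 2) (Ioo (-Real.pi) Real.pi) x = 0 := by
    intro x hx
    rw [fderivWithin_of_mem_nhds (isOpen_Ioo.mem_nhds hx)]
    have h6 := (hd x hx).hasFDerivAt.fderiv
    rw [h6]
    ext
    simp
  have h7 := hconv.is_const_of_fderivWithin_eq_zero (𝕜 := ℝ) hdiff hz ⟨h1, h2⟩
    (show (0:ℝ) ∈ Ioo (-Real.pi) Real.pi from ⟨by linarith, hpi⟩)
  simpa using h7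

lemma L_zero : L 0 = Real.pi ^ 2 / 6 := by
  have hpi := Real.pi_pos
  have h1 := L_sub (a := Real.pi / 2) (by linarith) (by linarith)
  -- duplication
  have h2 : L 0 = 4 * L (Real.pi / 2) := by
    unfold L
    have e1 : ∀ s : ℝ, ell (Real.pi / 2) s = (1 / 2) * ell 0 (2 * s) := by
      intro s
      unfold ell
      have e2 : Real.exp (-(2 * s)) = Real.exp (-s) ^ 2 := by
        rw [← Real.exp_nat_mul]
        congr 1
        push_cast
        ring
      have e3 : 1 + 2 * Real.cos 0 * Real.exp (-(2 * s)) + Real.exp (-(2 * s)) ^ 2 =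
          (1 + Real.exp (-s) ^ 2) ^ 2 := by
        rw [e2, Real.cos_zero]
        ring
      rw [e3, Real.log_pow, Real.cos_pi_div_two]
      push_cast
      ring_nf
    have e4 : ∫ s in Ioi (0:ℝ), ell 0 (2 * s) = (2:ℝ)⁻¹ * ∫ s in Ioi (0:ℝ), ell 0 s := by
      have := integral_comp_mul_left_Ioi (fun s => ell 0 s) (0:ℝ) (b := 2) (by norm_num)
      simpa using this
    simp_rw [e1]
    rw [integral_const_mul, e4]
    ring
  have h3 : L (Real.pi / 2) = L 0 / 4 := by linarith
  rw [h3] at h1
  nlinarith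

/-- **the logarithmic integral** -/
theorem L_eq {a : ℝ} (ha : |a| ≤ Real.pi) : L a = Real.pi ^ 2 / 6 - a ^ 2 / 2 := by
  have hpi := Real.pi_pos
  have h1 : EqOn L (fun a => Real.pi ^ 2 / 6 - a ^ 2 / 2) (Ioo (-Real.pi) Real.pi) := by
    intro x hx
    have h2 := L_sub hx.1 hx.2
    rw [L_zero] at h2
    simp only
    linarith
  have hcl : Icc (-Real.pi) Real.pi ⊆ closure (Ioo (-Real.pi) Real.pi) := by
    rw [closure_Ioo (by linarith : -Real.pi ≠ Real.pi)]
  exact h1.of_subset_closure L_cont.continuousOn (by fun_prop) Ioo_subset_Icc_self hcl (abs_le.1 ha)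

end

end NUMF
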