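import Pool.Agent.NUP.MF.Cont

/-!
# Mean field potentials of single quanta at all offsets

Offsets are measured from the line `Re u = l`: the offset of `u` is `y = l - Re u`.
-/

set_option autoImplicit false

open Complex MeasureTheory Filter Topology

namespace NUMF

noncomputable section

/-- Mean field potential of a quantum at offset `y` (rows and both fluids `P` on the line at offset `0`). -/
def ph (y t : ℝ) : ℝ :=
  -(1 / 2) * h t (y + 3 * l) - (1 / 2) * h t (y - 3 * l) + h t y +
    (H t (y + 4 * l) + (1 / 2) * H t (y + 2 * l) + (1 / 2) * H t (y - 2 * l)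
      - (1 / 2) * H t (y + 3 * l) - (1 / 2) * H t (y - 3 * l) + H t y - H t (y + l) - H t (y - l))

theorem H_sub8 (x y : ℝ) : H x (y - 8 * l) = H x y := by
  rw [← H_per x (y - 8 * l)]
  congr 1
  ring

theorem h_sub8 (x y : ℝ) : h x (y - 8 * l) = h x y := by
  rw [← h_per x (y - 8 * l)]
  congr 1
  ring

theorem H_reflO (x y : ℝ) : H x (8 * l - y) = H x y := by
  rw [← H_neg_right, show -(8 * l - y) = y - 8 * l by ring, H_sub8]

theorem h_reflO (x y : ℝ) : h x (8 * l - y) = h x y := by
  rw [← h_neg_right, show -(8 * l - y) = y - 8 * l by ring, h_sub8]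

/-- the rules used below -/
theorem rule (t : ℝ) {y : ℝ} (h0 : 0 ≤ y) (h1 : y ≤ 6 * l) :
    h t (y - 3 * l) = H t (y - 2 * l) + H t (y - 4 * l) - H t (y - 3 * l) := by
  have hl := l_pos
  rw [← conv_h t (y := y - 3 * l) (by rw [abs_le]; constructor <;> linarith)]
  congr 2
  · congr 1; ring
  · congr 1; ring

theorem H_p4 (t y : ℝ) : H t (y + 4 * l) = H t (y - 4 * l) := by
  rw [← H_sub8 t (y + 4 * l)]
  congr 1
  ring

theorem ph_23 (t : ℝ) {y : ℝ} (h0 : 2 * l ≤ y) (h1 : y ≤ 3 * l) : ph y t = 0 := by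
  have hl := l_pos
  have r1 := rule t (y := y) (by linarith) (by linarith)
  have r2 := conv_h t (y := y) (by rw [abs_le]; constructor <;> linarith)
  have r3 := conv_h t (y := y - 5 * l) (by rw [abs_le]; constructor <;> linarith)
  have e1 : h t (y + 3 * l) = h t (y - 5 * l) := by
    rw [← h_sub8 t (y + 3 * l)]; congr 1; ring
  have e2 : H t (y - 5 * l + l) = H t (y - 4 * l) := by congr 1; ring
  have e3 : H t (y - 5 * l - l) = H t (y + 2 * l) := by
    rw [← H_sub8 t (y + 2 * l)]; congr 1; ring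
  have e4 : H t (y - 5 * l) = H t (y + 3 * l) := by
    rw [← H_sub8 t (y + 3 * l)]; congr 1; ring
  have e5 := H_p4 t y
  rw [e2, e3, e4] at r3
  unfold ph
  rw [e1, ← r3, r1, ← r2, e5]
  ring

/-- `y` between the rows: the continuation rule at `y + 3 l`, reflected -/
theorem ph_12 (t : ℝ) {y : ℝ} (h0 : l < y) (h1 : y < 2 * l) : ph y t = AA (2 * l - y) t := by
  have hl := l_pos
  have r1 := rule t (y := y) (by linarith) (by linarith)
  have r2 := conv_h t (y := y) (by rw [abs_le]; constructor <;> linarith)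
  have r3 := H_beyond (y := 5 * l - y) (by linarith) (by linarith) t
  have e1 : h t (y + 3 * l) = h t (5 * l - y) := by
    rw [← h_reflO t (5 * l - y)]; congr 1; ring
  have e2 : H t (5 * l - y + l) = H t (y + 2 * l) := by
    rw [← H_reflO t (y + 2 * l)]; congr 1; ring
  have e3 : H t (5 * l - y - l) = H t (y + 4 * l) := by
    rw [← H_reflO t (y + 4 * l)]; congr 1; ring
  have e4 : H t (5 * l - y) = H t (y + 3 * l) := by
    rw [← H_reflO t (y + 3 * l)]; congr 1; ring
  have e5 := H_p4 t y
  rw [e2, e3, e4, show 5 * l - y - 3 * l = 2 * l - y by ring] at r3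
  unfold ph
  rw [e1, r1, ← r2, e5]
  rw [e5] at r3
  linarith

theorem ph_01 (t : ℝ) {y : ℝ} (h0 : 0 < y) (h1 : y < l) : ph y t = AA y t := by
  have hl := l_pos
  have r1 := rule t (y := y) (by linarith) (by linarith)
  have r2 := conv_h t (y := y) (by rw [abs_le]; constructor <;> linarith)
  have r3 := H_beyond (y := y + 3 * l) (by linarith) (by linarith) t
  have e2 : H t (y + 3 * l + l) = H t (y + 4 * l) := by congr 1; ring
  have e3 : H t (y + 3 * l - l) = H t (y + 2 * l) := by congr 1; ring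
  have e5 := H_p4 t y
  rw [e2, e3, show y + 3 * l - 3 * l = y by ring] at r3
  unfold ph
  rw [r1, ← r2, e5]
  rw [e5] at r3
  linarith

theorem ph_34 (t : ℝ) {y : ℝ} (h0 : 3 * l < y) (h1 : y < 4 * l) : ph y t = -2 * AA (y - 3 * l) t := by
  have hl := l_pos
  have r1 := rule t (y := y) (by linarith) (by linarith)
  have r2 := H_beyond (y := y) h0 h1 t
  have r3 := conv_h t (y := y - 5 * l) (by rw [abs_le]; constructor <;> linarith)
  have e1 : h t (y + 3 * l) = h t (y - 5 * l) := by
    rw [← h_sub8 t (y + 3 * l)]; congr 1; ring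
  have e2 : H t (y - 5 * l + l) = H t (y - 4 * l) := by congr 1; ring
  have e3 : H t (y - 5 * l - l) = H t (y + 2 * l) := by
    rw [← H_sub8 t (y + 2 * l)]; congr 1; ring
  have e4 : H t (y - 5 * l) = H t (y + 3 * l) := by
    rw [← H_sub8 t (y + 3 * l)]; congr 1; ring
  have e5 := H_p4 t y
  rw [e2, e3, e4] at r3
  unfold ph
  rw [e1, ← r3, r1, e5]
  linarith

end

end NUMF
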