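import Pool.Agent.NUP.MF.HF
import Pool.Agent.NUP.MF.Strip

/-!
# Fourier representation of the primitive `Gc`

`Gc z = (1/π) ∫_0^∞ sin (kz) / (k (2c - 1)) dk` for `|Im z| < l`.
-/

set_option autoImplicit false

open MeasureTheory Set Filter Topology Complex

namespace NUMF

noncomputable section

lemma inv_ck_le {k : ℝ} (_hk : 0 < k) : 1 / (2 * ck1 k - 1) ≤ 2 * Real.exp (-l * k) := by
  have hl := l_pos
  have h1 := one_le_cosh' k
  have h2 : Real.exp (l * k) / 2 ≤ ck1 k := by
    unfold ck1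
    rw [Real.cosh_eq]
    have := Real.exp_pos (-(l * k))
    linarith
  have h3 : 0 < 2 * ck1 k - 1 := by linarith
  rw [div_le_iff₀ h3]
  have h4 : Real.exp (-l * k) * Real.exp (l * k) = 1 := by rw [← Real.exp_add]; simp
  have h5 := Real.exp_pos (-l * k)
  nlinarith
where
  one_le_cosh' (k : ℝ) : 1 ≤ ck1 k := Real.one_le_cosh _

lemma dkp (k : ℝ) : 0 < 2 * ck1 k - 1 := by
  have : 1 ≤ ck1 k := Real.one_le_cosh _
  linarith

lemma ck1_meas : Measurable ck1 := by
  unfold ck1
  fun_prop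

/-- integrand of `Si` -/
def sik (z : ℂ) (k : ℝ) : ℂ := Complex.sin (k * z) / ((k * (2 * ck1 k - 1) : ℝ) : ℂ)

/-- integrand of `Pi` -/
def pik (z : ℂ) (k : ℝ) : ℂ := Complex.cos (k * z) / ((2 * ck1 k - 1 : ℝ) : ℂ)

/-- `(1/π) ∫ sin (kz) / (k (2c-1))` -/
def Si (z : ℂ) : ℂ := (1 / Real.pi : ℝ) * ∫ k in Ioi (0:ℝ), sik z k

lemma sik_meas (z : ℂ) : Measurable (sik z) := by
  unfold sik
  have := ck1_meas
  fun_prop

lemma pik_meas (z : ℂ) : Measurable (pik z) := by
  unfold pik
  have := ck1_meas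
  fun_prop

lemma norm_sin_le' (k : ℝ) (z : ℂ) {b : ℝ} (hz : |z.im| ≤ b) (hk : 0 < k) :
    ‖Complex.sin (k * z)‖ ≤ k * ‖z‖ * Real.exp (b * k) := by
  have h1 : Complex.sin (k * z) = -I * Complex.sinh (z * k * I) := by
    rw [Complex.sinh_mul_I, mul_comm (k : ℂ) z]
    linear_combination (Complex.sin (z * k)) * Complex.I_mul_I
  rw [h1, norm_mul, norm_neg, Complex.norm_I, one_mul]
  have h2 := norm_sinh_le (z * k * I)
  have h3 : (z * k * I).re = -(z.im * k) := by simp
  have h4 : ‖z * k * I‖ = ‖z‖ * k := by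
    rw [norm_mul, norm_mul, Complex.norm_I, Complex.norm_real, Real.norm_eq_abs, abs_of_pos hk, mul_one]
  rw [h3, h4] at h2
  have h5 : Real.cosh (-(z.im * k)) ≤ Real.exp (b * k) := by
    refine cosh_le_exp ?_
    rw [abs_neg, abs_mul, abs_of_pos hk]
    gcongr
  calc _ ≤ _ := h2
    _ ≤ Real.exp (b * k) * (‖z‖ * k) := by gcongr
    _ = _ := by ring

lemma norm_cos_le' (k : ℝ) (z : ℂ) {b : ℝ} (hz : |z.im| ≤ b) (hk : 0 < k) :
    ‖Complex.cos (k * z)‖ ≤ Real.exp (b * k) := by
  have h1 : Complex.cos (k * z) = Complex.cosh (z * k * I) := by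
    rw [Complex.cosh_mul_I, mul_comm (k : ℂ) z]
  rw [h1]
  have h2 := norm_cosh_le (z * k * I)
  have h3 : (z * k * I).re = -(z.im * k) := by simp
  rw [h3] at h2
  refine h2.trans (cosh_le_exp ?_)
  rw [abs_neg, abs_mul, abs_of_pos hk]
  gcongr

/-- dominating function -/
def dm (b k : ℝ) : ℝ := 2 * Real.exp (-(l - b) * k)

lemma dm_integrable {b : ℝ} (hb : b < l) : IntegrableOn (dm b) (Ioi 0) := by
  unfold dm
  exact (integrableOn_exp_mul_Ioi (by linarith) 0).const_mul _

lemma exp_mul_inv {b k : ℝ} (hk : 0 < k) : Real.exp (b * k) * (1 / (2 * ck1 k - 1)) ≤ dm b k := by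
  have h1 := inv_ck_le hk
  unfold dm
  calc Real.exp (b * k) * (1 / (2 * ck1 k - 1)) ≤ Real.exp (b * k) * (2 * Real.exp (-l * k)) := by gcongr
    _ = 2 * (Real.exp (b * k) * Real.exp (-l * k)) := by ring
    _ = _ := by
        rw [← Real.exp_add]
        congr 2
        ring

lemma sik_le {z : ℂ} {b : ℝ} (hz : |z.im| ≤ b) {k : ℝ} (hk : 0 < k) : ‖sik z k‖ ≤ ‖z‖ * dm b k := by
  have h1 := norm_sin_le' k z hz hk
  have h2 := dkp k
  unfold sik
  rw [norm_div, Complex.norm_real, Real.norm_eq_abs, abs_of_pos (mul_pos hk h2)]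
  calc ‖Complex.sin (k * z)‖ / (k * (2 * ck1 k - 1)) ≤ (k * ‖z‖ * Real.exp (b * k)) / (k * (2 * ck1 k - 1)) := by
        gcongr
    _ = ‖z‖ * (Real.exp (b * k) * (1 / (2 * ck1 k - 1))) := by
        have := hk.ne'
        field_simp
    _ ≤ _ := by
        gcongr
        exact exp_mul_inv hk

lemma pik_le {z : ℂ} {b : ℝ} (hz : |z.im| ≤ b) {k : ℝ} (hk : 0 < k) : ‖pik z k‖ ≤ dm b k := by
  have h1 := norm_cos_le' k z hz hk
  have h2 := dkp k
  unfold pik
  rw [norm_div, Complex.norm_real, Real.norm_eq_abs, abs_of_pos h2]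
  calc ‖Complex.cos (k * z)‖ / (2 * ck1 k - 1) ≤ Real.exp (b * k) / (2 * ck1 k - 1) := by gcongr
    _ = Real.exp (b * k) * (1 / (2 * ck1 k - 1)) := by ring
    _ ≤ _ := exp_mul_inv hk

lemma sik_integrable {z : ℂ} (hz : |z.im| < l) : IntegrableOn (sik z) (Ioi 0) := by
  refine Integrable.mono' ((dm_integrable hz).const_mul ‖z‖) (sik_meas z).aestronglyMeasurable ?_
  filter_upwards [ae_restrict_mem measurableSet_Ioi] with k hk
  exact sik_le le_rfl hk

lemma hasDerivAt_sik (z : ℂ) {k : ℝ} (hk : 0 < k) : HasDerivAt (fun z => sik z k) (pik z k) z := by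
  have h0 : ((2 * ck1 k - 1 : ℝ) : ℂ) ≠ 0 := Complex.ofReal_ne_zero.2 (dkp k).ne'
  have hk' : (k : ℂ) ≠ 0 := Complex.ofReal_ne_zero.2 hk.ne'
  have h1 : HasDerivAt (fun z : ℂ => k * z) (k : ℂ) z := by
    simpa using (hasDerivAt_id z).const_mul (k : ℂ)
  have h2 := (h1.csin).div_const ((k * (2 * ck1 k - 1) : ℝ) : ℂ)
  refine h2.congr_deriv ?_
  unfold pik
  rw [Complex.ofReal_mul]
  field_simp

lemma hasDerivAt_Si {z : ℂ} (hz : |z.im| < l) :
    HasDerivAt Si ((1 / Real.pi : ℝ) * ∫ k in Ioi (0:ℝ), pik z k) z := by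
  set b := (|z.im| + l) / 2 with hb
  have hb1 : |z.im| < b := by rw [hb]; linarith
  have hb2 : b < l := by rw [hb]; linarith
  set s : Set ℂ := {u : ℂ | |u.im| < b} with hs
  have hmem : s ∈ 𝓝 z := by
    refine IsOpen.mem_nhds ?_ hb1
    exact isOpen_lt (continuous_abs.comp Complex.continuous_im) continuous_const
  obtain ⟨i1, i2⟩ := hasDerivAt_integral_of_dominated_loc_of_deriv_le (μ := volume.restrict (Ioi (0:ℝ)))
    (F := sik) (F' := pik) (x₀ := z) (bound := fun k => dm b k) hmem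
    (Eventually.of_forall fun x => (sik_meas x).aestronglyMeasurable) (sik_integrable hz)
    (pik_meas z).aestronglyMeasurable
    (by
      filter_upwards [ae_restrict_mem measurableSet_Ioi] with k hk u hu
      have hu' : |u.im| < b := hu
      exact pik_le hu'.le hk)
    (dm_integrable hb2)
    (by
      filter_upwards [ae_restrict_mem measurableSet_Ioi] with k hk u _
      exact hasDerivAt_sik u hk)
  exact i2.const_mul _

/-- inversion: `P x = (1/π) ∫_0^∞ cos (kx)/(2c-1) dk`, `x > 0` -/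
theorem P_inverse {x : ℝ} (hx : 0 < x) : ∫ k in Ioi (0:ℝ), Real.cos (k * x) / (2 * ck1 k - 1) = Real.pi * P x := by
  have hFint : Integrable fun t : ℝ => 1 / (2 * ck1 t - 1) := by
    have h1 : IntegrableOn (fun t : ℝ => 1 / (2 * ck1 t - 1)) (Ioi 0) := by
      have hm : Measurable fun t : ℝ => 1 / (2 * ck1 t - 1) := by
        have := ck1_meas
        fun_prop
      refine Integrable.mono' (dm_integrable (b := 0) l_pos) hm.aestronglyMeasurable ?_
      filter_upwards [ae_restrict_mem measurableSet_Ioi] with k hk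
      have h2 := dkp k
      have h3 := exp_mul_inv (b := 0) hk
      rw [zero_mul, Real.exp_zero, one_mul] at h3
      rw [Real.norm_eq_abs, abs_of_pos (by positivity)]
      exact h3
    have h2 := integrable_comp_abs' h1
    refine h2.congr (Eventually.of_forall fun t => ?_)
    simp only
    congr 3
    unfold ck1
    rw [← Real.cosh_abs (l * t), abs_mul, abs_of_pos l_pos]
  have hinv := cos_inversion (m := P) (F := fun t => 1 / (2 * ck1 t - 1)) P_integrable.integrableOn hFint
    (fun t => by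
      have h1 := (P_forward t).2
      rw [← h1]
      have h2 := integral_comp_abs (f := fun s => P s * Real.cos (t * s))
      have h3 : ∀ s, P |s| * Real.cos (t * |s|) = P s * Real.cos (t * s) := by
        intro s
        rcases abs_cases s with ⟨h3, _⟩ | ⟨h3, _⟩
        · rw [h3]
        · rw [h3, P_neg, mul_neg, Real.cos_neg]
      simp_rw [h3] at h2
      rw [h2, ← integral_const_mul]
      refine setIntegral_congr_fun measurableSet_Ioi fun k _ => ?_
      ring) hx P_cont.continuousAt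
  have h2 := integral_comp_abs (f := fun t => 1 / (2 * ck1 t - 1) * Real.cos (x * t))
  have h3 : ∀ t : ℝ, 1 / (2 * ck1 |t| - 1) * Real.cos (x * |t|) = 1 / (2 * ck1 t - 1) * Real.cos (x * t) := by
    intro t
    rcases abs_cases t with ⟨h3, _⟩ | ⟨h3, _⟩
    · rw [h3]
    · rw [h3, mul_neg, Real.cos_neg]
      congr 3
      unfold ck1
      rw [mul_neg, Real.cosh_neg]
  simp_rw [h3] at h2
  rw [hinv] at h2
  have h4 : ∫ k in Ioi (0:ℝ), Real.cos (k * x) / (2 * ck1 k - 1) =
      ∫ t in Ioi (0:ℝ), 1 / (2 * ck1 t - 1) * Real.cos (x * t) := by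
    refine setIntegral_congr_fun measurableSet_Ioi fun k _ => ?_
    rw [mul_comm k x]
    ring
  rw [h4]
  linarith

/-- **Fourier representation of `Gc`** -/
theorem Si_eq_Gc {z : ℂ} (hz : |z.im| < l) : Si z = Gc z := by
  have hpi := Real.pi_pos
  have hl := l_pos
  set S : Set ℂ := {u : ℂ | |u.im| < l} with hS
  have hop : IsOpen S := isOpen_lt (continuous_abs.comp Complex.continuous_im) continuous_const
  have hcv : Convex ℝ S := by
    have h1 : S = Complex.imLm ⁻¹' (Ioo (-l) l) := by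
      ext u
      simp [hS, abs_lt]
    rw [h1]
    exact (convex_Ioo _ _).linear_preimage Complex.imLm
  have hd1 : DifferentiableOn ℂ Si S := fun u hu => (hasDerivAt_Si hu).differentiableAt.differentiableWithinAt
  have hd2 : DifferentiableOn ℂ Gc S := fun u hu => (Gc_diff hu).differentiableWithinAt
  have ha1 : AnalyticOnNhd ℂ Si S := hd1.analyticOnNhd hop
  have ha2 : AnalyticOnNhd ℂ Gc S := hd2.analyticOnNhd hop
  -- equality on the positive reals
  set D : ℝ → ℂ := fun x => Si x - Gc x with hD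
  have hDd : ∀ x : ℝ, 0 < x → HasDerivAt D 0 x := by
    intro x hx
    have hx1 : |((x : ℂ)).im| < l := by simpa using hl
    have h1 := (hasDerivAt_Si hx1).comp_ofReal
    have h2 := (hasDerivAt_Gc hx1).comp_ofReal
    have h3 := h1.sub h2
    refine h3.congr_deriv ?_
    have h4 : ∫ k in Ioi (0:ℝ), pik (x : ℂ) k = ((Real.pi * P x : ℝ) : ℂ) := by
      rw [← P_inverse hx, ← integral_complex_ofReal]
      refine setIntegral_congr_fun measurableSet_Ioi fun k _ => ?_
      unfold pik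
      push_cast
      rfl
    rw [h4, Pc_ofReal, ← Complex.ofReal_mul, ← Complex.ofReal_sub]
    have : 1 / Real.pi * (Real.pi * P x) - P x = 0 := by field_simp; ring
    rw [this, Complex.ofReal_zero]
  have hDc : ContinuousWithinAt D (Ioi 0) 0 := by
    have h1 : ContinuousAt Si ((0:ℝ) : ℂ) := (hasDerivAt_Si (z := ((0:ℝ):ℂ)) (by simpa using hl)).continuousAt
    have h2 : ContinuousAt Gc ((0:ℝ) : ℂ) := (Gc_diff (z := ((0:ℝ):ℂ)) (by simpa using hl)).continuousAt
    have h3 : ContinuousAt D 0 :=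
      (h1.comp Complex.continuous_ofReal.continuousAt).sub (h2.comp Complex.continuous_ofReal.continuousAt)
    exact h3.continuousWithinAt
  have hD0 : D 0 = 0 := by
    rw [hD]
    simp [Si, sik, Gc, wz]
  have hDconst : ∀ x : ℝ, 0 < x → D x = D 1 := by
    intro x hx
    have hdiff : DifferentiableOn ℝ D (Ioi 0) := fun y hy => (hDd y hy).differentiableAt.differentiableWithinAt
    have hzero : ∀ y ∈ Ioi (0:ℝ), fderivWithin ℝ D (Ioi 0) y = 0 := by
      intro y hy
      rw [fderivWithin_of_mem_nhds (isOpen_Ioi.mem_nhds hy)]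
      have h6 := (hDd y hy).hasFDerivAt.fderiv
      rw [h6]
      ext
      simp
    exact (convex_Ioi (0:ℝ)).is_const_of_fderivWithin_eq_zero (𝕜 := ℝ) hdiff hzero hx (mem_Ioi.2 one_pos)
  have hDz : D 1 = 0 := by
    have h1 : Tendsto D (𝓝[>] 0) (𝓝 (D 0)) := hDc
    have h2 : Tendsto D (𝓝[>] 0) (𝓝 (D 1)) := by
      refine tendsto_const_nhds.congr' ?_
      filter_upwards [self_mem_nhdsWithin] with x hx
      exact (hDconst x hx).symm
    have h3 := tendsto_nhds_unique h1 h2
    rw [← h3, hD0]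
  have hfreq : ∃ᶠ w in 𝓝[≠] ((1:ℝ) : ℂ), Si w = Gc w := by
    have h1 : Tendsto (fun x : ℝ => (x : ℂ)) (𝓝[≠] 1) (𝓝[≠] ((1:ℝ) : ℂ)) := by
      refine tendsto_nhdsWithin_of_tendsto_nhds_of_eventually_within _ ?_ ?_
      · exact (Complex.continuous_ofReal.tendsto 1).mono_left nhdsWithin_le_nhds
      · filter_upwards [self_mem_nhdsWithin] with x hx
        simpa using hx
    refine h1.frequently ?_
    refine Eventually.frequently ?_
    have h2 : ∀ᶠ x : ℝ in 𝓝[≠] 1, 0 < x :=
      (lt_mem_nhds one_pos).filter_mono nhdsWithin_le_nhds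
    filter_upwards [h2] with x hx
    have h3 := hDconst x hx
    rw [hDz] at h3
    exact sub_eq_zero.1 h3
  exact ha1.eqOn_of_preconnected_of_frequently_eq ha2 hcv.isPreconnected
    (show ((1:ℝ) : ℂ) ∈ S by simpa [hS] using hl) hfreq hz

/-- imaginary part -/
theorem Gc_im_fourier (x : ℝ) {τ : ℝ} (hτ : |τ| < l) :
    IntegrableOn (fun k => Real.cos (k * x) * Real.sinh (k * τ) / (k * (2 * ck1 k - 1))) (Ioi 0) ∧
    Real.pi * (Gc (x + τ * I)).im =
      ∫ k in Ioi (0:ℝ), Real.cos (k * x) * Real.sinh (k * τ) / (k * (2 * ck1 k - 1)) := by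
  have hpi := Real.pi_pos
  have hz : |((x : ℂ) + τ * I).im| < l := by simpa using hτ
  have i1 := sik_integrable hz
  have him : ∀ k : ℝ, (sik ((x : ℂ) + τ * I) k).im =
      Real.cos (k * x) * Real.sinh (k * τ) / (k * (2 * ck1 k - 1)) := by
    intro k
    unfold sik
    rw [Complex.div_ofReal_im]
    congr 1
    have e : (k : ℂ) * ((x : ℂ) + τ * I) = ((k * x : ℝ) : ℂ) + ((k * τ : ℝ) : ℂ) * I := by push_cast; ring
    rw [e, Complex.sin_add, Complex.cos_mul_I, Complex.sin_mul_I, ← Complex.ofReal_sin,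
      ← Complex.ofReal_cos, ← Complex.ofReal_sinh, ← Complex.ofReal_cosh]
    simp only [Complex.add_im, Complex.mul_im, Complex.ofReal_re, Complex.ofReal_im, Complex.I_re, Complex.I_im,
      mul_zero, zero_mul, add_zero, zero_add, mul_one]
  have i2 := i1.im
  have i3 : IntegrableOn (fun k => Real.cos (k * x) * Real.sinh (k * τ) / (k * (2 * ck1 k - 1))) (Ioi 0) := by
    refine i2.congr (Eventually.of_forall fun k => ?_)
    simp only [RCLike.im_to_complex, him]
  refine ⟨i3, ?_⟩
  rw [← Si_eq_Gc hz]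
  unfold Si
  rw [Complex.im_ofReal_mul]
  have h1 := integral_im i1
  simp only [RCLike.im_to_complex, him] at h1
  rw [← h1, ← mul_assoc, mul_one_div_cancel hpi.ne', one_mul]

end

end NUMF
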