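import Pool.Agent.NUP.MF.Shift

/-!
# The sum rule of the density `P`

For `f` analytic in the strip `|Im z| < l`, continuous up to the boundary, of growth
`exp (c |Re z|)`, `c < 8/3`:  `∫ P(s) (f(s + i l) + f(s - i l) - f(s)) ds = f(0)`.
-/

set_option autoImplicit false

open MeasureTheory Set Filter Topology Complex

namespace NUMF

noncomputable section

/-- the density on complex arguments -/
def Pc (z : ℂ) : ℂ := 4 / (√3 * Real.pi : ℝ) *
  (1 / (2 * Complex.cosh (8 / 3 * z) - 1) + 1 / (2 * Complex.cosh (8 / 3 * z) + 1))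

lemma Pc_ofReal (t : ℝ) : Pc t = (P t : ℂ) := by
  rw [P_eq]
  unfold Pc ch
  push_cast
  rfl

lemma Pc_neg (z : ℂ) : Pc (-z) = Pc z := by
  unfold Pc
  rw [mul_neg, Complex.cosh_neg]

lemma norm_cosh_ge (z : ℂ) : |Real.sinh z.re| ≤ ‖Complex.cosh z‖ := by
  have h1 : Complex.cosh z = ((Real.cosh z.re * Real.cos z.im : ℝ) : ℂ) +
      ((Real.sinh z.re * Real.sin z.im : ℝ) : ℂ) * I := by
    conv_lhs => rw [← Complex.re_add_im z]
    rw [Complex.cosh_add, Complex.cosh_mul_I, Complex.sinh_mul_I]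
    push_cast
    ring
  have h2 : ‖Complex.cosh z‖ ^ 2 = (Real.cosh z.re * Real.cos z.im) ^ 2 +
      (Real.sinh z.re * Real.sin z.im) ^ 2 := by
    rw [h1, ← Complex.normSq_eq_norm_sq, Complex.normSq_add_mul_I]
  have h3 : Real.sinh z.re ^ 2 ≤ ‖Complex.cosh z‖ ^ 2 := by
    rw [h2]
    have e1 := Real.cosh_sq z.re
    have e2 := Real.sin_sq_add_cos_sq z.im
    nlinarith [sq_nonneg (Real.cos z.im)]
  exact abs_le_of_sq_le_sq h3 (norm_nonneg _)

lemma Pc_le {z : ℂ} (h : 1 ≤ |z.re|) : ‖Pc z‖ ≤ 4 * Real.exp (-(8 / 3) * |z.re|) := by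
  set a : ℝ := 8 / 3 * |z.re| with ha
  have ha2 : 2 ≤ a := by rw [ha]; linarith
  have hE : 4 ≤ Real.exp a := by
    have h1 : Real.exp 2 ≤ Real.exp a := Real.exp_le_exp.2 ha2
    have h2 : (2:ℝ) ≤ Real.exp 1 := by
      have := Real.add_one_le_exp (1:ℝ)
      linarith
    have h3 : Real.exp 2 = Real.exp 1 * Real.exp 1 := by
      rw [← Real.exp_add]; norm_num
    nlinarith
  have hEm : Real.exp (-a) ≤ 1 / 4 := by
    rw [Real.exp_neg, inv_eq_one_div]
    exact one_div_le_one_div_of_le (by norm_num) hE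
  have hs : 2 * |Real.sinh (8 / 3 * z.re)| = Real.exp a - Real.exp (-a) := by
    rw [Real.abs_sinh, abs_mul, abs_of_pos (by norm_num : (0:ℝ) < 8 / 3), ← ha, Real.sinh_eq]
    ring
  have hc : (Real.exp a - Real.exp (-a)) / 2 ≤ ‖Complex.cosh (8 / 3 * z)‖ := by
    have h1 := norm_cosh_ge (8 / 3 * z)
    have h2 : (8 / 3 * z : ℂ).re = 8 / 3 * z.re := by
      have : (8 / 3 : ℂ) = ((8 / 3 : ℝ) : ℂ) := by push_cast; rfl
      rw [this, Complex.re_ofReal_mul]
    rw [h2] at h1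
    linarith
  have hd : ∀ w : ℂ, ‖w‖ = 1 → ‖1 / (2 * Complex.cosh (8 / 3 * z) + w)‖ ≤ 2 * Real.exp (-a) := by
    intro w hw
    have h1 : Real.exp a - Real.exp (-a) - 1 ≤ ‖2 * Complex.cosh (8 / 3 * z) + w‖ := by
      have h2 : ‖2 * Complex.cosh (8 / 3 * z)‖ - ‖w‖ ≤ ‖2 * Complex.cosh (8 / 3 * z) + w‖ :=
        norm_sub_le_norm_add _ _
      rw [hw, norm_mul, Complex.norm_ofNat] at h2
      linarith
    have h2 : Real.exp a / 2 ≤ Real.exp a - Real.exp (-a) - 1 := by linarith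
    rw [norm_div, norm_one]
    have h3 : 0 < Real.exp a / 2 := by positivity
    calc 1 / ‖2 * Complex.cosh (8 / 3 * z) + w‖ ≤ 1 / (Real.exp a / 2) :=
          one_div_le_one_div_of_le h3 (h2.trans h1)
      _ = _ := by
          rw [Real.exp_neg]
          field_simp
  have h1 := hd 1 norm_one
  have h2 := hd (-1) (by simp)
  rw [← sub_eq_add_neg] at h2
  have h3 : ‖(4 / (√3 * Real.pi : ℝ) : ℂ)‖ ≤ 1 := by
    rw [norm_div, Complex.norm_ofNat, Complex.norm_real, Real.norm_eq_abs, abs_of_pos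
      (mul_pos sq3_pos Real.pi_pos)]
    rw [div_le_one (mul_pos sq3_pos Real.pi_pos)]
    have h4 : (3:ℝ) < Real.pi := Real.pi_gt_three
    have h5 : (3 / 2 : ℝ) ≤ √3 := by
      rw [Real.le_sqrt (by norm_num) (by norm_num)]
      norm_num
    nlinarith
  have h4 : -(8 / 3) * |z.re| = -a := by rw [ha]; ring
  rw [h4]
  unfold Pc
  rw [norm_mul]
  have h5 : ‖1 / (2 * Complex.cosh (8 / 3 * z) - 1) + 1 / (2 * Complex.cosh (8 / 3 * z) + 1)‖ ≤
      4 * Real.exp (-a) := (norm_add_le _ _).trans (by linarith)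
  calc _ ≤ 1 * (4 * Real.exp (-a)) := by gcongr
    _ = _ := one_mul _

/-! ### the regularised function `z P(z - i l)` -/

lemma cosh_ne {w : ℂ} (h : |w.im| < Real.pi / 2) : Complex.cosh w ≠ 0 := by
  intro e
  have h1 : (Complex.cosh w).re = Real.cosh w.re * Real.cos w.im := by
    conv_lhs => rw [← Complex.re_add_im w]
    rw [Complex.cosh_add, Complex.cosh_mul_I, Complex.sinh_mul_I]
    simp [← Complex.ofReal_cosh, ← Complex.ofReal_sinh, ← Complex.ofReal_cos, ← Complex.ofReal_sin]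
  rw [e, Complex.zero_re] at h1
  have h2 : 0 < Real.cos w.im := Real.cos_pos_of_mem_Ioo (by
    rw [abs_lt] at h
    exact ⟨h.1, h.2⟩)
  have h3 := Real.cosh_pos w.re
  have h4 : 0 < Real.cosh w.re * Real.cos w.im := by positivity
  linarith

lemma sinh_ne {w : ℂ} (hw : w ≠ 0) (h : |w.im| < Real.pi) : Complex.sinh w ≠ 0 := by
  intro e
  have h1 : Complex.sinh w = ((Real.sinh w.re * Real.cos w.im : ℝ) : ℂ) +
      ((Real.cosh w.re * Real.sin w.im : ℝ) : ℂ) * I := by
    conv_lhs => rw [← Complex.re_add_im w]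
    rw [Complex.sinh_add, Complex.cosh_mul_I, Complex.sinh_mul_I]
    push_cast
    ring
  rw [e] at h1
  have him := congrArg Complex.im h1
  have hre := congrArg Complex.re h1
  simp only [Complex.zero_im, Complex.zero_re, Complex.add_im, Complex.add_re, Complex.ofReal_im,
    Complex.ofReal_re, Complex.mul_im, Complex.mul_re, Complex.I_im, Complex.I_re, mul_one, mul_zero,
    zero_add, add_zero, sub_self] at him hre
  have hc := Real.cosh_pos w.re
  have hs : Real.sin w.im = 0 := by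
    rcases mul_eq_zero.1 him.symm with h2 | h2
    · exact absurd h2 hc.ne'
    · exact h2
  have hi : w.im = 0 := by
    rw [abs_lt] at h
    exact (Real.sin_eq_zero_iff_of_lt_of_lt h.1 h.2).1 hs
  rw [hi, Real.cos_zero, mul_one] at hre
  have hr : w.re = 0 := Real.sinh_eq_zero.1 hre.symm
  exact hw (Complex.ext hr hi)

/-- `sinh w / w` -/
def shc : ℂ → ℂ := dslope Complex.sinh 0

lemma shc_mul (w : ℂ) : w * shc w = Complex.sinh w := by
  have h := sub_smul_dslope Complex.sinh 0 w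
  simpa [shc, smul_eq_mul] using h

lemma shc_diff : Differentiable ℂ shc := by
  intro w
  have h := (Complex.differentiableOn_dslope (f := Complex.sinh) (s := Set.univ) (c := 0) univ_mem).2
    Complex.differentiable_sinh.differentiableOn
  exact (h w (mem_univ w)).differentiableAt univ_mem

lemma shc_ne {w : ℂ} (h : |w.im| < Real.pi) : shc w ≠ 0 := by
  by_cases hw : w = 0
  · rw [hw]
    unfold shc
    rw [dslope_same, Complex.deriv_sinh, Complex.cosh_zero]
    exact one_ne_zero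
  · intro e
    have h1 := shc_mul w
    rw [e, mul_zero] at h1
    exact sinh_ne hw h h1.symm

/-- `z P(z - i l)`, regular at `0` -/
def U (z : ℂ) : ℂ := 2 / (√3 * Real.pi : ℝ) *
  (1 / (4 / 3 * shc (4 / 3 * z) * (-2 * I * Complex.cosh (4 / 3 * z + Real.pi / 6 * I))) +
    z / (2 * Complex.cosh (4 / 3 * z) * Complex.cosh (4 / 3 * z - Real.pi / 3 * I)))

lemma im43 (z : ℂ) : (4 / 3 * z : ℂ).im = 4 / 3 * z.im := by
  have : (4 / 3 : ℂ) = ((4 / 3 : ℝ) : ℂ) := by push_cast; rfl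
  rw [this, Complex.im_ofReal_mul]

lemma U_diff {z : ℂ} (h0 : 0 ≤ z.im) (h1 : z.im ≤ l) : DifferentiableAt ℂ U z := by
  have hpi := Real.pi_pos
  unfold l at h1
  have e : (4 / 3 * z : ℂ).im = 4 / 3 * z.im := im43 z
  have n1 : shc (4 / 3 * z) ≠ 0 := shc_ne (by rw [e, abs_of_nonneg (by linarith)]; linarith)
  have n2 : Complex.cosh (4 / 3 * z + Real.pi / 6 * I) ≠ 0 := cosh_ne (by
    have : (4 / 3 * z + Real.pi / 6 * I : ℂ).im = 4 / 3 * z.im + Real.pi / 6 := by
      rw [Complex.add_im, e]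
      simp
    rw [this, abs_of_nonneg (by linarith)]
    linarith)
  have n3 : Complex.cosh (4 / 3 * z) ≠ 0 := cosh_ne (by
    rw [e, abs_of_nonneg (by linarith)]; linarith)
  have n4 : Complex.cosh (4 / 3 * z - Real.pi / 3 * I) ≠ 0 := cosh_ne (by
    have : (4 / 3 * z - Real.pi / 3 * I : ℂ).im = 4 / 3 * z.im - Real.pi / 3 := by
      rw [Complex.sub_im, e]
      simp
    rw [this, abs_lt]
    constructor <;> linarith)
  have d1 : DifferentiableAt ℂ (fun z : ℂ => shc (4 / 3 * z)) z := by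
    have h := (shc_diff (4 / 3 * z)).comp z ((differentiableAt_id).const_mul (4 / 3 : ℂ))
    exact h
  have c43 : DifferentiableAt ℂ (fun z : ℂ => 4 / 3 * z) z := (differentiableAt_id).const_mul _
  have d2 : DifferentiableAt ℂ (fun z : ℂ => Complex.cosh (4 / 3 * z + Real.pi / 6 * I)) z :=
    (c43.add_const _).ccosh
  have d3 : DifferentiableAt ℂ (fun z : ℂ => Complex.cosh (4 / 3 * z)) z := c43.ccosh
  have d4 : DifferentiableAt ℂ (fun z : ℂ => Complex.cosh (4 / 3 * z - Real.pi / 3 * I)) z :=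
    (c43.sub_const _).ccosh
  have hI : (-2 * I : ℂ) ≠ 0 := by simp
  unfold U
  refine DifferentiableAt.const_mul (DifferentiableAt.add ?_ ?_) _
  · refine DifferentiableAt.div (differentiableAt_const _) ?_ ?_
    · exact (d1.const_mul _).mul (d2.const_mul _)
    · exact mul_ne_zero (mul_ne_zero (by norm_num) n1) (mul_ne_zero hI n2)
  · refine DifferentiableAt.div differentiableAt_id ?_ ?_
    · exact (d3.const_mul _).mul d4
    · exact mul_ne_zero (mul_ne_zero (by norm_num) n3) n4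

lemma cos_pi_6 : Complex.cos (Real.pi / 6) = √3 / 2 := by
  have h := Real.cos_pi_div_six
  have : Complex.cos ((Real.pi / 6 : ℝ) : ℂ) = ((√3 / 2 : ℝ) : ℂ) := by
    rw [← Complex.ofReal_cos, h]
  push_cast at this
  exact this

lemma sin_pi_6 : Complex.sin (Real.pi / 6) = 1 / 2 := by
  have h := Real.sin_pi_div_six
  have : Complex.sin ((Real.pi / 6 : ℝ) : ℂ) = ((1 / 2 : ℝ) : ℂ) := by
    rw [← Complex.ofReal_sin, h]
  push_cast at this
  exact this

lemma cos_pi_3 : Complex.cos (Real.pi / 3) = 1 / 2 := by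
  have h := Real.cos_pi_div_three
  have : Complex.cos ((Real.pi / 3 : ℝ) : ℂ) = ((1 / 2 : ℝ) : ℂ) := by
    rw [← Complex.ofReal_cos, h]
  push_cast at this
  exact this

lemma sin_pi_3 : Complex.sin (Real.pi / 3) = √3 / 2 := by
  have h := Real.sin_pi_div_three
  have : Complex.sin ((Real.pi / 3 : ℝ) : ℂ) = ((√3 / 2 : ℝ) : ℂ) := by
    rw [← Complex.ofReal_sin, h]
  push_cast at this
  exact this

lemma csq3 : ((√3 : ℝ) : ℂ) * ((√3 : ℝ) : ℂ) = 3 := by
  rw [← Complex.ofReal_mul, sq3]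
  norm_num

lemma il : ((l : ℝ) : ℂ) = Real.pi / 8 := by
  unfold l
  push_cast
  rfl

lemma cosh_shift (z : ℂ) : Complex.cosh (8 / 3 * (z - l * I)) =
    1 / 2 + Complex.sinh (4 / 3 * z) ^ 2 -
      √3 * I * Complex.sinh (4 / 3 * z) * Complex.cosh (4 / 3 * z) := by
  have e : 8 / 3 * (z - l * I) = 2 * (4 / 3 * z) - (Real.pi / 3) * I := by
    rw [il]
    ring
  rw [e, Complex.cosh_sub, Complex.cosh_mul_I, Complex.sinh_mul_I, cos_pi_3, sin_pi_3,
    Complex.cosh_two_mul, Complex.sinh_two_mul, Complex.cosh_sq]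
  ring

lemma U_eq {z : ℂ} (hz : z ≠ 0) (h0 : 0 ≤ z.im) (h1 : z.im ≤ l) :
    U z = z * Pc (z - l * I) := by
  have hpi := Real.pi_pos
  have h1' := h1
  unfold l at h1'
  have e : (4 / 3 * z : ℂ).im = 4 / 3 * z.im := im43 z
  have n0 : (4 / 3 * z : ℂ) ≠ 0 := mul_ne_zero (by norm_num) hz
  have n1 : Complex.sinh (4 / 3 * z) ≠ 0 :=
    sinh_ne n0 (by rw [e, abs_of_nonneg (by linarith)]; linarith)
  have n2 : Complex.cosh (4 / 3 * z + Real.pi / 6 * I) ≠ 0 := cosh_ne (by
    have : (4 / 3 * z + Real.pi / 6 * I : ℂ).im = 4 / 3 * z.im + Real.pi / 6 := by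
      rw [Complex.add_im, e]
      simp
    rw [this, abs_of_nonneg (by linarith)]
    linarith)
  have n3 : Complex.cosh (4 / 3 * z) ≠ 0 := cosh_ne (by
    rw [e, abs_of_nonneg (by linarith)]; linarith)
  have n4 : Complex.cosh (4 / 3 * z - Real.pi / 3 * I) ≠ 0 := cosh_ne (by
    have : (4 / 3 * z - Real.pi / 3 * I : ℂ).im = 4 / 3 * z.im - Real.pi / 3 := by
      rw [Complex.sub_im, e]
      simp
    rw [this, abs_lt]
    constructor <;> linarith)
  have a2 : -2 * I * Complex.cosh (4 / 3 * z + Real.pi / 6 * I) =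
      Complex.sinh (4 / 3 * z) - √3 * I * Complex.cosh (4 / 3 * z) := by
    rw [Complex.cosh_add, Complex.cosh_mul_I, Complex.sinh_mul_I, cos_pi_6, sin_pi_6]
    linear_combination (-Complex.sinh (4 / 3 * z)) * Complex.I_mul_I
  have a4 : 2 * Complex.cosh (4 / 3 * z - Real.pi / 3 * I) =
      Complex.cosh (4 / 3 * z) - √3 * I * Complex.sinh (4 / 3 * z) := by
    rw [Complex.cosh_sub, Complex.cosh_mul_I, Complex.sinh_mul_I, cos_pi_3, sin_pi_3]
    ring
  have b1 : 4 / 3 * shc (4 / 3 * z) = Complex.sinh (4 / 3 * z) / z := by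
    rw [eq_div_iff hz]
    have := shc_mul (4 / 3 * z)
    linear_combination this
  have hI : (-2 * I : ℂ) ≠ 0 := by simp
  have m2 : Complex.sinh (4 / 3 * z) - √3 * I * Complex.cosh (4 / 3 * z) ≠ 0 := by
    rw [← a2]
    exact mul_ne_zero hI n2
  have m4 : Complex.cosh (4 / 3 * z) - √3 * I * Complex.sinh (4 / 3 * z) ≠ 0 := by
    rw [← a4]
    exact mul_ne_zero two_ne_zero n4
  have p1 : 2 * Complex.cosh (8 / 3 * (z - l * I)) - 1 = 2 * (Complex.sinh (4 / 3 * z) *
      (Complex.sinh (4 / 3 * z) - √3 * I * Complex.cosh (4 / 3 * z))) := by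
    rw [cosh_shift]
    ring
  have p2 : 2 * Complex.cosh (8 / 3 * (z - l * I)) + 1 = 2 * (Complex.cosh (4 / 3 * z) *
      (Complex.cosh (4 / 3 * z) - √3 * I * Complex.sinh (4 / 3 * z))) := by
    rw [cosh_shift]
    have := Complex.cosh_sq (4 / 3 * z)
    linear_combination (-2) * this
  unfold U Pc
  rw [p1, p2, a2, b1]
  have q : 2 * Complex.cosh (4 / 3 * z) * Complex.cosh (4 / 3 * z - Real.pi / 3 * I) =
      Complex.cosh (4 / 3 * z) * (Complex.cosh (4 / 3 * z) - √3 * I * Complex.sinh (4 / 3 * z)) := by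
    rw [← a4]
    ring
  rw [q]
  have hsp : ((√3 * Real.pi : ℝ) : ℂ) ≠ 0 := by
    rw [Complex.ofReal_ne_zero]
    exact (mul_pos sq3_pos Real.pi_pos).ne'
  generalize Complex.sinh (4 / 3 * z) - √3 * I * Complex.cosh (4 / 3 * z) = x at *
  generalize Complex.cosh (4 / 3 * z) - √3 * I * Complex.sinh (4 / 3 * z) = y at *
  generalize Complex.sinh (4 / 3 * z) = S at *
  generalize Complex.cosh (4 / 3 * z) = K at *
  field_simp
  ring

lemma Pc_half {C S : ℝ} (hCS : C ^ 2 = S ^ 2 + 1) (hS : S ≠ 0) (hC : 0 < C) (σ : ℝ) (hσ : σ ^ 2 = 1) :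
    1 / ((C : ℂ) - σ * √3 * I * S - 1) + 1 / ((C : ℂ) - σ * √3 * I * S + 1) =
      - ((C : ℂ) - σ * √3 * I * S) / (S * (S + σ * √3 * I * C)) := by
  have hS' : (S : ℂ) ≠ 0 := Complex.ofReal_ne_zero.2 hS
  have hσ0 : σ ≠ 0 := by
    intro e
    rw [e] at hσ
    norm_num at hσ
  have hn : (S : ℂ) + σ * √3 * I * C ≠ 0 := by
    intro e
    have h := congrArg Complex.im e
    have e2 : (S : ℂ) + σ * √3 * I * C = (S : ℂ) + ((σ * √3 * C : ℝ) : ℂ) * I := by
      push_cast; ring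
    rw [e2] at h
    simp only [add_im, ofReal_im, mul_im, ofReal_re, I_im, mul_one, I_re, mul_zero, add_zero,
      zero_add, zero_im] at h
    have : σ * √3 * C ≠ 0 := mul_ne_zero (mul_ne_zero hσ0 sq3_pos.ne') hC.ne'
    exact this h
  have hCS' : (C : ℂ) ^ 2 = (S : ℂ) ^ 2 + 1 := by exact_mod_cast hCS
  have hσ' : (σ : ℂ) ^ 2 = 1 := by exact_mod_cast hσ
  have key : ((C : ℂ) - σ * √3 * I * S - 1) * ((C : ℂ) - σ * √3 * I * S + 1) =
      -2 * (S * (S + σ * √3 * I * C)) := by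
    have e : ((C : ℂ) - σ * √3 * I * S - 1) * ((C : ℂ) - σ * √3 * I * S + 1) =
      C ^ 2 - 2 * C * (σ * √3 * I * S) + σ ^ 2 * (√3 * √3) * (I * I) * S ^ 2 - 1 := by ring
    rw [e, csq3, Complex.I_mul_I, hσ', hCS']
    ring
  have hne : (-2 : ℂ) * (S * (S + σ * √3 * I * C)) ≠ 0 :=
    mul_ne_zero (by norm_num) (mul_ne_zero hS' hn)
  have h12 := key ▸ hne
  have n1 := left_ne_zero_of_mul h12
  have n2 := right_ne_zero_of_mul h12
  rw [div_add_div _ _ n1 n2, key, div_eq_div_iff hne (mul_ne_zero hS' hn)]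
  ring

/-- `P(t + i l) + P(t - i l) = P(t)` -/
lemma Pc_rule {t : ℝ} (ht : t ≠ 0) : Pc (t - l * I) + Pc (t + l * I) = P t := by
  set C : ℝ := Real.cosh (8 / 3 * t) with hC
  set S : ℝ := Real.sinh (8 / 3 * t) with hS
  have hS0 : S ≠ 0 := by
    rw [hS]
    intro e
    have := Real.sinh_eq_zero.1 e
    apply ht
    linarith
  have hC0 : 0 < C := Real.cosh_pos _
  have hCS : C ^ 2 = S ^ 2 + 1 := Real.cosh_sq _
  have e1 : 2 * Complex.cosh (8 / 3 * (t - l * I)) = (C : ℂ) - (1 : ℝ) * √3 * I * S := by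
    have e : 8 / 3 * ((t:ℂ) - l * I) = ((8 / 3 * t : ℝ) : ℂ) - (Real.pi / 3) * I := by
      rw [il]; push_cast; ring
    rw [e, Complex.cosh_sub, Complex.cosh_mul_I, Complex.sinh_mul_I, cos_pi_3, sin_pi_3,
      ← Complex.ofReal_cosh, ← Complex.ofReal_sinh, ← hC, ← hS]
    push_cast
    ring
  have e2 : 2 * Complex.cosh (8 / 3 * (t + l * I)) = (C : ℂ) - (-1 : ℝ) * √3 * I * S := by
    have e : 8 / 3 * ((t:ℂ) + l * I) = ((8 / 3 * t : ℝ) : ℂ) + (Real.pi / 3) * I := by
      rw [il]; push_cast; ring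
    rw [e, Complex.cosh_add, Complex.cosh_mul_I, Complex.sinh_mul_I, cos_pi_3, sin_pi_3,
      ← Complex.ofReal_cosh, ← Complex.ofReal_sinh, ← hC, ← hS]
    push_cast
    ring
  have h1 := Pc_half hCS hS0 hC0 1 (by norm_num)
  have h2 := Pc_half hCS hS0 hC0 (-1) (by norm_num)
  have e3 : (P t : ℂ) = 16 / (√3 * Real.pi : ℝ) * ((C : ℂ) / (4 * C ^ 2 - 1)) := by
    unfold P ch
    rw [← hC]
    push_cast
    rfl
  unfold Pc
  rw [e1, e2, h1, h2, e3]
  have hS' : (S : ℂ) ≠ 0 := Complex.ofReal_ne_zero.2 hS0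
  have hCS' : (C : ℂ) ^ 2 = (S : ℂ) ^ 2 + 1 := by exact_mod_cast hCS
  have hden : (4 * (C : ℂ) ^ 2 - 1) ≠ 0 := by
    have := (den_pos t).ne'
    unfold ch at this
    exact_mod_cast this
  have key : ((S : ℂ) + (1 : ℝ) * √3 * I * C) * ((S : ℂ) + (-1 : ℝ) * √3 * I * C) =
      4 * C ^ 2 - 1 := by
    have e : ((S : ℂ) + (1 : ℝ) * √3 * I * C) * ((S : ℂ) + (-1 : ℝ) * √3 * I * C) =
      S ^ 2 - (√3 * √3) * (I * I) * C ^ 2 := by push_cast; ring
    rw [e, csq3, Complex.I_mul_I]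
    linear_combination (-1 : ℂ) * hCS'
  have n12 := key ▸ hden
  have n1 := left_ne_zero_of_mul n12
  have n2 := right_ne_zero_of_mul n12
  have hs3 := csq3
  have hI := Complex.I_mul_I
  rw [← mul_add]
  have hs : - ((C : ℂ) - (1 : ℝ) * √3 * I * S) / (S * (S + (1 : ℝ) * √3 * I * C)) +
      - ((C : ℂ) - (-1 : ℝ) * √3 * I * S) / (S * (S + (-1 : ℝ) * √3 * I * C)) =
      4 * ((C : ℂ) / (4 * C ^ 2 - 1)) := by
    rw [div_add_div _ _ (mul_ne_zero hS' n1) (mul_ne_zero hS' n2), ← mul_div_assoc, div_eq_div_iff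
      (mul_ne_zero (mul_ne_zero hS' n1) (mul_ne_zero hS' n2)) hden, ← key]
    push_cast
    have e : ∀ r : ℂ, r * r = 3 → (-((C:ℂ) - 1 * r * I * S) * (S * (S + -1 * r * I * C)) +
        S * (S + 1 * r * I * C) * -((C:ℂ) - -1 * r * I * S)) = 4 * C * (S * S) := by
      intro r hr
      have : (-((C:ℂ) - 1 * r * I * S) * (S * (S + -1 * r * I * C)) +
        S * (S + 1 * r * I * C) * -((C:ℂ) - -1 * r * I * S)) =
          -2 * C * (S * S) - 2 * (r * r) * (I * I) * (C * (S * S)) := by ring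
      rw [this, hr, hI]
      ring
    rw [e _ hs3]
    ring
  rw [hs]
  ring

/-- shift of the upper line -/
theorem upper {f : ℂ → ℂ} {A c : ℝ} (hc0 : 0 ≤ c) (hc : c < 8 / 3)
    (hcont : ContinuousOn f {z : ℂ | |z.im| ≤ l}) (hd : ∀ z : ℂ, |z.im| < l → DifferentiableAt ℂ f z)
    (hb : ∀ z : ℂ, |z.im| ≤ l → ‖f z‖ ≤ A * Real.exp (c * |z.re|)) :
    Integrable (fun s : ℝ => (P s : ℂ) * (f (s + l * I) - f 0)) ∧
    Integrable (fun s : ℝ => Pc (s - l * I) * (f s - f 0)) ∧
    ∫ s : ℝ, (P s : ℂ) * (f (s + l * I) - f 0) = ∫ s : ℝ, Pc (s - l * I) * (f s - f 0) := by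
  have hl := l_pos
  have hA : 0 ≤ A := by
    have := (norm_nonneg _).trans (hb 0 (by simpa using hl.le))
    simpa using this
  have hf0 : ‖f 0‖ ≤ A := by simpa using hb 0 (by simpa using hl.le)
  have hmem : {z : ℂ | |z.im| ≤ l} ∈ 𝓝 (0:ℂ) := by
    have hop : IsOpen {z : ℂ | |z.im| < l} :=
      isOpen_lt (continuous_abs.comp Complex.continuous_im) continuous_const
    exact Filter.mem_of_superset (hop.mem_nhds (by simpa using hl))
      fun z (hz : |z.im| < l) => (le_of_lt hz : |z.im| ≤ l)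
  have hd0 : DifferentiableAt ℂ f 0 := hd 0 (by simpa using hl)
  set Φ : ℂ → ℂ := fun z => U z * dslope f 0 z with hΦ
  have hval : ∀ z : ℂ, z ≠ 0 → 0 ≤ z.im → z.im ≤ l → Φ z = Pc (z - l * I) * (f z - f 0) := by
    intro z hz h0 h1
    rw [hΦ]
    simp only
    rw [U_eq hz h0 h1, dslope_of_ne _ hz, slope_def_field, sub_zero]
    field_simp
  have hcΦ : ContinuousOn Φ {z : ℂ | 0 ≤ z.im ∧ z.im ≤ l} := by
    refine ContinuousOn.mul ?_ ?_
    · intro z hz
      exact (U_diff hz.1 hz.2).continuousAt.continuousWithinAt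
    · refine ((continuousOn_dslope hmem).2 ⟨hcont, hd0⟩).mono ?_
      intro z hz
      exact abs_le.2 ⟨by linarith [hz.1], hz.2⟩
  have hdΦ : ∀ z : ℂ, 0 < z.im → z.im < l → DifferentiableAt ℂ Φ z := by
    intro z h0 h1
    have hz : z ≠ 0 := by
      intro e
      rw [e] at h0
      simp at h0
    exact (U_diff h0.le h1.le).mul ((differentiableAt_dslope_of_ne hz).2
      (hd z (abs_lt.2 ⟨by linarith, h1⟩)))
  have hbΦ : ∀ z : ℂ, 0 ≤ z.im → z.im ≤ l → 1 ≤ |z.re| →
      ‖Φ z‖ ≤ 8 * A * Real.exp (-(8 / 3 - c) * |z.re|) := by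
    intro z h0 h1 h2
    have hz : z ≠ 0 := by
      intro e
      rw [e] at h2
      simp at h2
      linarith
    rw [hval z hz h0 h1, norm_mul]
    have h3 : ‖Pc (z - l * I)‖ ≤ 4 * Real.exp (-(8 / 3) * |z.re|) := by
      have e : (z - l * I).re = z.re := by simp
      have := Pc_le (z := z - l * I) (by rw [e]; exact h2)
      rwa [e] at this
    have h4 : ‖f z - f 0‖ ≤ 2 * A * Real.exp (c * |z.re|) := by
      have h5 := hb z (abs_le.2 ⟨by linarith, h1⟩)
      have h6 : 1 ≤ Real.exp (c * |z.re|) := Real.one_le_exp (by positivity)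
      have h7 : A ≤ A * Real.exp (c * |z.re|) := le_mul_of_one_le_right hA h6
      calc _ ≤ ‖f z‖ + ‖f 0‖ := norm_sub_le _ _
        _ ≤ _ := by linarith
    calc ‖Pc (z - l * I)‖ * ‖f z - f 0‖ ≤ (4 * Real.exp (-(8 / 3) * |z.re|)) *
          (2 * A * Real.exp (c * |z.re|)) := by gcongr
      _ = 8 * A * (Real.exp (-(8 / 3) * |z.re|) * Real.exp (c * |z.re|)) := by ring
      _ = _ := by rw [← Real.exp_add]; congr 2; ring
  obtain ⟨i0, i1, e⟩ := hshift hl.le (by linarith : (0:ℝ) < 8 / 3 - c) hcΦ hdΦ hbΦ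
  have t1 : ∀ s : ℝ, Φ (s + l * I) = (P s : ℂ) * (f (s + l * I) - f 0) := by
    intro s
    have hz : (s : ℂ) + l * I ≠ 0 := by
      intro e
      have := congrArg Complex.im e
      simp at this
      exact hl.ne' this
    rw [hval _ hz (by simpa using hl.le) (by simp), ← Pc_ofReal]
    congr 2
    ring
  have t0 : (fun s : ℝ => Φ s) =ᵐ[volume] fun s : ℝ => Pc (s - l * I) * (f s - f 0) := by
    have h0 : ∀ᵐ s : ℝ, s ≠ 0 := by
      rw [ae_iff]
      simp
    filter_upwards [h0] with s hs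
    exact hval _ (Complex.ofReal_ne_zero.2 hs) (by simp) (by simpa using hl.le)
  refine ⟨?_, i0.congr t0, ?_⟩
  · exact i1.congr (Eventually.of_forall fun s => t1 s)
  · rw [← integral_congr_ae t0, e]
    exact integral_congr_ae (Eventually.of_forall fun s => (t1 s).symm)

theorem sum_rule {f : ℂ → ℂ} {A c : ℝ} (hc0 : 0 ≤ c) (hc : c < 8 / 3)
    (hcont : ContinuousOn f {z : ℂ | |z.im| ≤ l}) (hd : ∀ z : ℂ, |z.im| < l → DifferentiableAt ℂ f z)
    (hb : ∀ z : ℂ, |z.im| ≤ l → ‖f z‖ ≤ A * Real.exp (c * |z.re|)) :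
    Integrable (fun s : ℝ => (P s : ℂ) * f (s + l * I)) ∧
    Integrable (fun s : ℝ => (P s : ℂ) * f (s - l * I)) ∧
    Integrable (fun s : ℝ => (P s : ℂ) * f s) ∧
    ∫ s : ℝ, (P s : ℂ) * (f (s + l * I) + f (s - l * I) - f s) = f 0 := by
  have hl := l_pos
  have hA : 0 ≤ A := by
    have := (norm_nonneg _).trans (hb 0 (by simpa using hl.le))
    simpa using this
  obtain ⟨u1, u2, u3⟩ := upper hc0 hc hcont hd hb
  -- the lower half by reflection
  have hcont' : ContinuousOn (fun z => f (-z)) {z : ℂ | |z.im| ≤ l} := by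
    refine hcont.comp continuous_neg.continuousOn ?_
    intro z hz
    simpa using hz
  have hd' : ∀ z : ℂ, |z.im| < l → DifferentiableAt ℂ (fun z => f (-z)) z := by
    intro z hz
    have h1 : DifferentiableAt ℂ f (-z) := hd (-z) (by simpa using hz)
    exact h1.comp z differentiableAt_id.neg
  obtain ⟨v1, v2, v3⟩ := upper hc0 hc hcont' hd' (fun z hz => by
    simpa using hb (-z) (by simpa using hz))
  have w1 := v1.comp_neg
  have w2 := v2.comp_neg
  have x1 : ∫ s : ℝ, (P s : ℂ) * (f (s - l * I) - f 0) =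
      ∫ s : ℝ, (P s : ℂ) * (f (-(s + l * I)) - f (-0)) := by
    rw [← integral_neg_eq_self]
    refine integral_congr_ae (Eventually.of_forall fun s => ?_)
    simp only
    rw [P_neg, neg_zero]
    congr 3
    push_cast; ring
  have x2 : ∫ s : ℝ, Pc (s + l * I) * (f s - f 0) =
      ∫ s : ℝ, Pc (s - l * I) * (f (-s) - f (-0)) := by
    rw [← integral_neg_eq_self]
    refine integral_congr_ae (Eventually.of_forall fun s => ?_)
    simp only
    rw [neg_zero, ← Pc_neg]
    congr 2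
    · push_cast; ring
    · push_cast; rfl
  have w1' : Integrable fun s : ℝ => (P s : ℂ) * (f (s - l * I) - f 0) := by
    refine w1.congr (Eventually.of_forall fun s => ?_)
    simp only
    rw [P_neg, neg_zero]
    congr 3
    push_cast; ring
  have w2' : Integrable fun s : ℝ => Pc (s + l * I) * (f s - f 0) := by
    refine w2.congr (Eventually.of_forall fun s => ?_)
    simp only
    rw [neg_zero, ← Pc_neg]
    congr 2
    · push_cast; ring
    · push_cast; ring_nf
  have hP : Integrable fun s : ℝ => (P s : ℂ) := P_integrable.ofReal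
  have hP1 : ∫ s : ℝ, (P s : ℂ) = 1 := by
    rw [integral_complex_ofReal, integral_P, Complex.ofReal_one]
  have y1 : Integrable (fun s : ℝ => (P s : ℂ) * f (s + l * I)) := by
    refine (u1.add (hP.mul_const (f 0))).congr (Eventually.of_forall fun s => ?_)
    simp only [Pi.add_apply]
    ring
  have y2 : Integrable (fun s : ℝ => (P s : ℂ) * f (s - l * I)) := by
    refine (w1'.add (hP.mul_const (f 0))).congr (Eventually.of_forall fun s => ?_)
    simp only [Pi.add_apply]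
    ring
  have hfc : Continuous fun s : ℝ => f s := by
    refine hcont.comp_continuous Complex.continuous_ofReal ?_
    intro s
    simpa using hl.le
  have y3 : Integrable (fun s : ℝ => (P s : ℂ) * f s) := by
    have h7 : 0 < 3 * √3 * Real.pi := mul_pos (mul_pos three_pos sq3_pos) Real.pi_pos
    refine ((int_exp_abs (b := 8 / 3 - c) (by linarith)).const_mul
      (32 / (3 * √3 * Real.pi) * A)).mono'
      ((Complex.continuous_ofReal.comp P_cont).mul hfc).aestronglyMeasurable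
      (Eventually.of_forall fun s => ?_)
    rw [norm_mul, Complex.norm_real, Real.norm_eq_abs, abs_of_pos (P_pos s)]
    have hbs : ‖f s‖ ≤ A * Real.exp (c * |s|) := by
      simpa using hb s (by simpa using hl.le)
    calc P s * ‖f s‖ ≤ (32 / (3 * √3 * Real.pi) * Real.exp (-(8 / 3) * |s|)) *
          (A * Real.exp (c * |s|)) := by
          gcongr
          exact P_le s
      _ = 32 / (3 * √3 * Real.pi) * A * (Real.exp (-(8 / 3) * |s|) * Real.exp (c * |s|)) := by ring
      _ = _ := by rw [← Real.exp_add]; congr 2; ring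
  refine ⟨y1, y2, y3, ?_⟩
  -- combine
  have z1 : (∫ s : ℝ, (P s : ℂ) * (f (s + l * I) - f 0)) + ∫ s : ℝ, (P s : ℂ) * (f (s - l * I) - f 0) =
      ∫ s : ℝ, (P s : ℂ) * (f s - f 0) := by
    rw [u3, x1, v3, ← x2, ← integral_add u2 w2']
    have h0 : ∀ᵐ s : ℝ, s ≠ 0 := by
      rw [ae_iff]
      simp
    refine integral_congr_ae ?_
    filter_upwards [h0] with s hs
    rw [← add_mul, Pc_rule hs]
  have y3' : Integrable (fun s : ℝ => (P s : ℂ) * (f s - f 0)) := by
    refine (y3.sub (hP.mul_const (f 0))).congr (Eventually.of_forall fun s => ?_)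
    simp only [Pi.sub_apply]
    ring
  have z2 : ∫ s : ℝ, (P s : ℂ) * (f (s + l * I) + f (s - l * I) - f s) =
      ((∫ s : ℝ, (P s : ℂ) * (f (s + l * I) - f 0)) + ∫ s : ℝ, (P s : ℂ) * (f (s - l * I) - f 0)) -
      (∫ s : ℝ, (P s : ℂ) * (f s - f 0)) + ∫ s : ℝ, (P s : ℂ) * f 0 := by
    have a1 := integral_add u1 w1'
    have a2 := integral_sub (u1.add w1') y3'
    have a3 := integral_add ((u1.add w1').sub y3') (hP.mul_const (f 0))
    simp only [Pi.add_apply, Pi.sub_apply] at a1 a2 a3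
    rw [← a1, ← a2, ← a3]
    refine integral_congr_ae (Eventually.of_forall fun s => ?_)
    simp only
    ring
  rw [z2, z1, sub_self, zero_add, integral_mul_const, hP1, one_mul]

end

end NUMF
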